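import Pool.Agent.H81.AP.Chk

/-! Multiples of the universal class `j*` (`U = θ - w` with `0 < θ < d`). -/

namespace Pool.Agent.H81.AP

open Pool.Agent.H98.Flat (Ap InA)
open Pool.Agent.H98.Flat.Ap

variable {A : Ap}

/-- a class from lifts which are not reduced -/
theorem cls_mk {n M Fr S : ℤ} (h0 : 0 < n) (h1 : n < A.p)
    (hU : (A.p : ℤ) * A.q ∣ A.a * n - (A.q * M + Fr)) (hS : (A.p : ℤ) ∣ A.e * n - S) :
    ∃ c, 0 < Fr - c * A.q ∧ Fr - c * A.q < A.q ∧ A.Cls n (M + c) (Fr - c * A.q) S := by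
  have hq := A.q_pos'
  have e := Int.emod_add_mul_ediv Fr A.q
  have f0 := Int.emod_nonneg Fr hq.ne'
  have f1 := Int.emod_lt_of_pos Fr hq
  have fn : Fr % A.q ≠ 0 := by
    intro h
    have h2 : (A.q : ℤ) ∣ Fr := Int.dvd_of_emod_eq_zero h
    obtain ⟨t, ht⟩ := hU
    obtain ⟨t', ht'⟩ := h2
    apply not_dvd_ai (A := A) h0 h1.le
    exact ⟨A.p * t + M + t', by linear_combination ht + ht'⟩
  refine ⟨Fr / A.q, by rw [mul_comm]; omega, by rw [mul_comm]; omega, h0, h1,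
    by rw [mul_comm]; omega, by rw [mul_comm]; omega, ?_, hS⟩
  obtain ⟨t, ht⟩ := hU
  exact ⟨t, by linear_combination ht⟩

/-- the universal class -/
structure JD (A : Ap) (j mt f1 s D T : ℤ) : Prop where
  j0 : 0 < j
  j1 : j < A.p
  hD : (A.q : ℤ) * A.md + A.fd = A.p * D
  D0 : 0 < D
  ha : A.a = D + A.q * T
  hT : (A.p : ℤ) ∣ T * j + A.w
  hE : D * j = A.q * mt + f1
  f0 : 0 < f1
  f1' : f1 < A.q
  hs : (A.p : ℤ) ∣ A.e * j - s

theorem mult {j mt f1 s D T : ℤ} (J : JD A j mt f1 s D T) {k t : ℤ} (k0 : 0 < k) (t0 : 0 ≤ t)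
    (h0 : 0 < k * j - t * A.p)
    (h1 : k * j - t * A.p < A.p) : ∃ c nn f g : ℤ, (-t ≤ c ∧ c ≤ k - 1) ∧ f = k * f1 - t * A.fd - c * A.q ∧
      g = A.fd - f - nn * A.q ∧ 0 < f ∧ f < A.q ∧ 0 < g ∧ g < A.q ∧ (nn = 0 ∨ nn = -1) ∧
      A.Cls (k * j - t * A.p) (k * (mt - A.w) - t * A.md + c) f (k * s) ∧
      A.Cls (A.p - (k * j - t * A.p)) (A.md - (k * (mt - A.w) - t * A.md + c) + nn) g (-(k * s)) ∧
      0 ≤ k * mt - t * A.md + c ∧ 0 ≤ A.md - (k * mt - t * A.md + c) + nn := by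
  have hq := A.q_pos'
  have hp := A.p_pos'
  have g0 := A.hfd
  have g1 : A.fd < A.q := A.hfd2
  have hmd := A.hmd
  obtain ⟨u, hu⟩ := J.hT
  obtain ⟨x, hx⟩ := J.hs
  obtain ⟨c, f0, f1', hc⟩ := cls_mk (A := A) (n := k * j - t * A.p)
    (M := k * (mt - A.w) - t * A.md) (Fr := k * f1 - t * A.fd) (S := k * s) h0 h1
    ⟨k * u - T * t, by
      rw [J.ha]
      linear_combination k * J.hE + A.q * k * hu + t * J.hD⟩
    ⟨k * x - A.e * t, by linear_combination k * hx⟩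
  have hpos : D * (k * j - t * A.p) = A.q * (k * mt - t * A.md + c) +
      (k * f1 - t * A.fd - c * A.q) := by
    linear_combination k * J.hE + t * J.hD
  have hlow : 0 < D * (k * j - t * A.p) := mul_pos J.D0 h0
  have hupp : D * (k * j - t * A.p) < A.q * A.md + A.fd := by
    rw [J.hD, mul_comm (A.p : ℤ) D]
    exact mul_lt_mul_of_pos_left h1 J.D0
  rw [hpos] at hlow hupp
  set P := k * mt - t * A.md + c with hP
  set f := k * f1 - t * A.fd - c * A.q with hf
  have P0 : 0 ≤ P := by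
    by_contra hh
    have : P ≤ -1 := by omega
    nlinarith
  have lex : P < A.md ∨ (P = A.md ∧ f < A.fd) := by
    rcases lt_trichotomy P A.md with h2 | h2 | h2
    · exact Or.inl h2
    · right; rw [h2] at hupp; exact ⟨h2, by omega⟩
    · exfalso
      have : A.md + 1 ≤ P := h2
      nlinarith
  have cb : -t ≤ c ∧ c ≤ k - 1 := by
    have j1 := J.f0
    have j2 := J.f1'
    constructor
    · by_contra hh
      have : c + t + 1 ≤ 0 := by omega
      nlinarith
    · by_contra hh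
      have : k ≤ c := by omega
      nlinarith
  rcases hc.neg with ⟨h2, h3⟩ | ⟨h2, h3⟩
  · refine ⟨c, 0, f, A.fd - f, cb, rfl, by ring, f0, f1', by omega, by omega, Or.inl rfl, hc, ?_,
      P0, ?_⟩
    · rw [add_zero]; exact h3
    · omega
  · refine ⟨c, -1, f, A.fd - f + A.q, cb, rfl, by ring, f0, f1', by omega, by omega, Or.inr rfl, hc,
      ?_, P0, ?_⟩
    · exact h3
    · omega

/-- `d = p D`, `a = D + q T` (real unit `q`) -/
theorem base' (A : Ap) : ∃ D T : ℤ, (A.q : ℤ) * A.md + A.fd = A.p * D ∧ A.a = D + A.q * T ∧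
    0 < D := by
  obtain ⟨k, hk⟩ := A.hd
  have h1 : (A.q : ℤ) * A.md + A.fd = A.p * (A.a - A.q * k) := by linear_combination -hk
  have hp := A.p_pos'
  have hq := A.q_pos'
  have hmd := A.hmd
  have hfd := A.hfd
  have hpos : 0 < (A.q : ℤ) * A.md + A.fd := by positivity
  refine ⟨A.a - A.q * k, k, h1, by ring, ?_⟩
  rw [h1] at hpos
  exact (mul_pos_iff_of_pos_left hp).1 hpos

/-- the row of a class is invertible if its index is -/
theorem cop_row {A : Ap} {i s : ℤ} (hi : IsCoprime i (A.p : ℤ)) (hs : (A.p : ℤ) ∣ A.e * i - s) :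
    IsCoprime s (A.p : ℤ) := by
  obtain ⟨x, y, hxy⟩ := hi
  obtain ⟨u, hu⟩ := hs
  obtain ⟨v, hv⟩ := A.inv
  exact ⟨A.e' * x, y + A.e' * x * u - x * i * v, by
    linear_combination hxy - A.e' * x * hu + x * i * hv⟩

/-- the universal class is invertible -/
theorem JD.cop_j {A : Ap} {j mt f1 s D T : ℤ} (J : JD A j mt f1 s D T) :
    IsCoprime j (A.p : ℤ) := by
  obtain ⟨x, y, hxy⟩ := A.cwp
  obtain ⟨u, hu⟩ := J.hT
  exact ⟨-x * T, y + x * u, by linear_combination hxy - x * hu⟩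

theorem JD.cop_s {A : Ap} {j mt f1 s D T : ℤ} (J : JD A j mt f1 s D T) :
    IsCoprime s (A.p : ℤ) := cop_row J.cop_j J.hs

/-- existence of the universal class -/
theorem exists_j {D T : ℤ} (hD : (A.q : ℤ) * A.md + A.fd = A.p * D) (D0 : 0 < D)
    (ha : A.a = D + A.q * T) (hcop : IsCoprime (A.p : ℤ) T) :
    ∃ j mt f1 s, JD A j mt f1 s D T ∧ 0 < s ∧ s < A.p := by
  have hp := A.p_pos'
  have hq := A.q_pos'
  have hw := A.hw
  have hwh := A.hwh
  have h2 := A.h2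
  -- invert T modulo p
  obtain ⟨x, y, hxy⟩ := hcop
  have j0 := Int.emod_nonneg (-(A.w : ℤ) * y) hp.ne'
  have j1 := Int.emod_lt_of_pos (-(A.w : ℤ) * y) hp
  have je := Int.emod_add_mul_ediv (-(A.w : ℤ) * y) A.p
  set j := (-(A.w : ℤ) * y) % A.p with hj
  have hTj : (A.p : ℤ) ∣ T * j + A.w :=
    ⟨A.w * x - T * ((-(A.w : ℤ) * y) / A.p), by linear_combination T * je - A.w * hxy⟩
  have jpos : 0 < j := by
    rcases eq_or_lt_of_le j0 with h | h
    · exfalso
      rw [← h, mul_zero, zero_add] at hTj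
      have := Int.le_of_dvd (by omega) hTj
      omega
    · exact h
  have f0 := Int.emod_nonneg (D * j) hq.ne'
  have f1 := Int.emod_lt_of_pos (D * j) hq
  have fe := Int.emod_add_mul_ediv (D * j) A.q
  have fn : (D * j) % A.q ≠ 0 := by
    intro h
    obtain ⟨t, ht⟩ := Int.dvd_of_emod_eq_zero h
    apply not_dvd_ai (A := A) jpos j1.le
    rw [ha]
    exact ⟨t + T * j, by linear_combination ht⟩
  have s0 := Int.emod_nonneg (A.e * j) hp.ne'
  have s1 := Int.emod_lt_of_pos (A.e * j) hp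
  have se := Int.emod_add_mul_ediv (A.e * j) A.p
  have sn : (A.e * j) % A.p ≠ 0 := by
    intro h
    exact not_dvd_e (A := A) jpos j1 (Int.dvd_of_emod_eq_zero h)
  refine ⟨j, D * j / A.q, (D * j) % A.q, (A.e * j) % A.p, ⟨jpos, j1, hD, D0, ha, hTj, ?_, ?_, f1, ?_⟩,
    ?_, s1⟩
  · linear_combination -fe
  · omega
  · exact ⟨A.e * j / A.p, by linear_combination -se⟩
  · omega

end Pool.Agent.H81.AP
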