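import Pool.Agent.H81.AP.K3
import Pool.Agent.H81.AP.TH3

/-! Cases (generated). -/

set_option linter.all false

namespace Pool.Agent.H81.AP

open Pool.Agent.H98.Flat (Ap InA)
open Pool.Agent.H98.Flat.Ap

theorem caseH27 {A : Ap} (F : A.Fl) (hr1 : A.w = A.h) (hr2 : 3 * (A.w : ℤ) ≤ A.p)
    (hr3 : (A.p : ℤ) < 4 * A.w) (K : K3 A)
    (ht : K.t2 = 0) (hc : K.c2 = 1) (h1 : K.n1 = -1) (h2 : K.n2 = 0)
    (ht3 : K.t3 = 1) (hc3 : K.c3 = 1) (h3 : K.n3 = -1) : False := by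
  obtain ⟨j, mt, s, f1, f2, g1, g2, t2, c2, n1, n2, d1, d2, d3, d4, e1, e2, e3, r1, r2, r3, r4,
    s0, s1, y1, y2, y3, y4, y5, x01, x02, x03, x04, x12, x13, x14, x23, x24, x34,
    f3, g3, t3, c3, n3, d5, d6, e4, e5, r5, r6, y6, y7, y8, y9, y10, y11, nd6,
    x05, x06, x15, x16, x25, x26, x35, x36, x45, x46, x56⟩ := K
  simp only at ht hc h1 h2 ht3 hc3 h3
  subst ht hc h1 h2 ht3 hc3 h3
  have hr1' : (A.w : ℤ) = A.h := by exact_mod_cast hr1
  have hw : (2 : ℤ) ≤ A.w := by exact_mod_cast A.hw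
  have hwh : (A.w : ℤ) ≤ A.h := by exact_mod_cast A.hwh
  have hh2 : 2 * (A.h : ℤ) < A.p := by exact_mod_cast A.h2
  have hmd := A.hmd
  have hmd2 := A.hmd2
  have v1 := A.hfd
  have v2 := A.hfd2
  have u1 := d1.2.2.1
  have u2 := d1.2.2.2.1
  have u3 := d2.2.2.1
  have u4 := d2.2.2.2.1
  have u5 := d3.2.2.1
  have u6 := d3.2.2.2.1
  have u7 := d4.2.2.1
  have u8 := d4.2.2.2.1
  have u9 := d5.2.2.1
  have u10 := d5.2.2.2.1
  have u11 := d6.2.2.1
  have u12 := d6.2.2.2.1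
  refine run F (v := [(A.p : ℤ), A.w, A.h, A.md, mt, s, f1, A.fd, A.q]) ⟨_, rfl⟩
    (fd := [0, 0, 0, 0, 0, 0, 0, 0, 1]) (by simp only [dot]; ring) (cls := cH27) ?_ nd6
    (N := nH27) ?_ (G := gH27) ?_ kH27
  · simp only [cH27, ClsOk, dot]
    refine ⟨?_, ?_, ?_, ?_, ?_, ?_, trivial⟩
    · convert d1 using 1 <;> ring1
    · convert d2 using 1 <;> first | ring1 | (rw [e1]; ring1)
    · convert d3 using 1 <;> first | ring1 | (rw [e2]; ring1)
    · convert d4 using 1 <;> first | ring1 | (rw [e3, e2]; ring1)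
    · convert d5 using 1 <;> first | ring1 | (rw [e4]; ring1)
    · convert d6 using 1 <;> first | ring1 | (rw [e5, e4]; ring1)
  · clear d1 d2 d3 d4 d5 d6 nd6
    simp only [nH27, AllNe, dot]
    exact ⟨fun h => y1 (by omega), fun h => y2 (by omega), fun h => y3 (by omega), fun h => y4 (by omega), fun h => y5 (by omega), fun h => y6 (by omega), fun h => y7 (by omega), fun h => y8 (by omega), fun h => y9 (by omega), fun h => y10 (by omega), fun h => y11 (by omega), fun h => x01 (by omega), fun h => x02 (by omega), fun h => x03 (by omega), fun h => x04 (by omega), fun h => x05 (by omega), fun h => x06 (by omega), fun h => x12 (by omega), fun h => x13 (by omega), fun h => x14 (by omega), fun h => x15 (by omega), fun h => x16 (by omega), fun h => x23 (by omega), fun h => x24 (by omega), fun h => x25 (by omega), fun h => x26 (by omega), fun h => x34 (by omega), fun h => x35 (by omega), fun h => x36 (by omega), fun h =>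 x45 (by omega), fun h => x46 (by omega), fun h => x56 (by omega), trivial⟩
  · clear d1 d2 d3 d4 d5 d6 nd6 y1 y2 y3 y4 y5 y6 y7 y8 y9 y10 y11 x01 x02 x03 x04 x05 x06 x12 x13 x14 x15 x16 x23 x24 x25 x26 x34 x35 x36 x45 x46 x56
    simp only [gH27, AllNn, dot]
    refine ⟨?_, ?_, ?_, ?_, ?_, ?_, ?_, ?_, ?_, ?_, ?_, ?_, ?_, ?_, ?_, ?_, ?_, ?_, ?_, ?_, ?_, ?_, ?_, ?_, ?_, ?_, ?_, ?_, ?_, ?_, trivial⟩ <;> omega

theorem caseH28 {A : Ap} (F : A.Fl) (hr1 : A.w = A.h) (hr2 : 3 * (A.w : ℤ) ≤ A.p)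
    (hr3 : (A.p : ℤ) < 4 * A.w) (K : K3 A)
    (ht : K.t2 = 0) (hc : K.c2 = 1) (h1 : K.n1 = -1) (h2 : K.n2 = 0)
    (ht3 : K.t3 = 1) (hc3 : K.c3 = 1) (h3 : K.n3 = 0) : False := by
  obtain ⟨j, mt, s, f1, f2, g1, g2, t2, c2, n1, n2, d1, d2, d3, d4, e1, e2, e3, r1, r2, r3, r4,
    s0, s1, y1, y2, y3, y4, y5, x01, x02, x03, x04, x12, x13, x14, x23, x24, x34,
    f3, g3, t3, c3, n3, d5, d6, e4, e5, r5, r6, y6, y7, y8, y9, y10, y11, nd6,
    x05, x06, x15, x16, x25, x26, x35, x36, x45, x46, x56⟩ := K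
  simp only at ht hc h1 h2 ht3 hc3 h3
  subst ht hc h1 h2 ht3 hc3 h3
  have hr1' : (A.w : ℤ) = A.h := by exact_mod_cast hr1
  have hw : (2 : ℤ) ≤ A.w := by exact_mod_cast A.hw
  have hwh : (A.w : ℤ) ≤ A.h := by exact_mod_cast A.hwh
  have hh2 : 2 * (A.h : ℤ) < A.p := by exact_mod_cast A.h2
  have hmd := A.hmd
  have hmd2 := A.hmd2
  have v1 := A.hfd
  have v2 := A.hfd2
  have u1 := d1.2.2.1
  have u2 := d1.2.2.2.1
  have u3 := d2.2.2.1
  have u4 := d2.2.2.2.1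
  have u5 := d3.2.2.1
  have u6 := d3.2.2.2.1
  have u7 := d4.2.2.1
  have u8 := d4.2.2.2.1
  have u9 := d5.2.2.1
  have u10 := d5.2.2.2.1
  have u11 := d6.2.2.1
  have u12 := d6.2.2.2.1
  refine run F (v := [(A.p : ℤ), A.w, A.h, A.md, mt, s, f1, A.fd, A.q]) ⟨_, rfl⟩
    (fd := [0, 0, 0, 0, 0, 0, 0, 0, 1]) (by simp only [dot]; ring) (cls := cH28) ?_ nd6
    (N := nH28) ?_ (G := gH28) ?_ kH28
  · simp only [cH28, ClsOk, dot]
    refine ⟨?_, ?_, ?_, ?_, ?_, ?_, trivial⟩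
    · convert d1 using 1 <;> ring1
    · convert d2 using 1 <;> first | ring1 | (rw [e1]; ring1)
    · convert d3 using 1 <;> first | ring1 | (rw [e2]; ring1)
    · convert d4 using 1 <;> first | ring1 | (rw [e3, e2]; ring1)
    · convert d5 using 1 <;> first | ring1 | (rw [e4]; ring1)
    · convert d6 using 1 <;> first | ring1 | (rw [e5, e4]; ring1)
  · clear d1 d2 d3 d4 d5 d6 nd6
    simp only [nH28, AllNe, dot]
    exact ⟨fun h => y1 (by omega), fun h => y2 (by omega), fun h => y3 (by omega), fun h => y4 (by omega), fun h => y5 (by omega), fun h => y6 (by omega), fun h => y7 (by omega), fun h => y8 (by omega), fun h => y9 (by omega), fun h => y10 (by omega), fun h => y11 (by omega), fun h => x01 (by omega), fun h => x02 (by omega), fun h => x03 (by omega), fun h => x04 (by omega), fun h => x05 (by omega), fun h => x06 (by omega), fun h => x12 (by omega), fun h => x13 (by omega), fun h => x14 (by omega), fun h =>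 x15 (by omega), fun h => x16 (by omega), fun h => x23 (by omega), fun h => x24 (by omega), fun h => x25 (by omega), fun h => x26 (by omega), fun h => x34 (by omega), fun h => x35 (by omega), fun h => x36 (by omega), fun h => x45 (by omega), fun h => x46 (by omega), fun h => x56 (by omega), trivial⟩
  · clear d1 d2 d3 d4 d5 d6 nd6 y1 y2 y3 y4 y5 y6 y7 y8 y9 y10 y11 x01 x02 x03 x04 x05 x06 x12 x13 x14 x15 x16 x23 x24 x25 x26 x34 x35 x36 x45 x46 x56
    simp only [gH28, AllNn, dot]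
    refine ⟨?_, ?_, ?_, ?_, ?_, ?_, ?_, ?_, ?_, ?_, ?_, ?_, ?_, ?_, ?_, ?_, ?_, ?_, ?_, ?_, ?_, ?_, ?_, ?_, ?_, ?_, ?_, ?_, ?_, ?_, trivial⟩ <;> omega

theorem caseH29 {A : Ap} (F : A.Fl) (hr1 : A.w = A.h) (hr2 : 3 * (A.w : ℤ) ≤ A.p)
    (hr3 : (A.p : ℤ) < 4 * A.w) (K : K3 A)
    (ht : K.t2 = 0) (hc : K.c2 = 1) (h1 : K.n1 = 0) (h2 : K.n2 = 0)
    (ht3 : K.t3 = 1) (hc3 : K.c3 = 0) (h3 : K.n3 = -1) : False := by
  obtain ⟨j, mt, s, f1, f2, g1, g2, t2, c2, n1, n2, d1, d2, d3, d4, e1, e2, e3, r1, r2, r3, r4,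
    s0, s1, y1, y2, y3, y4, y5, x01, x02, x03, x04, x12, x13, x14, x23, x24, x34,
    f3, g3, t3, c3, n3, d5, d6, e4, e5, r5, r6, y6, y7, y8, y9, y10, y11, nd6,
    x05, x06, x15, x16, x25, x26, x35, x36, x45, x46, x56⟩ := K
  simp only at ht hc h1 h2 ht3 hc3 h3
  subst ht hc h1 h2 ht3 hc3 h3
  have hr1' : (A.w : ℤ) = A.h := by exact_mod_cast hr1
  have hw : (2 : ℤ) ≤ A.w := by exact_mod_cast A.hw
  have hwh : (A.w : ℤ) ≤ A.h := by exact_mod_cast A.hwh
  have hh2 : 2 * (A.h : ℤ) < A.p := by exact_mod_cast A.h2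
  have hmd := A.hmd
  have hmd2 := A.hmd2
  have v1 := A.hfd
  have v2 := A.hfd2
  have u1 := d1.2.2.1
  have u2 := d1.2.2.2.1
  have u3 := d2.2.2.1
  have u4 := d2.2.2.2.1
  have u5 := d3.2.2.1
  have u6 := d3.2.2.2.1
  have u7 := d4.2.2.1
  have u8 := d4.2.2.2.1
  have u9 := d5.2.2.1
  have u10 := d5.2.2.2.1
  have u11 := d6.2.2.1
  have u12 := d6.2.2.2.1
  refine run F (v := [(A.p : ℤ), A.w, A.h, A.md, mt, s, f1, A.fd, A.q]) ⟨_, rfl⟩
    (fd := [0, 0, 0, 0, 0, 0, 0, 0, 1]) (by simp only [dot]; ring) (cls := cH29) ?_ nd6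
    (N := nH29) ?_ (G := gH29) ?_ kH29
  · simp only [cH29, ClsOk, dot]
    refine ⟨?_, ?_, ?_, ?_, ?_, ?_, trivial⟩
    · convert d1 using 1 <;> ring1
    · convert d2 using 1 <;> first | ring1 | (rw [e1]; ring1)
    · convert d3 using 1 <;> first | ring1 | (rw [e2]; ring1)
    · convert d4 using 1 <;> first | ring1 | (rw [e3, e2]; ring1)
    · convert d5 using 1 <;> first | ring1 | (rw [e4]; ring1)
    · convert d6 using 1 <;> first | ring1 | (rw [e5, e4]; ring1)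
  · clear d1 d2 d3 d4 d5 d6 nd6
    simp only [nH29, AllNe, dot]
    exact ⟨fun h => y1 (by omega), fun h => y2 (by omega), fun h => y3 (by omega), fun h => y4 (by omega), fun h => y5 (by omega), fun h => y6 (by omega), fun h => y7 (by omega), fun h => y8 (by omega), fun h => y9 (by omega), fun h => y10 (by omega), fun h => y11 (by omega), fun h => x01 (by omega), fun h => x02 (by omega), fun h => x03 (by omega), fun h => x04 (by omega), fun h => x05 (by omega), fun h => x06 (by omega), fun h => x12 (by omega), fun h => x13 (by omega), fun h => x14 (by omega), fun h => x15 (by omega), fun h => x16 (by omega), fun h => x23 (by omega), fun h => x24 (by omega), fun h => x25 (by omega), fun h => x26 (by omega), fun h => x34 (by omega), fun h => x35 (by omega), fun h => x36 (by omega), fun h => x45 (by omega), fun h => x46 (by omega), fun h => x56 (by omega), trivial⟩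
  · clear d1 d2 d3 d4 d5 d6 nd6 y1 y2 y3 y4 y5 y6 y7 y8 y9 y10 y11 x01 x02 x03 x04 x05 x06 x12 x13 x14 x15 x16 x23 x24 x25 x26 x34 x35 x36 x45 x46 x56
    simp only [gH29, AllNn, dot]
    refine ⟨?_, ?_, ?_, ?_, ?_, ?_, ?_, ?_, ?_, ?_, ?_, ?_, ?_, ?_, ?_, ?_, ?_, ?_, ?_, ?_, ?_, ?_, ?_, ?_, ?_, ?_, ?_, ?_, ?_, ?_, trivial⟩ <;> omega

theorem caseH30 {A : Ap} (F : A.Fl) (hr1 : A.w = A.h) (hr2 : 3 * (A.w : ℤ) ≤ A.p)
    (hr3 : (A.p : ℤ) < 4 * A.w) (K : K3 A)
    (ht : K.t2 = 0) (hc : K.c2 = 1) (h1 : K.n1 = 0) (h2 : K.n2 = 0)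
    (ht3 : K.t3 = 1) (hc3 : K.c3 = 0) (h3 : K.n3 = 0) : False := by
  obtain ⟨j, mt, s, f1, f2, g1, g2, t2, c2, n1, n2, d1, d2, d3, d4, e1, e2, e3, r1, r2, r3, r4,
    s0, s1, y1, y2, y3, y4, y5, x01, x02, x03, x04, x12, x13, x14, x23, x24, x34,
    f3, g3, t3, c3, n3, d5, d6, e4, e5, r5, r6, y6, y7, y8, y9, y10, y11, nd6,
    x05, x06, x15, x16, x25, x26, x35, x36, x45, x46, x56⟩ := K
  simp only at ht hc h1 h2 ht3 hc3 h3
  subst ht hc h1 h2 ht3 hc3 h3
  have hr1' : (A.w : ℤ) = A.h := by exact_mod_cast hr1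
  have hw : (2 : ℤ) ≤ A.w := by exact_mod_cast A.hw
  have hwh : (A.w : ℤ) ≤ A.h := by exact_mod_cast A.hwh
  have hh2 : 2 * (A.h : ℤ) < A.p := by exact_mod_cast A.h2
  have hmd := A.hmd
  have hmd2 := A.hmd2
  have v1 := A.hfd
  have v2 := A.hfd2
  have u1 := d1.2.2.1
  have u2 := d1.2.2.2.1
  have u3 := d2.2.2.1
  have u4 := d2.2.2.2.1
  have u5 := d3.2.2.1
  have u6 := d3.2.2.2.1
  have u7 := d4.2.2.1
  have u8 := d4.2.2.2.1
  have u9 := d5.2.2.1
  have u10 := d5.2.2.2.1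
  have u11 := d6.2.2.1
  have u12 := d6.2.2.2.1
  refine run F (v := [(A.p : ℤ), A.w, A.h, A.md, mt, s, f1, A.fd, A.q]) ⟨_, rfl⟩
    (fd := [0, 0, 0, 0, 0, 0, 0, 0, 1]) (by simp only [dot]; ring) (cls := cH30) ?_ nd6
    (N := nH30) ?_ (G := gH30) ?_ kH30
  · simp only [cH30, ClsOk, dot]
    refine ⟨?_, ?_, ?_, ?_, ?_, ?_, trivial⟩
    · convert d1 using 1 <;> ring1
    · convert d2 using 1 <;> first | ring1 | (rw [e1]; ring1)
    · convert d3 using 1 <;> first | ring1 | (rw [e2]; ring1)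
    · convert d4 using 1 <;> first | ring1 | (rw [e3, e2]; ring1)
    · convert d5 using 1 <;> first | ring1 | (rw [e4]; ring1)
    · convert d6 using 1 <;> first | ring1 | (rw [e5, e4]; ring1)
  · clear d1 d2 d3 d4 d5 d6 nd6
    simp only [nH30, AllNe, dot]
    exact ⟨fun h => y1 (by omega), fun h => y2 (by omega), fun h => y3 (by omega), fun h => y4 (by omega), fun h => y5 (by omega), fun h => y6 (by omega), fun h => y7 (by omega), fun h => y8 (by omega), fun h => y9 (by omega), fun h => y10 (by omega), fun h => y11 (by omega), fun h => x01 (by omega), fun h => x02 (by omega), fun h => x03 (by omega), fun h => x04 (by omega), fun h => x05 (by omega), fun h => x06 (by omega), fun h => x12 (by omega), fun h => x13 (by omega), fun h => x14 (by omega), fun h => x15 (by omega), fun h => x16 (by omega), fun h => x23 (by omega), fun h => x24 (by omega), fun h => x25 (by omega), fun h => x26 (by omega), fun h => x34 (by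 omega), fun h => x35 (by omega), fun h => x36 (by omega), fun h => x45 (by omega), fun h => x46 (by omega), fun h => x56 (by omega), trivial⟩
  · clear d1 d2 d3 d4 d5 d6 nd6 y1 y2 y3 y4 y5 y6 y7 y8 y9 y10 y11 x01 x02 x03 x04 x05 x06 x12 x13 x14 x15 x16 x23 x24 x25 x26 x34 x35 x36 x45 x46 x56
    simp only [gH30, AllNn, dot]
    refine ⟨?_, ?_, ?_, ?_, ?_, ?_, ?_, ?_, ?_, ?_, ?_, ?_, ?_, ?_, ?_, ?_, ?_, ?_, ?_, ?_, ?_, ?_, ?_, ?_, ?_, ?_, ?_, ?_, ?_, ?_, trivial⟩ <;> omega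

theorem caseH31 {A : Ap} (F : A.Fl) (hr1 : A.w = A.h) (hr2 : 3 * (A.w : ℤ) ≤ A.p)
    (hr3 : (A.p : ℤ) < 4 * A.w) (K : K3 A)
    (ht : K.t2 = 0) (hc : K.c2 = 1) (h1 : K.n1 = 0) (h2 : K.n2 = 0)
    (ht3 : K.t3 = 1) (hc3 : K.c3 = 1) (h3 : K.n3 = 0) : False := by
  obtain ⟨j, mt, s, f1, f2, g1, g2, t2, c2, n1, n2, d1, d2, d3, d4, e1, e2, e3, r1, r2, r3, r4,
    s0, s1, y1, y2, y3, y4, y5, x01, x02, x03, x04, x12, x13, x14, x23, x24, x34,
    f3, g3, t3, c3, n3, d5, d6, e4, e5, r5, r6, y6, y7, y8, y9, y10, y11, nd6,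
    x05, x06, x15, x16, x25, x26, x35, x36, x45, x46, x56⟩ := K
  simp only at ht hc h1 h2 ht3 hc3 h3
  subst ht hc h1 h2 ht3 hc3 h3
  have hr1' : (A.w : ℤ) = A.h := by exact_mod_cast hr1
  have hw : (2 : ℤ) ≤ A.w := by exact_mod_cast A.hw
  have hwh : (A.w : ℤ) ≤ A.h := by exact_mod_cast A.hwh
  have hh2 : 2 * (A.h : ℤ) < A.p := by exact_mod_cast A.h2
  have hmd := A.hmd
  have hmd2 := A.hmd2
  have v1 := A.hfd
  have v2 := A.hfd2
  have u1 := d1.2.2.1
  have u2 := d1.2.2.2.1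
  have u3 := d2.2.2.1
  have u4 := d2.2.2.2.1
  have u5 := d3.2.2.1
  have u6 := d3.2.2.2.1
  have u7 := d4.2.2.1
  have u8 := d4.2.2.2.1
  have u9 := d5.2.2.1
  have u10 := d5.2.2.2.1
  have u11 := d6.2.2.1
  have u12 := d6.2.2.2.1
  refine run F (v := [(A.p : ℤ), A.w, A.h, A.md, mt, s, f1, A.fd, A.q]) ⟨_, rfl⟩
    (fd := [0, 0, 0, 0, 0, 0, 0, 0, 1]) (by simp only [dot]; ring) (cls := cH31) ?_ nd6
    (N := nH31) ?_ (G := gH31) ?_ kH31
  · simp only [cH31, ClsOk, dot]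
    refine ⟨?_, ?_, ?_, ?_, ?_, ?_, trivial⟩
    · convert d1 using 1 <;> ring1
    · convert d2 using 1 <;> first | ring1 | (rw [e1]; ring1)
    · convert d3 using 1 <;> first | ring1 | (rw [e2]; ring1)
    · convert d4 using 1 <;> first | ring1 | (rw [e3, e2]; ring1)
    · convert d5 using 1 <;> first | ring1 | (rw [e4]; ring1)
    · convert d6 using 1 <;> first | ring1 | (rw [e5, e4]; ring1)
  · clear d1 d2 d3 d4 d5 d6 nd6
    simp only [nH31, AllNe, dot]
    exact ⟨fun h => y1 (by omega), fun h => y2 (by omega), fun h => y3 (by omega), fun h => y4 (by omega), fun h => y5 (by omega), fun h => y6 (by omega), fun h => y7 (by omega), fun h => y8 (by omega), fun h => y9 (by omega), fun h => y10 (by omega), fun h => y11 (by omega), fun h => x01 (by omega), fun h => x02 (by omega), fun h => x03 (by omega), fun h => x04 (by omega), fun h => x05 (by omega), fun h => x06 (by omega), fun h => x12 (by omega), fun h => x13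 (by omega), fun h => x14 (by omega), fun h => x15 (by omega), fun h => x16 (by omega), fun h => x23 (by omega), fun h => x24 (by omega), fun h => x25 (by omega), fun h => x26 (by omega), fun h => x34 (by omega), fun h => x35 (by omega), fun h => x36 (by omega), fun h => x45 (by omega), fun h => x46 (by omega), fun h => x56 (by omega), trivial⟩
  · clear d1 d2 d3 d4 d5 d6 nd6 y1 y2 y3 y4 y5 y6 y7 y8 y9 y10 y11 x01 x02 x03 x04 x05 x06 x12 x13 x14 x15 x16 x23 x24 x25 x26 x34 x35 x36 x45 x46 x56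
    simp only [gH31, AllNn, dot]
    refine ⟨?_, ?_, ?_, ?_, ?_, ?_, ?_, ?_, ?_, ?_, ?_, ?_, ?_, ?_, ?_, ?_, ?_, ?_, ?_, ?_, ?_, ?_, ?_, ?_, ?_, ?_, ?_, ?_, ?_, ?_, trivial⟩ <;> omega

theorem caseH32 {A : Ap} (F : A.Fl) (hr1 : A.w = A.h) (hr2 : 3 * (A.w : ℤ) ≤ A.p)
    (hr3 : (A.p : ℤ) < 4 * A.w) (K : K3 A)
    (ht : K.t2 = 1) (hc : K.c2 = -1) (h1 : K.n1 = 0) (h2 : K.n2 = -1)
    (ht3 : K.t3 = 1) (hc3 : K.c3 = -1) (h3 : K.n3 = -1) : False := by
  obtain ⟨j, mt, s, f1, f2, g1, g2, t2, c2, n1, n2, d1, d2, d3, d4, e1, e2, e3, r1, r2, r3, r4,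
    s0, s1, y1, y2, y3, y4, y5, x01, x02, x03, x04, x12, x13, x14, x23, x24, x34,
    f3, g3, t3, c3, n3, d5, d6, e4, e5, r5, r6, y6, y7, y8, y9, y10, y11, nd6,
    x05, x06, x15, x16, x25, x26, x35, x36, x45, x46, x56⟩ := K
  simp only at ht hc h1 h2 ht3 hc3 h3
  subst ht hc h1 h2 ht3 hc3 h3
  have hr1' : (A.w : ℤ) = A.h := by exact_mod_cast hr1
  have hw : (2 : ℤ) ≤ A.w := by exact_mod_cast A.hw
  have hwh : (A.w : ℤ) ≤ A.h := by exact_mod_cast A.hwh
  have hh2 : 2 * (A.h : ℤ) < A.p := by exact_mod_cast A.h2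
  have hmd := A.hmd
  have hmd2 := A.hmd2
  have v1 := A.hfd
  have v2 := A.hfd2
  have u1 := d1.2.2.1
  have u2 := d1.2.2.2.1
  have u3 := d2.2.2.1
  have u4 := d2.2.2.2.1
  have u5 := d3.2.2.1
  have u6 := d3.2.2.2.1
  have u7 := d4.2.2.1
  have u8 := d4.2.2.2.1
  have u9 := d5.2.2.1
  have u10 := d5.2.2.2.1
  have u11 := d6.2.2.1
  have u12 := d6.2.2.2.1
  refine run F (v := [(A.p : ℤ), A.w, A.h, A.md, mt, s, f1, A.fd, A.q]) ⟨_, rfl⟩
    (fd := [0, 0, 0, 0, 0, 0, 0, 0, 1]) (by simp only [dot]; ring) (cls := cH32) ?_ nd6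
    (N := nH32) ?_ (G := gH32) ?_ kH32
  · simp only [cH32, ClsOk, dot]
    refine ⟨?_, ?_, ?_, ?_, ?_, ?_, trivial⟩
    · convert d1 using 1 <;> ring1
    · convert d2 using 1 <;> first | ring1 | (rw [e1]; ring1)
    · convert d3 using 1 <;> first | ring1 | (rw [e2]; ring1)
    · convert d4 using 1 <;> first | ring1 | (rw [e3, e2]; ring1)
    · convert d5 using 1 <;> first | ring1 | (rw [e4]; ring1)
    · convert d6 using 1 <;> first | ring1 | (rw [e5, e4]; ring1)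
  · clear d1 d2 d3 d4 d5 d6 nd6
    simp only [nH32, AllNe, dot]
    exact ⟨fun h => y1 (by omega), fun h => y2 (by omega), fun h => y3 (by omega), fun h => y4 (by omega), fun h => y5 (by omega), fun h => y6 (by omega), fun h => y7 (by omega), fun h => y8 (by omega), fun h => y9 (by omega), fun h => y10 (by omega), fun h => y11 (by omega), fun h => x01 (by omega), fun h => x02 (by omega), fun h => x03 (by omega), fun h => x04 (by omega), fun h => x05 (by omega), fun h => x06 (by omega), fun h => x12 (by omega), fun h => x13 (by omega), fun h => x14 (by omega), fun h => x15 (by omega), fun h => x16 (by omega), fun h => x23 (by omega), fun h => x24 (by omega), fun h => x25 (by omega), fun h => x26 (by omega), fun h => x34 (by omega), fun h => x35 (by omega), fun h => x36 (by omega), fun h => x45 (by omega), fun h => x46 (by omega), fun h => x56 (by omega), trivial⟩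
  · clear d1 d2 d3 d4 d5 d6 nd6 y1 y2 y3 y4 y5 y6 y7 y8 y9 y10 y11 x01 x02 x03 x04 x05 x06 x12 x13 x14 x15 x16 x23 x24 x25 x26 x34 x35 x36 x45 x46 x56
    simp only [gH32, AllNn, dot]
    refine ⟨?_, ?_, ?_, ?_, ?_, ?_, ?_, ?_, ?_, ?_, ?_, ?_, ?_, ?_, ?_, ?_, ?_, ?_, ?_, ?_, ?_, ?_, ?_, ?_, ?_, ?_, ?_, ?_, ?_, ?_, trivial⟩ <;> omega

theorem caseH33 {A : Ap} (F : A.Fl) (hr1 : A.w = A.h) (hr2 : 3 * (A.w : ℤ) ≤ A.p)
    (hr3 : (A.p : ℤ) < 4 * A.w) (K : K3 A)
    (ht : K.t2 = 1) (hc : K.c2 = -1) (h1 : K.n1 = 0) (h2 : K.n2 = -1)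
    (ht3 : K.t3 = 1) (hc3 : K.c3 = 0) (h3 : K.n3 = 0) : False := by
  obtain ⟨j, mt, s, f1, f2, g1, g2, t2, c2, n1, n2, d1, d2, d3, d4, e1, e2, e3, r1, r2, r3, r4,
    s0, s1, y1, y2, y3, y4, y5, x01, x02, x03, x04, x12, x13, x14, x23, x24, x34,
    f3, g3, t3, c3, n3, d5, d6, e4, e5, r5, r6, y6, y7, y8, y9, y10, y11, nd6,
    x05, x06, x15, x16, x25, x26, x35, x36, x45, x46, x56⟩ := K
  simp only at ht hc h1 h2 ht3 hc3 h3
  subst ht hc h1 h2 ht3 hc3 h3
  have hr1' : (A.w : ℤ) = A.h := by exact_mod_cast hr1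
  have hw : (2 : ℤ) ≤ A.w := by exact_mod_cast A.hw
  have hwh : (A.w : ℤ) ≤ A.h := by exact_mod_cast A.hwh
  have hh2 : 2 * (A.h : ℤ) < A.p := by exact_mod_cast A.h2
  have hmd := A.hmd
  have hmd2 := A.hmd2
  have v1 := A.hfd
  have v2 := A.hfd2
  have u1 := d1.2.2.1
  have u2 := d1.2.2.2.1
  have u3 := d2.2.2.1
  have u4 := d2.2.2.2.1
  have u5 := d3.2.2.1
  have u6 := d3.2.2.2.1
  have u7 := d4.2.2.1
  have u8 := d4.2.2.2.1
  have u9 := d5.2.2.1
  have u10 := d5.2.2.2.1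
  have u11 := d6.2.2.1
  have u12 := d6.2.2.2.1
  refine run F (v := [(A.p : ℤ), A.w, A.h, A.md, mt, s, f1, A.fd, A.q]) ⟨_, rfl⟩
    (fd := [0, 0, 0, 0, 0, 0, 0, 0, 1]) (by simp only [dot]; ring) (cls := cH33) ?_ nd6
    (N := nH33) ?_ (G := gH33) ?_ kH33
  · simp only [cH33, ClsOk, dot]
    refine ⟨?_, ?_, ?_, ?_, ?_, ?_, trivial⟩
    · convert d1 using 1 <;> ring1
    · convert d2 using 1 <;> first | ring1 | (rw [e1]; ring1)
    · convert d3 using 1 <;> first | ring1 | (rw [e2]; ring1)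
    · convert d4 using 1 <;> first | ring1 | (rw [e3, e2]; ring1)
    · convert d5 using 1 <;> first | ring1 | (rw [e4]; ring1)
    · convert d6 using 1 <;> first | ring1 | (rw [e5, e4]; ring1)
  · clear d1 d2 d3 d4 d5 d6 nd6
    simp only [nH33, AllNe, dot]
    exact ⟨fun h => y1 (by omega), fun h => y2 (by omega), fun h => y3 (by omega), fun h => y4 (by omega), fun h => y5 (by omega), fun h => y6 (by omega), fun h => y7 (by omega), fun h => y8 (by omega), fun h => y9 (by omega), fun h => y10 (by omega), fun h => y11 (by omega), fun h => x01 (by omega), fun h => x02 (by omega), fun h => x03 (by omega), fun h => x04 (by omega), fun h => x05 (by omega), fun h => x06 (by omega), fun h => x12 (by omega), fun h => x13 (by omega), fun h => x14 (by omega), fun h => x15 (by omega), fun h => x16 (by omega), fun h => x23 (by omega), fun h => x24 (by omega), fun h => x25 (by omega), fun h => x26 (by omega), fun h => x34 (by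 omega), fun h => x35 (by omega), fun h => x36 (by omega), fun h => x45 (by omega), fun h => x46 (by omega), fun h => x56 (by omega), trivial⟩
  · clear d1 d2 d3 d4 d5 d6 nd6 y1 y2 y3 y4 y5 y6 y7 y8 y9 y10 y11 x01 x02 x03 x04 x05 x06 x12 x13 x14 x15 x16 x23 x24 x25 x26 x34 x35 x36 x45 x46 x56
    simp only [gH33, AllNn, dot]
    refine ⟨?_, ?_, ?_, ?_, ?_, ?_, ?_, ?_, ?_, ?_, ?_, ?_, ?_, ?_, ?_, ?_, ?_, ?_, ?_, ?_, ?_, ?_, ?_, ?_, ?_, ?_, ?_, ?_, ?_, ?_, trivial⟩ <;> omega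

theorem caseH34 {A : Ap} (F : A.Fl) (hr1 : A.w = A.h) (hr2 : 3 * (A.w : ℤ) ≤ A.p)
    (hr3 : (A.p : ℤ) < 4 * A.w) (K : K3 A)
    (ht : K.t2 = 1) (hc : K.c2 = -1) (h1 : K.n1 = 0) (h2 : K.n2 = 0)
    (ht3 : K.t3 = 1) (hc3 : K.c3 = -1) (h3 : K.n3 = -1) : False := by
  obtain ⟨j, mt, s, f1, f2, g1, g2, t2, c2, n1, n2, d1, d2, d3, d4, e1, e2, e3, r1, r2, r3, r4,
    s0, s1, y1, y2, y3, y4, y5, x01, x02, x03, x04, x12, x13, x14, x23, x24, x34,
    f3, g3, t3, c3, n3, d5, d6, e4, e5, r5, r6, y6, y7, y8, y9, y10, y11, nd6,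
    x05, x06, x15, x16, x25, x26, x35, x36, x45, x46, x56⟩ := K
  simp only at ht hc h1 h2 ht3 hc3 h3
  subst ht hc h1 h2 ht3 hc3 h3
  have hr1' : (A.w : ℤ) = A.h := by exact_mod_cast hr1
  have hw : (2 : ℤ) ≤ A.w := by exact_mod_cast A.hw
  have hwh : (A.w : ℤ) ≤ A.h := by exact_mod_cast A.hwh
  have hh2 : 2 * (A.h : ℤ) < A.p := by exact_mod_cast A.h2
  have hmd := A.hmd
  have hmd2 := A.hmd2
  have v1 := A.hfd
  have v2 := A.hfd2
  have u1 := d1.2.2.1
  have u2 := d1.2.2.2.1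
  have u3 := d2.2.2.1
  have u4 := d2.2.2.2.1
  have u5 := d3.2.2.1
  have u6 := d3.2.2.2.1
  have u7 := d4.2.2.1
  have u8 := d4.2.2.2.1
  have u9 := d5.2.2.1
  have u10 := d5.2.2.2.1
  have u11 := d6.2.2.1
  have u12 := d6.2.2.2.1
  refine run F (v := [(A.p : ℤ), A.w, A.h, A.md, mt, s, f1, A.fd, A.q]) ⟨_, rfl⟩
    (fd := [0, 0, 0, 0, 0, 0, 0, 0, 1]) (by simp only [dot]; ring) (cls := cH34) ?_ nd6
    (N := nH34) ?_ (G := gH34) ?_ kH34
  · simp only [cH34, ClsOk, dot]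
    refine ⟨?_, ?_, ?_, ?_, ?_, ?_, trivial⟩
    · convert d1 using 1 <;> ring1
    · convert d2 using 1 <;> first | ring1 | (rw [e1]; ring1)
    · convert d3 using 1 <;> first | ring1 | (rw [e2]; ring1)
    · convert d4 using 1 <;> first | ring1 | (rw [e3, e2]; ring1)
    · convert d5 using 1 <;> first | ring1 | (rw [e4]; ring1)
    · convert d6 using 1 <;> first | ring1 | (rw [e5, e4]; ring1)
  · clear d1 d2 d3 d4 d5 d6 nd6
    simp only [nH34, AllNe, dot]
    exact ⟨fun h => y1 (by omega), fun h => y2 (by omega), fun h => y3 (by omega), fun h => y4 (by omega), fun h => y5 (by omega), fun h => y6 (by omega), fun h => y7 (by omega), fun h => y8 (by omega), fun h => y9 (by omega), fun h => y10 (by omega), fun h => y11 (by omega), fun h => x01 (by omega), fun h => x02 (by omega), fun h => x03 (by omega), fun h => x04 (by omega), fun h => x05 (by omega), fun h => x06 (by omega), fun h => x12 (by omega), fun h => x13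 (by omega), fun h => x14 (by omega), fun h => x15 (by omega), fun h => x16 (by omega), fun h => x23 (by omega), fun h => x24 (by omega), fun h => x25 (by omega), fun h => x26 (by omega), fun h => x34 (by omega), fun h => x35 (by omega), fun h => x36 (by omega), fun h => x45 (by omega), fun h => x46 (by omega), fun h => x56 (by omega), trivial⟩
  · clear d1 d2 d3 d4 d5 d6 nd6 y1 y2 y3 y4 y5 y6 y7 y8 y9 y10 y11 x01 x02 x03 x04 x05 x06 x12 x13 x14 x15 x16 x23 x24 x25 x26 x34 x35 x36 x45 x46 x56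
    simp only [gH34, AllNn, dot]
    refine ⟨?_, ?_, ?_, ?_, ?_, ?_, ?_, ?_, ?_, ?_, ?_, ?_, ?_, ?_, ?_, ?_, ?_, ?_, ?_, ?_, ?_, ?_, ?_, ?_, ?_, ?_, ?_, ?_, ?_, ?_, trivial⟩ <;> omega

theorem caseH35 {A : Ap} (F : A.Fl) (hr1 : A.w = A.h) (hr2 : 3 * (A.w : ℤ) ≤ A.p)
    (hr3 : (A.p : ℤ) < 4 * A.w) (K : K3 A)
    (ht : K.t2 = 1) (hc : K.c2 = -1) (h1 : K.n1 = 0) (h2 : K.n2 = 0)
    (ht3 : K.t3 = 1) (hc3 : K.c3 = -1) (h3 : K.n3 = 0) : False := by
  obtain ⟨j, mt, s, f1, f2, g1, g2, t2, c2, n1, n2, d1, d2, d3, d4, e1, e2, e3, r1, r2, r3, r4,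
    s0, s1, y1, y2, y3, y4, y5, x01, x02, x03, x04, x12, x13, x14, x23, x24, x34,
    f3, g3, t3, c3, n3, d5, d6, e4, e5, r5, r6, y6, y7, y8, y9, y10, y11, nd6,
    x05, x06, x15, x16, x25, x26, x35, x36, x45, x46, x56⟩ := K
  simp only at ht hc h1 h2 ht3 hc3 h3
  subst ht hc h1 h2 ht3 hc3 h3
  have hr1' : (A.w : ℤ) = A.h := by exact_mod_cast hr1
  have hw : (2 : ℤ) ≤ A.w := by exact_mod_cast A.hw
  have hwh : (A.w : ℤ) ≤ A.h := by exact_mod_cast A.hwh
  have hh2 : 2 * (A.h : ℤ) < A.p := by exact_mod_cast A.h2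
  have hmd := A.hmd
  have hmd2 := A.hmd2
  have v1 := A.hfd
  have v2 := A.hfd2
  have u1 := d1.2.2.1
  have u2 := d1.2.2.2.1
  have u3 := d2.2.2.1
  have u4 := d2.2.2.2.1
  have u5 := d3.2.2.1
  have u6 := d3.2.2.2.1
  have u7 := d4.2.2.1
  have u8 := d4.2.2.2.1
  have u9 := d5.2.2.1
  have u10 := d5.2.2.2.1
  have u11 := d6.2.2.1
  have u12 := d6.2.2.2.1
  refine run F (v := [(A.p : ℤ), A.w, A.h, A.md, mt, s, f1, A.fd, A.q]) ⟨_, rfl⟩
    (fd := [0, 0, 0, 0, 0, 0, 0, 0, 1]) (by simp only [dot]; ring) (cls := cH35) ?_ nd6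
    (N := nH35) ?_ (G := gH35) ?_ kH35
  · simp only [cH35, ClsOk, dot]
    refine ⟨?_, ?_, ?_, ?_, ?_, ?_, trivial⟩
    · convert d1 using 1 <;> ring1
    · convert d2 using 1 <;> first | ring1 | (rw [e1]; ring1)
    · convert d3 using 1 <;> first | ring1 | (rw [e2]; ring1)
    · convert d4 using 1 <;> first | ring1 | (rw [e3, e2]; ring1)
    · convert d5 using 1 <;> first | ring1 | (rw [e4]; ring1)
    · convert d6 using 1 <;> first | ring1 | (rw [e5, e4]; ring1)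
  · clear d1 d2 d3 d4 d5 d6 nd6
    simp only [nH35, AllNe, dot]
    exact ⟨fun h => y1 (by omega), fun h => y2 (by omega), fun h => y3 (by omega), fun h => y4 (by omega), fun h => y5 (by omega), fun h => y6 (by omega), fun h => y7 (by omega), fun h => y8 (by omega), fun h => y9 (by omega), fun h => y10 (by omega), fun h => y11 (by omega), fun h => x01 (by omega), fun h => x02 (by omega), fun h => x03 (by omega), fun h => x04 (by omega), fun h => x05 (by omega), fun h => x06 (by omega), fun h => x12 (by omega), fun h => x13 (by omega), fun h => x14 (by omega), fun h => x15 (by omega), fun h => x16 (by omega), fun h => x23 (by omega), fun h => x24 (by omega), fun h => x25 (by omega), fun h => x26 (by omega), fun h => x34 (by omega), fun h => x35 (by omega), fun h => x36 (by omega), fun h => x45 (by omega), fun h => x46 (by omega), fun h => x56 (by omega), trivial⟩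
  · clear d1 d2 d3 d4 d5 d6 nd6 y1 y2 y3 y4 y5 y6 y7 y8 y9 y10 y11 x01 x02 x03 x04 x05 x06 x12 x13 x14 x15 x16 x23 x24 x25 x26 x34 x35 x36 x45 x46 x56
    simp only [gH35, AllNn, dot]
    refine ⟨?_, ?_, ?_, ?_, ?_, ?_, ?_, ?_, ?_, ?_, ?_, ?_, ?_, ?_, ?_, ?_, ?_, ?_, ?_, ?_, ?_, ?_, ?_, ?_, ?_, ?_, ?_, ?_, ?_, ?_, trivial⟩ <;> omega

theorem caseH36 {A : Ap} (F : A.Fl) (hr1 : A.w = A.h) (hr2 : 3 * (A.w : ℤ) ≤ A.p)
    (hr3 : (A.p : ℤ) < 4 * A.w) (K : K3 A)
    (ht : K.t2 = 1) (hc : K.c2 = -1) (h1 : K.n1 = 0) (h2 : K.n2 = 0)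
    (ht3 : K.t3 = 1) (hc3 : K.c3 = 0) (h3 : K.n3 = 0) : False := by
  obtain ⟨j, mt, s, f1, f2, g1, g2, t2, c2, n1, n2, d1, d2, d3, d4, e1, e2, e3, r1, r2, r3, r4,
    s0, s1, y1, y2, y3, y4, y5, x01, x02, x03, x04, x12, x13, x14, x23, x24, x34,
    f3, g3, t3, c3, n3, d5, d6, e4, e5, r5, r6, y6, y7, y8, y9, y10, y11, nd6,
    x05, x06, x15, x16, x25, x26, x35, x36, x45, x46, x56⟩ := K
  simp only at ht hc h1 h2 ht3 hc3 h3
  subst ht hc h1 h2 ht3 hc3 h3
  have hr1' : (A.w : ℤ) = A.h := by exact_mod_cast hr1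
  have hw : (2 : ℤ) ≤ A.w := by exact_mod_cast A.hw
  have hwh : (A.w : ℤ) ≤ A.h := by exact_mod_cast A.hwh
  have hh2 : 2 * (A.h : ℤ) < A.p := by exact_mod_cast A.h2
  have hmd := A.hmd
  have hmd2 := A.hmd2
  have v1 := A.hfd
  have v2 := A.hfd2
  have u1 := d1.2.2.1
  have u2 := d1.2.2.2.1
  have u3 := d2.2.2.1
  have u4 := d2.2.2.2.1
  have u5 := d3.2.2.1
  have u6 := d3.2.2.2.1
  have u7 := d4.2.2.1
  have u8 := d4.2.2.2.1
  have u9 := d5.2.2.1
  have u10 := d5.2.2.2.1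
  have u11 := d6.2.2.1
  have u12 := d6.2.2.2.1
  refine run F (v := [(A.p : ℤ), A.w, A.h, A.md, mt, s, f1, A.fd, A.q]) ⟨_, rfl⟩
    (fd := [0, 0, 0, 0, 0, 0, 0, 0, 1]) (by simp only [dot]; ring) (cls := cH36) ?_ nd6
    (N := nH36) ?_ (G := gH36) ?_ kH36
  · simp only [cH36, ClsOk, dot]
    refine ⟨?_, ?_, ?_, ?_, ?_, ?_, trivial⟩
    · convert d1 using 1 <;> ring1
    · convert d2 using 1 <;> first | ring1 | (rw [e1]; ring1)
    · convert d3 using 1 <;> first | ring1 | (rw [e2]; ring1)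
    · convert d4 using 1 <;> first | ring1 | (rw [e3, e2]; ring1)
    · convert d5 using 1 <;> first | ring1 | (rw [e4]; ring1)
    · convert d6 using 1 <;> first | ring1 | (rw [e5, e4]; ring1)
  · clear d1 d2 d3 d4 d5 d6 nd6
    simp only [nH36, AllNe, dot]
    exact ⟨fun h => y1 (by omega), fun h => y2 (by omega), fun h => y3 (by omega), fun h => y4 (by omega), fun h => y5 (by omega), fun h => y6 (by omega), fun h => y7 (by omega), fun h => y8 (by omega), fun h => y9 (by omega), fun h => y10 (by omega), fun h => y11 (by omega), fun h => x01 (by omega), fun h => x02 (by omega), fun h => x03 (by omega), fun h => x04 (by omega), fun h => x05 (by omega), fun h => x06 (by omega), fun h => x12 (by omega), fun h => x13 (by omega), fun h => x14 (by omega), fun h => x15 (by omega), fun h => x16 (by omega), fun h => x23 (by omega), fun h => x24 (by omega), fun h => x25 (by omega), fun h => x26 (by omega), fun h => x34 (by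 omega), fun h => x35 (by omega), fun h => x36 (by omega), fun h => x45 (by omega), fun h => x46 (by omega), fun h => x56 (by omega), trivial⟩
  · clear d1 d2 d3 d4 d5 d6 nd6 y1 y2 y3 y4 y5 y6 y7 y8 y9 y10 y11 x01 x02 x03 x04 x05 x06 x12 x13 x14 x15 x16 x23 x24 x25 x26 x34 x35 x36 x45 x46 x56
    simp only [gH36, AllNn, dot]
    refine ⟨?_, ?_, ?_, ?_, ?_, ?_, ?_, ?_, ?_, ?_, ?_, ?_, ?_, ?_, ?_, ?_, ?_, ?_, ?_, ?_, ?_, ?_, ?_, ?_, ?_, ?_, ?_, ?_, ?_, ?_, trivial⟩ <;> omega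

end Pool.Agent.H81.AP
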