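import Pool.Agent.H81.AP.K0
import Pool.Agent.H81.AP.TZ0

/-! Cases (generated). -/

set_option linter.all false

namespace Pool.Agent.H81.AP

open Pool.Agent.H98.Flat (Ap InA)
open Pool.Agent.H98.Flat.Ap

theorem caseZ0 {A : Ap} (F : A.Fl) (hr : (A.p : ℤ) < 2 * A.w + A.h) (K : K0 A)
    (hc : K.c2 = 0) (h1 : K.n1 = -1) (h2 : K.n2 = -1) : False := by
  obtain ⟨s, f1, f2, g1, g2, c2, n1, n2, d1, d2, d3, d4, e1, e2, e3, r2, r4, r5,
    s0, s1, y1, y2, y3, y4, y5, nd, x01, x02, x03, x04, x12, x13, x14, x23, x24, x34⟩ := K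
  simp only at hc h1 h2
  subst hc h1 h2
  have hw : (2 : ℤ) ≤ A.w := by exact_mod_cast A.hw
  have hwh : (A.w : ℤ) ≤ A.h := by exact_mod_cast A.hwh
  have hh2 : 2 * (A.h : ℤ) < A.p := by exact_mod_cast A.h2
  have hmd := A.hmd
  have hmd2 := A.hmd2
  have v1 := A.hfd
  have v2 := A.hfd2
  have u1 := d1.2.2.1
  have u2 := d1.2.2.2.1
  have u3 := d2.2.2.1
  have u4 := d2.2.2.2.1
  have u5 := d3.2.2.1
  have u6 := d3.2.2.2.1
  have u7 := d4.2.2.1
  have u8 := d4.2.2.2.1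
  refine run F (v := [(A.p : ℤ), A.w, A.h, A.md, s, f1, A.fd, A.q]) ⟨_, rfl⟩
    (fd := [0, 0, 0, 0, 0, 0, 0, 1]) (by simp only [dot]; ring) (cls := cZ0) ?_ nd
    (N := nZ0) ?_ (G := gZ0) ?_ kZ0
  · simp only [cZ0, ClsOk, dot]
    refine ⟨?_, ?_, ?_, ?_, trivial⟩
    · convert d1 using 1 <;> ring1
    · convert d2 using 1 <;> first | ring1 | (rw [e1]; ring1)
    · convert d3 using 1 <;> first | ring1 | (rw [e2]; ring1)
    · convert d4 using 1 <;> first | ring1 | (rw [e3, e2]; ring1)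
  · clear d1 d2 d3 d4 nd
    simp only [nZ0, AllNe, dot]
    exact ⟨fun h => y1 (by omega), fun h => y2 (by omega), fun h => y3 (by omega), fun h => y4 (by omega), fun h => y5 (by omega), fun h => x01 (by omega), fun h => x02 (by omega), fun h => x03 (by omega), fun h => x04 (by omega), fun h => x12 (by omega), fun h => x13 (by omega), fun h => x14 (by omega), fun h => x23 (by omega), fun h => x24 (by omega), fun h => x34 (by omega), trivial⟩
  · clear d1 d2 d3 d4 nd y1 y2 y3 y4 y5 x01 x02 x03 x04 x12 x13 x14 x23 x24 x34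
    simp only [gZ0, AllNn, dot]
    refine ⟨?_, ?_, ?_, ?_, ?_, ?_, ?_, ?_, ?_, ?_, ?_, ?_, ?_, ?_, ?_, ?_, ?_, ?_, ?_, ?_, trivial⟩ <;> omega

theorem caseZ1 {A : Ap} (F : A.Fl) (hr : (A.p : ℤ) < 2 * A.w + A.h) (K : K0 A)
    (hc : K.c2 = 1) (h1 : K.n1 = -1) (h2 : K.n2 = -1) : False := by
  obtain ⟨s, f1, f2, g1, g2, c2, n1, n2, d1, d2, d3, d4, e1, e2, e3, r2, r4, r5,
    s0, s1, y1, y2, y3, y4, y5, nd, x01, x02, x03, x04, x12, x13, x14, x23, x24, x34⟩ := K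
  simp only at hc h1 h2
  subst hc h1 h2
  have hw : (2 : ℤ) ≤ A.w := by exact_mod_cast A.hw
  have hwh : (A.w : ℤ) ≤ A.h := by exact_mod_cast A.hwh
  have hh2 : 2 * (A.h : ℤ) < A.p := by exact_mod_cast A.h2
  have hmd := A.hmd
  have hmd2 := A.hmd2
  have v1 := A.hfd
  have v2 := A.hfd2
  have u1 := d1.2.2.1
  have u2 := d1.2.2.2.1
  have u3 := d2.2.2.1
  have u4 := d2.2.2.2.1
  have u5 := d3.2.2.1
  have u6 := d3.2.2.2.1
  have u7 := d4.2.2.1
  have u8 := d4.2.2.2.1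
  refine run F (v := [(A.p : ℤ), A.w, A.h, A.md, s, f1, A.fd, A.q]) ⟨_, rfl⟩
    (fd := [0, 0, 0, 0, 0, 0, 0, 1]) (by simp only [dot]; ring) (cls := cZ1) ?_ nd
    (N := nZ1) ?_ (G := gZ1) ?_ kZ1
  · simp only [cZ1, ClsOk, dot]
    refine ⟨?_, ?_, ?_, ?_, trivial⟩
    · convert d1 using 1 <;> ring1
    · convert d2 using 1 <;> first | ring1 | (rw [e1]; ring1)
    · convert d3 using 1 <;> first | ring1 | (rw [e2]; ring1)
    · convert d4 using 1 <;> first | ring1 | (rw [e3, e2]; ring1)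
  · clear d1 d2 d3 d4 nd
    simp only [nZ1, AllNe, dot]
    exact ⟨fun h => y1 (by omega), fun h => y2 (by omega), fun h => y3 (by omega), fun h => y4 (by omega), fun h => y5 (by omega), fun h => x01 (by omega), fun h => x02 (by omega), fun h => x03 (by omega), fun h => x04 (by omega), fun h => x12 (by omega), fun h => x13 (by omega), fun h => x14 (by omega), fun h => x23 (by omega), fun h => x24 (by omega), fun h => x34 (by omega), trivial⟩
  · clear d1 d2 d3 d4 nd y1 y2 y3 y4 y5 x01 x02 x03 x04 x12 x13 x14 x23 x24 x34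
    simp only [gZ1, AllNn, dot]
    refine ⟨?_, ?_, ?_, ?_, ?_, ?_, ?_, ?_, ?_, ?_, ?_, ?_, ?_, ?_, ?_, ?_, ?_, ?_, ?_, ?_, ?_, trivial⟩ <;> omega

theorem caseZ2 {A : Ap} (F : A.Fl) (hr : (A.p : ℤ) < 2 * A.w + A.h) (K : K0 A)
    (hc : K.c2 = 1) (h1 : K.n1 = -1) (h2 : K.n2 = 0) : False := by
  obtain ⟨s, f1, f2, g1, g2, c2, n1, n2, d1, d2, d3, d4, e1, e2, e3, r2, r4, r5,
    s0, s1, y1, y2, y3, y4, y5, nd, x01, x02, x03, x04, x12, x13, x14, x23, x24, x34⟩ := K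
  simp only at hc h1 h2
  subst hc h1 h2
  have hw : (2 : ℤ) ≤ A.w := by exact_mod_cast A.hw
  have hwh : (A.w : ℤ) ≤ A.h := by exact_mod_cast A.hwh
  have hh2 : 2 * (A.h : ℤ) < A.p := by exact_mod_cast A.h2
  have hmd := A.hmd
  have hmd2 := A.hmd2
  have v1 := A.hfd
  have v2 := A.hfd2
  have u1 := d1.2.2.1
  have u2 := d1.2.2.2.1
  have u3 := d2.2.2.1
  have u4 := d2.2.2.2.1
  have u5 := d3.2.2.1
  have u6 := d3.2.2.2.1
  have u7 := d4.2.2.1
  have u8 := d4.2.2.2.1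
  refine run F (v := [(A.p : ℤ), A.w, A.h, A.md, s, f1, A.fd, A.q]) ⟨_, rfl⟩
    (fd := [0, 0, 0, 0, 0, 0, 0, 1]) (by simp only [dot]; ring) (cls := cZ2) ?_ nd
    (N := nZ2) ?_ (G := gZ2) ?_ kZ2
  · simp only [cZ2, ClsOk, dot]
    refine ⟨?_, ?_, ?_, ?_, trivial⟩
    · convert d1 using 1 <;> ring1
    · convert d2 using 1 <;> first | ring1 | (rw [e1]; ring1)
    · convert d3 using 1 <;> first | ring1 | (rw [e2]; ring1)
    · convert d4 using 1 <;> first | ring1 | (rw [e3, e2]; ring1)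
  · clear d1 d2 d3 d4 nd
    simp only [nZ2, AllNe, dot]
    exact ⟨fun h => y1 (by omega), fun h => y2 (by omega), fun h => y3 (by omega), fun h => y4 (by omega), fun h => y5 (by omega), fun h => x01 (by omega), fun h => x02 (by omega), fun h => x03 (by omega), fun h => x04 (by omega), fun h => x12 (by omega), fun h => x13 (by omega), fun h => x14 (by omega), fun h => x23 (by omega), fun h => x24 (by omega), fun h => x34 (by omega), trivial⟩
  · clear d1 d2 d3 d4 nd y1 y2 y3 y4 y5 x01 x02 x03 x04 x12 x13 x14 x23 x24 x34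
    simp only [gZ2, AllNn, dot]
    refine ⟨?_, ?_, ?_, ?_, ?_, ?_, ?_, ?_, ?_, ?_, ?_, ?_, ?_, ?_, ?_, ?_, ?_, ?_, ?_, ?_, ?_, trivial⟩ <;> omega

theorem caseZ3 {A : Ap} (F : A.Fl) (hr : (A.p : ℤ) < 2 * A.w + A.h) (K : K0 A)
    (hc : K.c2 = 0) (h1 : K.n1 = 0) (h2 : K.n2 = -1) : False := by
  obtain ⟨s, f1, f2, g1, g2, c2, n1, n2, d1, d2, d3, d4, e1, e2, e3, r2, r4, r5,
    s0, s1, y1, y2, y3, y4, y5, nd, x01, x02, x03, x04, x12, x13, x14, x23, x24, x34⟩ := K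
  simp only at hc h1 h2
  subst hc h1 h2
  have hw : (2 : ℤ) ≤ A.w := by exact_mod_cast A.hw
  have hwh : (A.w : ℤ) ≤ A.h := by exact_mod_cast A.hwh
  have hh2 : 2 * (A.h : ℤ) < A.p := by exact_mod_cast A.h2
  have hmd := A.hmd
  have hmd2 := A.hmd2
  have v1 := A.hfd
  have v2 := A.hfd2
  have u1 := d1.2.2.1
  have u2 := d1.2.2.2.1
  have u3 := d2.2.2.1
  have u4 := d2.2.2.2.1
  have u5 := d3.2.2.1
  have u6 := d3.2.2.2.1
  have u7 := d4.2.2.1
  have u8 := d4.2.2.2.1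
  refine run F (v := [(A.p : ℤ), A.w, A.h, A.md, s, f1, A.fd, A.q]) ⟨_, rfl⟩
    (fd := [0, 0, 0, 0, 0, 0, 0, 1]) (by simp only [dot]; ring) (cls := cZ3) ?_ nd
    (N := nZ3) ?_ (G := gZ3) ?_ kZ3
  · simp only [cZ3, ClsOk, dot]
    refine ⟨?_, ?_, ?_, ?_, trivial⟩
    · convert d1 using 1 <;> ring1
    · convert d2 using 1 <;> first | ring1 | (rw [e1]; ring1)
    · convert d3 using 1 <;> first | ring1 | (rw [e2]; ring1)
    · convert d4 using 1 <;> first | ring1 | (rw [e3, e2]; ring1)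
  · clear d1 d2 d3 d4 nd
    simp only [nZ3, AllNe, dot]
    exact ⟨fun h => y1 (by omega), fun h => y2 (by omega), fun h => y3 (by omega), fun h => y4 (by omega), fun h => y5 (by omega), fun h => x01 (by omega), fun h => x02 (by omega), fun h => x03 (by omega), fun h => x04 (by omega), fun h => x12 (by omega), fun h => x13 (by omega), fun h => x14 (by omega), fun h => x23 (by omega), fun h => x24 (by omega), fun h => x34 (by omega), trivial⟩
  · clear d1 d2 d3 d4 nd y1 y2 y3 y4 y5 x01 x02 x03 x04 x12 x13 x14 x23 x24 x34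
    simp only [gZ3, AllNn, dot]
    refine ⟨?_, ?_, ?_, ?_, ?_, ?_, ?_, ?_, ?_, ?_, ?_, ?_, ?_, ?_, ?_, ?_, ?_, ?_, ?_, ?_, trivial⟩ <;> omega

theorem caseZ4 {A : Ap} (F : A.Fl) (hr : (A.p : ℤ) < 2 * A.w + A.h) (K : K0 A)
    (hc : K.c2 = 0) (h1 : K.n1 = 0) (h2 : K.n2 = 0) : False := by
  obtain ⟨s, f1, f2, g1, g2, c2, n1, n2, d1, d2, d3, d4, e1, e2, e3, r2, r4, r5,
    s0, s1, y1, y2, y3, y4, y5, nd, x01, x02, x03, x04, x12, x13, x14, x23, x24, x34⟩ := K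
  simp only at hc h1 h2
  subst hc h1 h2
  have hw : (2 : ℤ) ≤ A.w := by exact_mod_cast A.hw
  have hwh : (A.w : ℤ) ≤ A.h := by exact_mod_cast A.hwh
  have hh2 : 2 * (A.h : ℤ) < A.p := by exact_mod_cast A.h2
  have hmd := A.hmd
  have hmd2 := A.hmd2
  have v1 := A.hfd
  have v2 := A.hfd2
  have u1 := d1.2.2.1
  have u2 := d1.2.2.2.1
  have u3 := d2.2.2.1
  have u4 := d2.2.2.2.1
  have u5 := d3.2.2.1
  have u6 := d3.2.2.2.1
  have u7 := d4.2.2.1
  have u8 := d4.2.2.2.1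
  refine run F (v := [(A.p : ℤ), A.w, A.h, A.md, s, f1, A.fd, A.q]) ⟨_, rfl⟩
    (fd := [0, 0, 0, 0, 0, 0, 0, 1]) (by simp only [dot]; ring) (cls := cZ4) ?_ nd
    (N := nZ4) ?_ (G := gZ4) ?_ kZ4
  · simp only [cZ4, ClsOk, dot]
    refine ⟨?_, ?_, ?_, ?_, trivial⟩
    · convert d1 using 1 <;> ring1
    · convert d2 using 1 <;> first | ring1 | (rw [e1]; ring1)
    · convert d3 using 1 <;> first | ring1 | (rw [e2]; ring1)
    · convert d4 using 1 <;> first | ring1 | (rw [e3, e2]; ring1)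
  · clear d1 d2 d3 d4 nd
    simp only [nZ4, AllNe, dot]
    exact ⟨fun h => y1 (by omega), fun h => y2 (by omega), fun h => y3 (by omega), fun h => y4 (by omega), fun h => y5 (by omega), fun h => x01 (by omega), fun h => x02 (by omega), fun h => x03 (by omega), fun h => x04 (by omega), fun h => x12 (by omega), fun h => x13 (by omega), fun h => x14 (by omega), fun h => x23 (by omega), fun h => x24 (by omega), fun h => x34 (by omega), trivial⟩
  · clear d1 d2 d3 d4 nd y1 y2 y3 y4 y5 x01 x02 x03 x04 x12 x13 x14 x23 x24 x34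
    simp only [gZ4, AllNn, dot]
    refine ⟨?_, ?_, ?_, ?_, ?_, ?_, ?_, ?_, ?_, ?_, ?_, ?_, ?_, ?_, ?_, ?_, ?_, ?_, ?_, ?_, trivial⟩ <;> omega

theorem caseZ5 {A : Ap} (F : A.Fl) (hr : (A.p : ℤ) < 2 * A.w + A.h) (K : K0 A)
    (hc : K.c2 = 1) (h1 : K.n1 = 0) (h2 : K.n2 = 0) : False := by
  obtain ⟨s, f1, f2, g1, g2, c2, n1, n2, d1, d2, d3, d4, e1, e2, e3, r2, r4, r5,
    s0, s1, y1, y2, y3, y4, y5, nd, x01, x02, x03, x04, x12, x13, x14, x23, x24, x34⟩ := K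
  simp only at hc h1 h2
  subst hc h1 h2
  have hw : (2 : ℤ) ≤ A.w := by exact_mod_cast A.hw
  have hwh : (A.w : ℤ) ≤ A.h := by exact_mod_cast A.hwh
  have hh2 : 2 * (A.h : ℤ) < A.p := by exact_mod_cast A.h2
  have hmd := A.hmd
  have hmd2 := A.hmd2
  have v1 := A.hfd
  have v2 := A.hfd2
  have u1 := d1.2.2.1
  have u2 := d1.2.2.2.1
  have u3 := d2.2.2.1
  have u4 := d2.2.2.2.1
  have u5 := d3.2.2.1
  have u6 := d3.2.2.2.1
  have u7 := d4.2.2.1
  have u8 := d4.2.2.2.1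
  refine run F (v := [(A.p : ℤ), A.w, A.h, A.md, s, f1, A.fd, A.q]) ⟨_, rfl⟩
    (fd := [0, 0, 0, 0, 0, 0, 0, 1]) (by simp only [dot]; ring) (cls := cZ5) ?_ nd
    (N := nZ5) ?_ (G := gZ5) ?_ kZ5
  · simp only [cZ5, ClsOk, dot]
    refine ⟨?_, ?_, ?_, ?_, trivial⟩
    · convert d1 using 1 <;> ring1
    · convert d2 using 1 <;> first | ring1 | (rw [e1]; ring1)
    · convert d3 using 1 <;> first | ring1 | (rw [e2]; ring1)
    · convert d4 using 1 <;> first | ring1 | (rw [e3, e2]; ring1)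
  · clear d1 d2 d3 d4 nd
    simp only [nZ5, AllNe, dot]
    exact ⟨fun h => y1 (by omega), fun h => y2 (by omega), fun h => y3 (by omega), fun h => y4 (by omega), fun h => y5 (by omega), fun h => x01 (by omega), fun h => x02 (by omega), fun h => x03 (by omega), fun h => x04 (by omega), fun h => x12 (by omega), fun h => x13 (by omega), fun h => x14 (by omega), fun h => x23 (by omega), fun h => x24 (by omega), fun h => x34 (by omega), trivial⟩
  · clear d1 d2 d3 d4 nd y1 y2 y3 y4 y5 x01 x02 x03 x04 x12 x13 x14 x23 x24 x34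
    simp only [gZ5, AllNn, dot]
    refine ⟨?_, ?_, ?_, ?_, ?_, ?_, ?_, ?_, ?_, ?_, ?_, ?_, ?_, ?_, ?_, ?_, ?_, ?_, ?_, ?_, ?_, trivial⟩ <;> omega

theorem caseY0 {A : Ap} (F : A.Fl) (hr1 : A.w = A.h) (hr2 : 3 * (A.w : ℤ) ≤ A.p)
    (hr3 : (A.p : ℤ) < 4 * A.w) (K : K0 A)
    (hc : K.c2 = 0) (h1 : K.n1 = -1) (h2 : K.n2 = -1) : False := by
  obtain ⟨s, f1, f2, g1, g2, c2, n1, n2, d1, d2, d3, d4, e1, e2, e3, r2, r4, r5,
    s0, s1, y1, y2, y3, y4, y5, nd, x01, x02, x03, x04, x12, x13, x14, x23, x24, x34⟩ := K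
  simp only at hc h1 h2
  subst hc h1 h2
  have hr1' : (A.w : ℤ) = A.h := by exact_mod_cast hr1
  have hw : (2 : ℤ) ≤ A.w := by exact_mod_cast A.hw
  have hwh : (A.w : ℤ) ≤ A.h := by exact_mod_cast A.hwh
  have hh2 : 2 * (A.h : ℤ) < A.p := by exact_mod_cast A.h2
  have hmd := A.hmd
  have hmd2 := A.hmd2
  have v1 := A.hfd
  have v2 := A.hfd2
  have u1 := d1.2.2.1
  have u2 := d1.2.2.2.1
  have u3 := d2.2.2.1
  have u4 := d2.2.2.2.1
  have u5 := d3.2.2.1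
  have u6 := d3.2.2.2.1
  have u7 := d4.2.2.1
  have u8 := d4.2.2.2.1
  refine run F (v := [(A.p : ℤ), A.w, A.h, A.md, s, f1, A.fd, A.q]) ⟨_, rfl⟩
    (fd := [0, 0, 0, 0, 0, 0, 0, 1]) (by simp only [dot]; ring) (cls := cY0) ?_ nd
    (N := nY0) ?_ (G := gY0) ?_ kY0
  · simp only [cY0, ClsOk, dot]
    refine ⟨?_, ?_, ?_, ?_, trivial⟩
    · convert d1 using 1 <;> ring1
    · convert d2 using 1 <;> first | ring1 | (rw [e1]; ring1)
    · convert d3 using 1 <;> first | ring1 | (rw [e2]; ring1)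
    · convert d4 using 1 <;> first | ring1 | (rw [e3, e2]; ring1)
  · clear d1 d2 d3 d4 nd
    simp only [nY0, AllNe, dot]
    exact ⟨fun h => y1 (by omega), fun h => y2 (by omega), fun h => y3 (by omega), fun h => y4 (by omega), fun h => y5 (by omega), fun h => x01 (by omega), fun h => x02 (by omega), fun h => x03 (by omega), fun h => x04 (by omega), fun h => x12 (by omega), fun h => x13 (by omega), fun h => x14 (by omega), fun h => x23 (by omega), fun h => x24 (by omega), fun h => x34 (by omega), trivial⟩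
  · clear d1 d2 d3 d4 nd y1 y2 y3 y4 y5 x01 x02 x03 x04 x12 x13 x14 x23 x24 x34
    simp only [gY0, AllNn, dot]
    refine ⟨?_, ?_, ?_, ?_, ?_, ?_, ?_, ?_, ?_, ?_, ?_, ?_, ?_, ?_, ?_, ?_, ?_, ?_, ?_, ?_, ?_, ?_, trivial⟩ <;> omega

theorem caseY1 {A : Ap} (F : A.Fl) (hr1 : A.w = A.h) (hr2 : 3 * (A.w : ℤ) ≤ A.p)
    (hr3 : (A.p : ℤ) < 4 * A.w) (K : K0 A)
    (hc : K.c2 = 1) (h1 : K.n1 = -1) (h2 : K.n2 = -1) : False := by
  obtain ⟨s, f1, f2, g1, g2, c2, n1, n2, d1, d2, d3, d4, e1, e2, e3, r2, r4, r5,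
    s0, s1, y1, y2, y3, y4, y5, nd, x01, x02, x03, x04, x12, x13, x14, x23, x24, x34⟩ := K
  simp only at hc h1 h2
  subst hc h1 h2
  have hr1' : (A.w : ℤ) = A.h := by exact_mod_cast hr1
  have hw : (2 : ℤ) ≤ A.w := by exact_mod_cast A.hw
  have hwh : (A.w : ℤ) ≤ A.h := by exact_mod_cast A.hwh
  have hh2 : 2 * (A.h : ℤ) < A.p := by exact_mod_cast A.h2
  have hmd := A.hmd
  have hmd2 := A.hmd2
  have v1 := A.hfd
  have v2 := A.hfd2
  have u1 := d1.2.2.1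
  have u2 := d1.2.2.2.1
  have u3 := d2.2.2.1
  have u4 := d2.2.2.2.1
  have u5 := d3.2.2.1
  have u6 := d3.2.2.2.1
  have u7 := d4.2.2.1
  have u8 := d4.2.2.2.1
  refine run F (v := [(A.p : ℤ), A.w, A.h, A.md, s, f1, A.fd, A.q]) ⟨_, rfl⟩
    (fd := [0, 0, 0, 0, 0, 0, 0, 1]) (by simp only [dot]; ring) (cls := cY1) ?_ nd
    (N := nY1) ?_ (G := gY1) ?_ kY1
  · simp only [cY1, ClsOk, dot]
    refine ⟨?_, ?_, ?_, ?_, trivial⟩
    · convert d1 using 1 <;> ring1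
    · convert d2 using 1 <;> first | ring1 | (rw [e1]; ring1)
    · convert d3 using 1 <;> first | ring1 | (rw [e2]; ring1)
    · convert d4 using 1 <;> first | ring1 | (rw [e3, e2]; ring1)
  · clear d1 d2 d3 d4 nd
    simp only [nY1, AllNe, dot]
    exact ⟨fun h => y1 (by omega), fun h => y2 (by omega), fun h => y3 (by omega), fun h => y4 (by omega), fun h => y5 (by omega), fun h => x01 (by omega), fun h => x02 (by omega), fun h => x03 (by omega), fun h => x04 (by omega), fun h => x12 (by omega), fun h => x13 (by omega), fun h => x14 (by omega), fun h => x23 (by omega), fun h => x24 (by omega), fun h => x34 (by omega), trivial⟩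
  · clear d1 d2 d3 d4 nd y1 y2 y3 y4 y5 x01 x02 x03 x04 x12 x13 x14 x23 x24 x34
    simp only [gY1, AllNn, dot]
    refine ⟨?_, ?_, ?_, ?_, ?_, ?_, ?_, ?_, ?_, ?_, ?_, ?_, ?_, ?_, ?_, ?_, ?_, ?_, ?_, ?_, ?_, ?_, ?_, trivial⟩ <;> omega

theorem caseY2 {A : Ap} (F : A.Fl) (hr1 : A.w = A.h) (hr2 : 3 * (A.w : ℤ) ≤ A.p)
    (hr3 : (A.p : ℤ) < 4 * A.w) (K : K0 A)
    (hc : K.c2 = 1) (h1 : K.n1 = -1) (h2 : K.n2 = 0) : False := by
  obtain ⟨s, f1, f2, g1, g2, c2, n1, n2, d1, d2, d3, d4, e1, e2, e3, r2, r4, r5,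
    s0, s1, y1, y2, y3, y4, y5, nd, x01, x02, x03, x04, x12, x13, x14, x23, x24, x34⟩ := K
  simp only at hc h1 h2
  subst hc h1 h2
  have hr1' : (A.w : ℤ) = A.h := by exact_mod_cast hr1
  have hw : (2 : ℤ) ≤ A.w := by exact_mod_cast A.hw
  have hwh : (A.w : ℤ) ≤ A.h := by exact_mod_cast A.hwh
  have hh2 : 2 * (A.h : ℤ) < A.p := by exact_mod_cast A.h2
  have hmd := A.hmd
  have hmd2 := A.hmd2
  have v1 := A.hfd
  have v2 := A.hfd2
  have u1 := d1.2.2.1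
  have u2 := d1.2.2.2.1
  have u3 := d2.2.2.1
  have u4 := d2.2.2.2.1
  have u5 := d3.2.2.1
  have u6 := d3.2.2.2.1
  have u7 := d4.2.2.1
  have u8 := d4.2.2.2.1
  refine run F (v := [(A.p : ℤ), A.w, A.h, A.md, s, f1, A.fd, A.q]) ⟨_, rfl⟩
    (fd := [0, 0, 0, 0, 0, 0, 0, 1]) (by simp only [dot]; ring) (cls := cY2) ?_ nd
    (N := nY2) ?_ (G := gY2) ?_ kY2
  · simp only [cY2, ClsOk, dot]
    refine ⟨?_, ?_, ?_, ?_, trivial⟩
    · convert d1 using 1 <;> ring1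
    · convert d2 using 1 <;> first | ring1 | (rw [e1]; ring1)
    · convert d3 using 1 <;> first | ring1 | (rw [e2]; ring1)
    · convert d4 using 1 <;> first | ring1 | (rw [e3, e2]; ring1)
  · clear d1 d2 d3 d4 nd
    simp only [nY2, AllNe, dot]
    exact ⟨fun h => y1 (by omega), fun h => y2 (by omega), fun h => y3 (by omega), fun h => y4 (by omega), fun h => y5 (by omega), fun h => x01 (by omega), fun h => x02 (by omega), fun h => x03 (by omega), fun h => x04 (by omega), fun h => x12 (by omega), fun h => x13 (by omega), fun h => x14 (by omega), fun h => x23 (by omega), fun h => x24 (by omega), fun h => x34 (by omega), trivial⟩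
  · clear d1 d2 d3 d4 nd y1 y2 y3 y4 y5 x01 x02 x03 x04 x12 x13 x14 x23 x24 x34
    simp only [gY2, AllNn, dot]
    refine ⟨?_, ?_, ?_, ?_, ?_, ?_, ?_, ?_, ?_, ?_, ?_, ?_, ?_, ?_, ?_, ?_, ?_, ?_, ?_, ?_, ?_, ?_, ?_, trivial⟩ <;> omega

theorem caseY3 {A : Ap} (F : A.Fl) (hr1 : A.w = A.h) (hr2 : 3 * (A.w : ℤ) ≤ A.p)
    (hr3 : (A.p : ℤ) < 4 * A.w) (K : K0 A)
    (hc : K.c2 = 0) (h1 : K.n1 = 0) (h2 : K.n2 = -1) : False := by
  obtain ⟨s, f1, f2, g1, g2, c2, n1, n2, d1, d2, d3, d4, e1, e2, e3, r2, r4, r5,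
    s0, s1, y1, y2, y3, y4, y5, nd, x01, x02, x03, x04, x12, x13, x14, x23, x24, x34⟩ := K
  simp only at hc h1 h2
  subst hc h1 h2
  have hr1' : (A.w : ℤ) = A.h := by exact_mod_cast hr1
  have hw : (2 : ℤ) ≤ A.w := by exact_mod_cast A.hw
  have hwh : (A.w : ℤ) ≤ A.h := by exact_mod_cast A.hwh
  have hh2 : 2 * (A.h : ℤ) < A.p := by exact_mod_cast A.h2
  have hmd := A.hmd
  have hmd2 := A.hmd2
  have v1 := A.hfd
  have v2 := A.hfd2
  have u1 := d1.2.2.1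
  have u2 := d1.2.2.2.1
  have u3 := d2.2.2.1
  have u4 := d2.2.2.2.1
  have u5 := d3.2.2.1
  have u6 := d3.2.2.2.1
  have u7 := d4.2.2.1
  have u8 := d4.2.2.2.1
  refine run F (v := [(A.p : ℤ), A.w, A.h, A.md, s, f1, A.fd, A.q]) ⟨_, rfl⟩
    (fd := [0, 0, 0, 0, 0, 0, 0, 1]) (by simp only [dot]; ring) (cls := cY3) ?_ nd
    (N := nY3) ?_ (G := gY3) ?_ kY3
  · simp only [cY3, ClsOk, dot]
    refine ⟨?_, ?_, ?_, ?_, trivial⟩
    · convert d1 using 1 <;> ring1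
    · convert d2 using 1 <;> first | ring1 | (rw [e1]; ring1)
    · convert d3 using 1 <;> first | ring1 | (rw [e2]; ring1)
    · convert d4 using 1 <;> first | ring1 | (rw [e3, e2]; ring1)
  · clear d1 d2 d3 d4 nd
    simp only [nY3, AllNe, dot]
    exact ⟨fun h => y1 (by omega), fun h => y2 (by omega), fun h => y3 (by omega), fun h => y4 (by omega), fun h => y5 (by omega), fun h => x01 (by omega), fun h => x02 (by omega), fun h => x03 (by omega), fun h => x04 (by omega), fun h => x12 (by omega), fun h => x13 (by omega), fun h => x14 (by omega), fun h => x23 (by omega), fun h => x24 (by omega), fun h => x34 (by omega), trivial⟩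
  · clear d1 d2 d3 d4 nd y1 y2 y3 y4 y5 x01 x02 x03 x04 x12 x13 x14 x23 x24 x34
    simp only [gY3, AllNn, dot]
    refine ⟨?_, ?_, ?_, ?_, ?_, ?_, ?_, ?_, ?_, ?_, ?_, ?_, ?_, ?_, ?_, ?_, ?_, ?_, ?_, ?_, ?_, ?_, trivial⟩ <;> omega

theorem caseY4 {A : Ap} (F : A.Fl) (hr1 : A.w = A.h) (hr2 : 3 * (A.w : ℤ) ≤ A.p)
    (hr3 : (A.p : ℤ) < 4 * A.w) (K : K0 A)
    (hc : K.c2 = 0) (h1 : K.n1 = 0) (h2 : K.n2 = 0) : False := by
  obtain ⟨s, f1, f2, g1, g2, c2, n1, n2, d1, d2, d3, d4, e1, e2, e3, r2, r4, r5,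
    s0, s1, y1, y2, y3, y4, y5, nd, x01, x02, x03, x04, x12, x13, x14, x23, x24, x34⟩ := K
  simp only at hc h1 h2
  subst hc h1 h2
  have hr1' : (A.w : ℤ) = A.h := by exact_mod_cast hr1
  have hw : (2 : ℤ) ≤ A.w := by exact_mod_cast A.hw
  have hwh : (A.w : ℤ) ≤ A.h := by exact_mod_cast A.hwh
  have hh2 : 2 * (A.h : ℤ) < A.p := by exact_mod_cast A.h2
  have hmd := A.hmd
  have hmd2 := A.hmd2
  have v1 := A.hfd
  have v2 := A.hfd2
  have u1 := d1.2.2.1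
  have u2 := d1.2.2.2.1
  have u3 := d2.2.2.1
  have u4 := d2.2.2.2.1
  have u5 := d3.2.2.1
  have u6 := d3.2.2.2.1
  have u7 := d4.2.2.1
  have u8 := d4.2.2.2.1
  refine run F (v := [(A.p : ℤ), A.w, A.h, A.md, s, f1, A.fd, A.q]) ⟨_, rfl⟩
    (fd := [0, 0, 0, 0, 0, 0, 0, 1]) (by simp only [dot]; ring) (cls := cY4) ?_ nd
    (N := nY4) ?_ (G := gY4) ?_ kY4
  · simp only [cY4, ClsOk, dot]
    refine ⟨?_, ?_, ?_, ?_, trivial⟩
    · convert d1 using 1 <;> ring1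
    · convert d2 using 1 <;> first | ring1 | (rw [e1]; ring1)
    · convert d3 using 1 <;> first | ring1 | (rw [e2]; ring1)
    · convert d4 using 1 <;> first | ring1 | (rw [e3, e2]; ring1)
  · clear d1 d2 d3 d4 nd
    simp only [nY4, AllNe, dot]
    exact ⟨fun h => y1 (by omega), fun h => y2 (by omega), fun h => y3 (by omega), fun h => y4 (by omega), fun h => y5 (by omega), fun h => x01 (by omega), fun h => x02 (by omega), fun h => x03 (by omega), fun h => x04 (by omega), fun h => x12 (by omega), fun h => x13 (by omega), fun h => x14 (by omega), fun h => x23 (by omega), fun h => x24 (by omega), fun h => x34 (by omega), trivial⟩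
  · clear d1 d2 d3 d4 nd y1 y2 y3 y4 y5 x01 x02 x03 x04 x12 x13 x14 x23 x24 x34
    simp only [gY4, AllNn, dot]
    refine ⟨?_, ?_, ?_, ?_, ?_, ?_, ?_, ?_, ?_, ?_, ?_, ?_, ?_, ?_, ?_, ?_, ?_, ?_, ?_, ?_, ?_, ?_, trivial⟩ <;> omega

theorem caseY5 {A : Ap} (F : A.Fl) (hr1 : A.w = A.h) (hr2 : 3 * (A.w : ℤ) ≤ A.p)
    (hr3 : (A.p : ℤ) < 4 * A.w) (K : K0 A)
    (hc : K.c2 = 1) (h1 : K.n1 = 0) (h2 : K.n2 = 0) : False := by
  obtain ⟨s, f1, f2, g1, g2, c2, n1, n2, d1, d2, d3, d4, e1, e2, e3, r2, r4, r5,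
    s0, s1, y1, y2, y3, y4, y5, nd, x01, x02, x03, x04, x12, x13, x14, x23, x24, x34⟩ := K
  simp only at hc h1 h2
  subst hc h1 h2
  have hr1' : (A.w : ℤ) = A.h := by exact_mod_cast hr1
  have hw : (2 : ℤ) ≤ A.w := by exact_mod_cast A.hw
  have hwh : (A.w : ℤ) ≤ A.h := by exact_mod_cast A.hwh
  have hh2 : 2 * (A.h : ℤ) < A.p := by exact_mod_cast A.h2
  have hmd := A.hmd
  have hmd2 := A.hmd2
  have v1 := A.hfd
  have v2 := A.hfd2
  have u1 := d1.2.2.1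
  have u2 := d1.2.2.2.1
  have u3 := d2.2.2.1
  have u4 := d2.2.2.2.1
  have u5 := d3.2.2.1
  have u6 := d3.2.2.2.1
  have u7 := d4.2.2.1
  have u8 := d4.2.2.2.1
  refine run F (v := [(A.p : ℤ), A.w, A.h, A.md, s, f1, A.fd, A.q]) ⟨_, rfl⟩
    (fd := [0, 0, 0, 0, 0, 0, 0, 1]) (by simp only [dot]; ring) (cls := cY5) ?_ nd
    (N := nY5) ?_ (G := gY5) ?_ kY5
  · simp only [cY5, ClsOk, dot]
    refine ⟨?_, ?_, ?_, ?_, trivial⟩
    · convert d1 using 1 <;> ring1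
    · convert d2 using 1 <;> first | ring1 | (rw [e1]; ring1)
    · convert d3 using 1 <;> first | ring1 | (rw [e2]; ring1)
    · convert d4 using 1 <;> first | ring1 | (rw [e3, e2]; ring1)
  · clear d1 d2 d3 d4 nd
    simp only [nY5, AllNe, dot]
    exact ⟨fun h => y1 (by omega), fun h => y2 (by omega), fun h => y3 (by omega), fun h => y4 (by omega), fun h => y5 (by omega), fun h => x01 (by omega), fun h => x02 (by omega), fun h => x03 (by omega), fun h => x04 (by omega), fun h => x12 (by omega), fun h => x13 (by omega), fun h => x14 (by omega), fun h => x23 (by omega), fun h => x24 (by omega), fun h => x34 (by omega), trivial⟩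
  · clear d1 d2 d3 d4 nd y1 y2 y3 y4 y5 x01 x02 x03 x04 x12 x13 x14 x23 x24 x34
    simp only [gY5, AllNn, dot]
    refine ⟨?_, ?_, ?_, ?_, ?_, ?_, ?_, ?_, ?_, ?_, ?_, ?_, ?_, ?_, ?_, ?_, ?_, ?_, ?_, ?_, ?_, ?_, ?_, trivial⟩ <;> omega

end Pool.Agent.H81.AP
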