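import Pool.Agent.H98.Flat.O.E0

/-!
# A checker for decision trees over linear integer forms

A linear form `c₀ + c₁ x₁ + … ` is packed into the integer `∑ cᵢ Bᵢ` with `B = 2 ^ 24`; all the
coefficients that occur are small, so that identities between packed forms are identities between
forms.  A tree branches on the sign of a form, on a form which is known to be nonzero, or ends in
a Farkas certificate or in one instance of rule (E0) with an explicit level.
-/

namespace Pool.Agent.H81.AP

/-- linear forms, constant term first -/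
abbrev LF := List Int

/-- value of a form -/
def dot : LF → List Int → Int
  | a :: as, b :: bs => a * b + dot as bs
  | _, _ => 0

def add : LF → LF → LF
  | a :: as, b :: bs => (a + b) :: add as bs
  | [], y => y
  | x, [] => x

def smul (c : Int) : LF → LF
  | [] => []
  | a :: as => (c * a) :: smul c as

theorem dot_nil (v : List Int) : dot [] v = 0 := by
  cases v <;> rfl

theorem dot_nil' (v : LF) : dot v [] = 0 := by
  cases v <;> rfl

theorem dot_cons (a : Int) (as : LF) (b : Int) (bs : List Int) :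
    dot (a :: as) (b :: bs) = a * b + dot as bs := rfl

theorem dot_add : ∀ (x y v : LF), dot (add x y) v = dot x v + dot y v
  | [], y, v => by rw [add, dot_nil, zero_add]
  | a :: as, [], v => by rw [add, dot_nil, add_zero]; simp
  | a :: as, b :: bs, [] => by simp [dot_nil']
  | a :: as, b :: bs, c :: cs => by
    rw [add, dot_cons, dot_cons, dot_cons, dot_add as bs cs]; ring

theorem dot_smul (c : Int) : ∀ (x v : LF), dot (smul c x) v = c * dot x v
  | [], v => by rw [smul, dot_nil, mul_zero]
  | a :: as, [] => by simp [dot_nil']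
  | a :: as, b :: bs => by
    rw [smul, dot_cons, dot_cons, dot_smul c as bs]; ring

/-- packed form -/
def pack : LF → Int
  | [] => 0
  | a :: as => a + 16777216 * pack as

theorem pack_add : ∀ (x y : LF), pack (add x y) = pack x + pack y
  | [], y => by rw [add, pack, zero_add]
  | a :: as, [] => by rw [add, pack, pack, add_zero]; simp
  | a :: as, b :: bs => by
    rw [add, pack, pack, pack, pack_add as bs]; ring

theorem pack_smul (c : Int) : ∀ (x : LF), pack (smul c x) = c * pack x
  | [] => by rw [smul, pack, mul_zero]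
  | a :: as => by rw [smul, pack, pack, pack_smul c as]; ring

/-- bounded coefficients -/
def Bd (M : Int) (l : LF) : Prop := ∀ a ∈ l, -M ≤ a ∧ a ≤ M

theorem Bd.add {M N : Int} (hM : 0 ≤ M) (hN : 0 ≤ N) : ∀ {x y : LF}, Bd M x → Bd N y →
    Bd (M + N) (add x y)
  | [], y, _, hy => by
    rw [AP.add]; intro a ha; have := hy a ha; constructor <;> omega
  | a :: as, [], hx, _ => by
    rw [AP.add]
    · intro b hb; have := hx b hb; constructor <;> omega
    · simp
  | a :: as, b :: bs, hx, hy => by
    rw [AP.add]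
    intro c hc
    rcases List.mem_cons.1 hc with rfl | hc
    · have h1 := hx a List.mem_cons_self
      have h2 := hy b List.mem_cons_self
      constructor <;> omega
    · exact Bd.add hM hN (fun c hc => hx c (List.mem_cons_of_mem _ hc))
        (fun c hc => hy c (List.mem_cons_of_mem _ hc)) c hc

theorem Bd.smul {M c : Int} {C : Int} (hc : -C ≤ c ∧ c ≤ C) (hM : 0 ≤ M) :
    ∀ {x : LF}, Bd M x → Bd (C * M) (smul c x)
  | [], _ => by intro a ha; simp [AP.smul] at ha
  | a :: as, hx => by
    rw [AP.smul]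
    intro b hb
    rcases List.mem_cons.1 hb with rfl | hb
    · have h1 := hx a List.mem_cons_self
      constructor <;> nlinarith
    · exact Bd.smul hc hM (fun c hc => hx c (List.mem_cons_of_mem _ hc)) b hb

theorem Bd.mono {M N : Int} (h : M ≤ N) {x : LF} (hx : Bd M x) : Bd N x := by
  intro a ha; have := hx a ha; constructor <;> omega

/-- digits are unique -/
theorem dot_eq_zero : ∀ (x v : LF), Bd 16777215 x → pack x = 0 → dot x v = 0
  | [], v, _, _ => dot_nil v
  | a :: as, [], _, _ => dot_nil' _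
  | a :: as, b :: bs, h, h0 => by
    rw [pack] at h0
    have h1 := h a List.mem_cons_self
    have ha : a = 0 := by omega
    have hp : pack as = 0 := by omega
    rw [dot_cons, ha, dot_eq_zero as bs (fun c hc => h c (List.mem_cons_of_mem _ hc)) hp]; ring

/-- the packed form `F` has value `X`, with coefficients bounded by `M` -/
def Rep (v : List Int) (M F X : Int) : Prop :=
  0 ≤ M ∧ ∃ l : LF, pack l = F ∧ Bd M l ∧ dot l (1 :: v) = X

theorem Rep.add {v : List Int} {M F X M' F' X' : Int} (h : Rep v M F X) (h' : Rep v M' F' X') :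
    Rep v (M + M') (F + F') (X + X') := by
  obtain ⟨h0, l, h1, h2, h3⟩ := h
  obtain ⟨h0', l', h1', h2', h3'⟩ := h'
  exact ⟨by omega, AP.add l l', by rw [pack_add, h1, h1'], h2.add h0 h0' h2',
    by rw [dot_add, h3, h3']⟩

theorem Rep.smul {v : List Int} {M F X : Int} (h : Rep v M F X) {c C : Int}
    (hc : -C ≤ c ∧ c ≤ C) : Rep v (C * M) (c * F) (c * X) := by
  obtain ⟨h0, l, h1, h2, h3⟩ := h
  have hC : 0 ≤ C := by omega
  exact ⟨by positivity, AP.smul c l, by rw [pack_smul, h1], h2.smul hc h0,
    by rw [dot_smul, h3]⟩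

theorem Rep.neg {v : List Int} {M F X : Int} (h : Rep v M F X) : Rep v M (-F) (-X) := by
  have := h.smul (c := -1) (C := 1) (by omega)
  rwa [one_mul, neg_one_mul, neg_one_mul] at this

theorem Rep.sub {v : List Int} {M F X M' F' X' : Int} (h : Rep v M F X) (h' : Rep v M' F' X') :
    Rep v (M + M') (F - F') (X - X') := by
  rw [sub_eq_add_neg, sub_eq_add_neg]; exact h.add h'.neg

theorem Rep.cst {v : List Int} {c C : Int} (hc : -C ≤ c ∧ c ≤ C) : Rep v C c c := by
  refine ⟨by omega, [c], ?_, ?_, ?_⟩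
  · rw [pack, pack]; ring
  · intro a ha; rw [List.mem_singleton] at ha; rw [ha]; exact hc
  · rw [dot_cons, dot_nil]; ring

theorem Rep.mono {v : List Int} {M N F X : Int} (h : Rep v M F X) (hMN : M ≤ N) :
    Rep v N F X := by
  obtain ⟨h0, l, h1, h2, h3⟩ := h
  exact ⟨by omega, l, h1, h2.mono hMN, h3⟩

theorem Rep.zero {v : List Int} {M F X : Int} (h : Rep v M F X) (hM : M ≤ 16777215)
    (hF : F = 0) : X = 0 := by
  obtain ⟨h0, l, h1, h2, h3⟩ := h
  rw [← h3]; exact dot_eq_zero _ _ (h2.mono hM) (h1.trans hF)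

/-! ### the functions evaluated by the kernel -/

noncomputable def nn (a : Int) : Bool :=
  @Int.rec (fun _ => Bool) (fun _ => true) (fun _ => false) a

theorem nn_le {a : Int} (h : nn a = true) : 0 ≤ a := by
  cases a with
  | ofNat n => exact Int.natCast_nonneg _
  | negSucc n => exact Bool.noConfusion (show false = true from h)

noncomputable def dropK (n : Nat) : List Int → List Int :=
  @Nat.rec (fun _ => List Int → List Int) (fun l => l)
    (fun _ ih l => ih (@List.rec Int (fun _ => List Int) [] (fun _ t _ => t) l)) n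

theorem mem_dropK {a : Int} : ∀ (n : Nat) (l : List Int), a ∈ dropK n l → a ∈ l
  | 0, _, h => h
  | n + 1, [], h => mem_dropK n [] h
  | n + 1, _ :: t, h => List.mem_cons_of_mem _ (mem_dropK n t h)

/-- combination of the context with the coefficients encoded in `n` -/
noncomputable def comb (k : Nat) : List Int → Nat → Int :=
  @Nat.rec (fun _ => List Int → Nat → Int) (fun _ _ => 0)
    (fun _ ih G n => @Bool.rec (fun _ => Int)
      (@List.rec Int (fun _ => Int) 0
        (fun g G' _ => Int.add (Int.mul (Int.ofNat (Nat.land n 63)) g)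
          (ih G' (Nat.shiftRight n 12)))
        (dropK (Nat.land (Nat.shiftRight n 6) 63) G)) 0 (Nat.beq n 0)) k

theorem comb_succ (k : Nat) (G : List Int) (n : Nat) : comb (k + 1) G n =
    @Bool.rec (fun _ => Int)
      (@List.rec Int (fun _ => Int) 0
        (fun g G' _ => Int.add (Int.mul (Int.ofNat (Nat.land n 63)) g)
          (comb k G' (Nat.shiftRight n 12)))
        (dropK (Nat.land (Nat.shiftRight n 6) 63) G)) 0 (Nat.beq n 0) := rfl

/-- all forms of the context are nonnegative -/
def Nn (v : List Int) (G : List Int) : Prop := ∀ g ∈ G, ∃ X, 0 ≤ X ∧ Rep v 64 g X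

theorem land63 (n : Nat) : (0 : Int) ≤ Int.ofNat (Nat.land n 63) ∧
    Int.ofNat (Nat.land n 63) ≤ 63 := by
  have h : Nat.land n 63 ≤ 63 := Nat.and_le_right
  exact ⟨Int.natCast_nonneg _, Int.ofNat_le.2 h⟩

theorem comb_nn (v : List Int) : ∀ (k : Nat) (G : List Int) (n : Nat), Nn v G →
    ∃ S, 0 ≤ S ∧ Rep v (k * 4032) (comb k G n) S
  | 0, G, n, _ => ⟨0, le_refl _, by
      have := Rep.cst (v := v) (c := 0) (C := 0) (by omega)
      rw [Nat.cast_zero, zero_mul]
      exact this⟩
  | k + 1, G, n, h => by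
    rw [comb_succ]
    have z : ∃ S, 0 ≤ S ∧ Rep v (((k + 1 : Nat) : Int) * 4032) 0 S :=
      ⟨0, le_refl _, (Rep.cst (v := v) (c := 0) (C := 0) (by omega)).mono (by positivity)⟩
    cases hn : Nat.beq n 0
    · rcases hG : dropK (Nat.land (Nat.shiftRight n 6) 63) G with _ | ⟨g, G'⟩
      · exact z
      · change ∃ S, 0 ≤ S ∧ Rep v _ (Int.ofNat (Nat.land n 63) * g +
          comb k G' (Nat.shiftRight n 12)) S
        have hg : g ∈ G := mem_dropK _ _ (hG ▸ List.mem_cons_self)
        have hG' : Nn v G' := by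
          intro g' hg'
          exact h g' (mem_dropK _ _ (hG ▸ List.mem_cons_of_mem _ hg'))
        obtain ⟨X, X0, hX⟩ := h g hg
        obtain ⟨S, S0, hS⟩ := comb_nn v k G' (Nat.shiftRight n 12) hG'
        have h3 := land63 n
        generalize Int.ofNat (Nat.land n 63) = c at *
        refine ⟨c * X + S, by have := h3.1; positivity, ?_⟩
        refine ((hX.smul (c := c) (C := 63) (by omega)).add hS).mono ?_
        push_cast; omega
    · exact z

/-- `imp G n f`: the certificate `n` shows that `f ≥ 0` follows from the context -/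
noncomputable def imp (G : List Int) (n : Nat) (f : Int) : Bool :=
  (fun K => and (nn (Int.add (Int.add K (Int.ofNat (Nat.land n 63))) (-1)))
    (nn (Int.add 65536 (Int.neg K))))
  (Int.add (Int.mul (Int.ofNat (Nat.land n 63)) f) (Int.neg (comb 16 G (Nat.shiftRight n 6))))

theorem imp_sound {v : List Int} {G : List Int} {n : Nat} {f X : Int} (hG : Nn v G)
    (hf : Rep v 4096 f X) (h : imp G n f = true) : 0 ≤ X := by
  unfold imp at h
  obtain ⟨S, S0, hS⟩ := comb_nn v 16 G (Nat.shiftRight n 6) hG
  have h3 := land63 n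
  generalize comb 16 G (Nat.shiftRight n 6) = s at *
  generalize Int.ofNat (Nat.land n 63) = D at *
  simp only [Bool.and_eq_true] at h
  have h1 : 0 ≤ D * f + -s + D + (-1) := nn_le h.1
  have h2 : 0 ≤ 65536 + -(D * f + -s) := nn_le h.2
  have hR := ((hf.smul (c := D) (C := 63) (by omega)).sub hS).sub
    (Rep.cst (v := v) (c := D * f - s) (C := 65536) (by omega))
  have := hR.zero (by norm_num) (by ring)
  by_contra hX
  have : X + 1 ≤ 0 := by omega
  have : D * X + D ≤ 0 := by nlinarith
  omega

def fp : Int := 16777216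
def fw : Int := 281474976710656
def fh : Int := 4722366482869645213696
def fD : Int := 79228162514264337593543950336

/-- multiple `z - 8` of the first variable -/
noncomputable def zp (z : Nat) : Int := Int.mul (Int.subNatNat (Nat.land z 63) 8) 16777216

/-- check that `x` lies in the arc `(lo, lo + len]` (`b = true`) or not (`b = false`) -/
noncomputable def mem (G : List Int) (x lo len : Int) (b : Bool) (z c1 c2 : Nat) : Bool :=
  (fun t => @Bool.rec (fun _ => Bool)
    (and (imp G c1 (Int.sub t len)) (imp G c2 (Int.sub (Int.sub fp t) 1)))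
    (and (imp G c1 t) (imp G c2 (Int.sub (Int.sub len t) 1))) b)
  (Int.sub (Int.sub (Int.sub x lo) 1) (zp z))

/-- check that the position `(m, f)` lies in `(0, d)` (`b = true`) or not -/
noncomputable def inl (G : List Int) (fd m f : Int) (b : Bool) (z c1 c2 c3 : Nat) : Bool :=
  (fun t => @Bool.rec (fun _ => Bool)
    (and (imp G c1 (Int.sub (Int.sub fp t) 1))
      (@Bool.rec (fun _ => Bool)
        (and (imp G c2 (Int.sub t fD)) (imp G c3 (Int.sub f fd)))
        (imp G c2 (Int.sub (Int.sub t fD) 1)) (Nat.beq c3 0)))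
    (and (imp G c1 t)
      (@Bool.rec (fun _ => Bool)
        (and (imp G c2 (Int.sub fD t)) (imp G c3 (Int.sub (Int.sub fd f) 1)))
        (imp G c2 (Int.sub (Int.sub fD t) 1)) (Nat.beq c3 0))) b)
  (Int.sub m (zp z))

open Pool.Agent.H98.Flat (Ap InA)

/-- the environment starts with `p, w, h, md` -/
def EnvOk (A : Ap) (v : List Int) : Prop :=
  ∃ r, v = (A.p : Int) :: (A.w : Int) :: (A.h : Int) :: A.md :: r

section
variable {A : Ap} {v : List Int}

theorem bd_unit {l : LF} (h : ∀ a ∈ l, a = 0 ∨ a = 1) : Bd 1 l := by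
  intro a ha; rcases h a ha with rfl | rfl <;> omega

theorem EnvOk.p (h : EnvOk A v) : Rep v 1 fp A.p := by
  obtain ⟨r, rfl⟩ := h
  refine ⟨by norm_num, [0, 1], by simp [pack, fp], bd_unit (by simp), ?_⟩
  simp only [dot_cons, dot_nil]; ring
theorem EnvOk.w (h : EnvOk A v) : Rep v 1 fw A.w := by
  obtain ⟨r, rfl⟩ := h
  refine ⟨by norm_num, [0, 0, 1], by simp [pack, fw], bd_unit (by simp), ?_⟩
  simp only [dot_cons, dot_nil]; ring
theorem EnvOk.h (h : EnvOk A v) : Rep v 1 fh A.h := by
  obtain ⟨r, rfl⟩ := h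
  refine ⟨by norm_num, [0, 0, 0, 1], by simp [pack, fh], bd_unit (by simp), ?_⟩
  simp only [dot_cons, dot_nil]; ring
theorem EnvOk.D (h : EnvOk A v) : Rep v 1 fD A.md := by
  obtain ⟨r, rfl⟩ := h
  refine ⟨by norm_num, [0, 0, 0, 0, 1], by simp [pack, fD], bd_unit (by simp), ?_⟩
  simp only [dot_cons, dot_nil]; ring
theorem EnvOk.z (h : EnvOk A v) (z : Nat) : ∃ zz : Int, Rep v 64 (zp z) (zz * A.p) := by
  have h1 := h.p.smul (c := Int.subNatNat (Nat.land z 63) 8) (C := 64) (by
    have h3 := land63 z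
    rw [Int.subNatNat_eq_coe]
    have e : Int.ofNat (Nat.land z 63) = ((Nat.land z 63 : Nat) : Int) := rfl
    rw [e] at h3
    constructor <;> push_cast <;> omega)
  exact ⟨_, h1⟩

theorem Rep.one {v : List Int} : Rep v 1 1 1 := Rep.cst (by omega)

theorem emod_le_self' {a p : Int} (h : 0 ≤ a) (hp : 0 < p) : a % p ≤ a := by
  have e := Int.emod_add_mul_ediv a p
  have : 0 ≤ a / p := Int.ediv_nonneg h hp.le
  nlinarith

theorem mem_sound {G : List Int} (hG : Nn v G)
    (hv : EnvOk A v) {x lo len X Lo Q : Int} {b : Bool} {z c1 c2 : Nat}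
    (hx : Rep v 512 x X) (hlo : Rep v 128 lo Lo) (hlen : Rep v 1 len Q)
    (hl : 0 ≤ Q) (h : mem G x lo len b z c1 c2 = true) :
    InA A.p X Lo Q ↔ b = true := by
  obtain ⟨zz, hz⟩ := hv.z z
  have hp := hv.p
  have hp0 : (0 : Int) < A.p := A.p_pos'
  have ht := ((hx.sub hlo).sub Rep.one).sub hz
  unfold mem at h
  unfold InA
  cases b
  · change and (imp G c1 ((x - lo - 1 - zp z) - len))
      (imp G c2 ((fp - (x - lo - 1 - zp z)) - 1)) = true at h
    simp only [Bool.and_eq_true] at h
    have h1 := imp_sound hG ((ht.sub hlen).mono (by norm_num)) h.1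
    have h2 := imp_sound hG (((hp.sub ht).sub Rep.one).mono (by norm_num)) h.2
    rw [show X - Lo - 1 = (X - Lo - 1 - zz * A.p) + A.p * zz by ring, Int.add_mul_emod_self_left,
      Int.emod_eq_of_lt (by omega) (by omega)]
    constructor
    · intro h; omega
    · intro h; exact absurd h (by decide)
  · change and (imp G c1 (x - lo - 1 - zp z))
      (imp G c2 ((len - (x - lo - 1 - zp z)) - 1)) = true at h
    simp only [Bool.and_eq_true] at h
    have h1 := imp_sound hG (ht.mono (by norm_num)) h.1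
    have h2 := imp_sound hG (((hlen.sub ht).sub Rep.one).mono (by norm_num)) h.2
    rw [show X - Lo - 1 = (X - Lo - 1 - zz * A.p) + A.p * zz by ring, Int.add_mul_emod_self_left]
    constructor
    · intro _; rfl
    · intro _
      have := emod_le_self' h1 hp0
      omega

theorem inl_sound {G : List Int} (hG : Nn v G) (hv : EnvOk A v) {fd m f X Q : Int}
    (hfd : Rep v 64 fd A.fd) {b : Bool} {z c1 c2 c3 : Nat}
    (hm : Rep v 512 m X) (hf : Rep v 64 f Q)
    (f0 : 0 < Q) (f1 : Q < A.q)
    (h : inl G fd m f b z c1 c2 c3 = true) :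
    A.InL X Q ↔ b = true := by
  obtain ⟨zz, hz⟩ := hv.z z
  have hp := hv.p
  have hD := hv.D
  have hp0 : (0 : Int) < A.p := A.p_pos'
  have hq0 : (0 : Int) < A.q := A.q_pos'
  have hN : (0 : Int) < A.p * A.q := A.N_pos'
  have g0 := A.hfd
  have g1 : A.fd < A.q := A.hfd2
  have ht := hm.sub hz
  unfold inl at h
  unfold Ap.InL
  cases b
  · change and (imp G c1 ((fp - (m - zp z)) - 1)) (@Bool.rec (fun _ => Bool)
        (and (imp G c2 ((m - zp z) - fD)) (imp G c3 (f - fd)))
        (imp G c2 (((m - zp z) - fD) - 1)) (Nat.beq c3 0)) = true at h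
    simp only [Bool.and_eq_true] at h
    have h1 := imp_sound hG (((hp.sub ht).sub Rep.one).mono (by norm_num)) h.1
    have key : (A.q : Int) * A.md + A.fd ≤ A.q * (X - zz * A.p) + Q := by
      rcases hc : Nat.beq c3 0 with _ | _
      · rw [hc] at h
        have h' := h.2
        change and (imp G c2 ((m - zp z) - fD)) (imp G c3 (f - fd)) = true at h'
        simp only [Bool.and_eq_true] at h'
        have h2 := imp_sound hG ((ht.sub hD).mono (by norm_num)) h'.1
        have h3 := imp_sound hG ((hf.sub hfd).mono (by norm_num)) h'.2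
        nlinarith
      · rw [hc] at h
        have h' := h.2
        change imp G c2 (((m - zp z) - fD) - 1) = true at h'
        have h2 := imp_sound hG (((ht.sub hD).sub Rep.one).mono (by norm_num)) h'
        nlinarith
    have md0 := A.hmd
    have up : (A.q : Int) * (X - zz * A.p) + Q < A.p * A.q := by
      have : X - zz * A.p ≤ A.p - 1 := by omega
      nlinarith
    have lo : 0 ≤ (A.q : Int) * (X - zz * A.p) + Q := by
      have : 0 ≤ (A.q : Int) * A.md := by positivity
      omega
    rw [show (A.q : Int) * X + Q = (A.q * (X - zz * A.p) + Q) + (A.p * A.q) * zz by ring,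
      Int.add_mul_emod_self_left, Int.emod_eq_of_lt lo up]
    constructor
    · intro h; omega
    · intro h; exact absurd h (by decide)
  · change and (imp G c1 (m - zp z)) (@Bool.rec (fun _ => Bool)
        (and (imp G c2 (fD - (m - zp z))) (imp G c3 ((fd - f) - 1)))
        (imp G c2 ((fD - (m - zp z)) - 1)) (Nat.beq c3 0)) = true at h
    simp only [Bool.and_eq_true] at h
    have h1 := imp_sound hG (ht.mono (by norm_num)) h.1
    have key : A.q * (X - zz * A.p) + Q < (A.q : Int) * A.md + A.fd := by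
      rcases hc : Nat.beq c3 0 with _ | _
      · rw [hc] at h
        have h' := h.2
        change and (imp G c2 (fD - (m - zp z))) (imp G c3 ((fd - f) - 1)) = true at h'
        simp only [Bool.and_eq_true] at h'
        have h2 := imp_sound hG ((hD.sub ht).mono (by norm_num)) h'.1
        have h3 := imp_sound hG (((hfd.sub hf).sub Rep.one).mono (by norm_num)) h'.2
        nlinarith
      · rw [hc] at h
        have h' := h.2
        change imp G c2 ((fD - (m - zp z)) - 1) = true at h'
        have h2 := imp_sound hG (((hD.sub ht).sub Rep.one).mono (by norm_num)) h'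
        nlinarith
    have lo : 0 ≤ (A.q : Int) * (X - zz * A.p) + Q := by nlinarith
    rw [show (A.q : Int) * X + Q = (A.q * (X - zz * A.p) + Q) + (A.p * A.q) * zz by ring,
      Int.add_mul_emod_self_left]
    constructor
    · intro _; rfl
    · intro _
      have := emod_le_self' lo hN
      omega

end

/-- certificate for a membership -/
structure M where
  b : Bool
  z : Nat
  c1 : Nat
  c2 : Nat

/-- certificate for a position -/
structure L where
  z : Nat
  c1 : Nat
  c2 : Nat
  c3 : Nat

/-- certificate for one of the four terms of `Φ(Y) - Φ(r)` -/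
inductive K where
  | out (l : L)
  | same (my mr : M)
  | diff (l : L) (my mr : M)

noncomputable def M.ok (m : M) (G : List Int) (x lo len : Int) : Bool :=
  @M.rec (fun _ => Bool) (fun b z c1 c2 => mem G x lo len b z c1 c2) m

noncomputable def L.ok (l : L) (G : List Int) (fd m f : Int) (b : Bool) : Bool :=
  @L.rec (fun _ => Bool) (fun z c1 c2 c3 => inl G fd m f b z c1 c2 c3) l

noncomputable def b2i (b : Bool) : Int := @Bool.rec (fun _ => Int) 0 1 b

noncomputable def K.val (k : K) : Int :=
  @K.rec (fun _ => Int) (fun _ => 0) (fun _ _ => 0)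
    (fun _ my mr => Int.sub (b2i my.b) (b2i mr.b)) k

noncomputable def K.ok (G : List Int) (fd m f lo len Y r : Int) (k : K) : Bool :=
  @K.rec (fun _ => Bool) (fun l => l.ok G fd m f false)
    (fun my mr => and (@Bool.rec (fun _ => Bool) (not mr.b) mr.b my.b)
      (and (my.ok G Y lo len) (mr.ok G r lo len)))
    (fun l my mr => and (l.ok G fd m f true) (and (my.ok G Y lo len) (mr.ok G r lo len))) k

theorem K.sound {A : Ap} {v : List Int} {G : List Int} (hG : Nn v G) (hv : EnvOk A v)
    {fd m f lo len Y r X Q Lo Le Yv Rv : Int} (hfd : Rep v 64 fd A.fd)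
    (hm : Rep v 512 m X) (hf : Rep v 64 f Q) (hlo : Rep v 128 lo Lo) (hlen : Rep v 1 len Le)
    (hY : Rep v 512 Y Yv) (hr : Rep v 512 r Rv)
    (f0 : 0 < Q) (f1 : Q < A.q) (hl : 0 ≤ Le) {k : K}
    (h : k.ok G fd m f lo len Y r = true) :
    (if A.InL X Q ∧ InA A.p Yv Lo Le then (1 : Int) else 0)
    - (if A.InL X Q ∧ InA A.p Rv Lo Le then (1 : Int) else 0) = k.val := by
  cases k with
  | out l =>
    change inl G fd m f false l.z l.c1 l.c2 l.c3 = true at h
    have h1 := inl_sound hG hv hfd hm hf f0 f1 h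
    have h2 : ¬ A.InL X Q := fun h' => absurd (h1.1 h') (by decide)
    rw [if_neg (fun h' => h2 h'.1), if_neg (fun h' => h2 h'.1)]
    rfl
  | same my mr =>
    change and (@Bool.rec (fun _ => Bool) (not mr.b) mr.b my.b)
      (and (mem G Y lo len my.b my.z my.c1 my.c2) (mem G r lo len mr.b mr.z mr.c1 mr.c2)) = true
      at h
    simp only [Bool.and_eq_true] at h
    have h1 := mem_sound hG hv hY hlo hlen hl h.2.1
    have h2 := mem_sound hG hv hr hlo hlen hl h.2.2
    have h3 : my.b = mr.b := by
      have := h.1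
      revert this
      cases my.b <;> cases mr.b <;> decide
    rw [h3] at h1
    have h4 := h1.trans h2.symm
    change _ = (0 : Int)
    by_cases c1 : A.InL X Q <;> by_cases c2 : InA A.p Yv Lo Le
    · rw [if_pos ⟨c1, c2⟩, if_pos ⟨c1, h4.1 c2⟩]; rfl
    · rw [if_neg (fun h' => c2 h'.2), if_neg (fun h' => c2 (h4.2 h'.2))]; rfl
    · rw [if_neg (fun h' => c1 h'.1), if_neg (fun h' => c1 h'.1)]; rfl
    · rw [if_neg (fun h' => c1 h'.1), if_neg (fun h' => c1 h'.1)]; rfl
  | diff l my mr =>
    change and (inl G fd m f true l.z l.c1 l.c2 l.c3)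
      (and (mem G Y lo len my.b my.z my.c1 my.c2) (mem G r lo len mr.b mr.z mr.c1 mr.c2)) = true
      at h
    simp only [Bool.and_eq_true] at h
    have h0 := (inl_sound hG hv hfd hm hf f0 f1 h.1).2 rfl
    have h1 := mem_sound hG hv hY hlo hlen hl h.2.1
    have h2 := mem_sound hG hv hr hlo hlen hl h.2.2
    change _ = b2i my.b - (b2i mr.b)
    have t : ∀ b : Bool, ∀ (P : Prop) [Decidable P], (P ↔ b = true) →
        (if A.InL X Q ∧ P then (1 : Int) else 0) = b2i b := by
      intro b P _ hP
      cases b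
      · rw [if_neg (fun h' => absurd (hP.1 h'.2) (by decide))]; rfl
      · rw [if_pos ⟨h0, hP.2 rfl⟩]; rfl
    rw [t _ _ h1, t _ _ h2]

/-- a class: lifts `m`, `f`, `s` -/
structure Cl where
  m : Int
  f : Int
  s : Int

/-- the level `Y` -/
noncomputable def lev (g k r : Int) (n : Nat) : Int :=
  Int.add (@Nat.rec (fun _ => Int) g (fun n _ =>
    @Nat.rec (fun _ => Int) (Int.sub g fh) (fun n _ =>
    @Nat.rec (fun _ => Int) k (fun n _ =>
    @Nat.rec (fun _ => Int) (Int.sub k fw) (fun n _ =>
    @Nat.rec (fun _ => Int) 0 (fun n _ =>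
    @Nat.rec (fun _ => Int) (Int.neg fh) (fun n _ =>
    @Nat.rec (fun _ => Int) (Int.neg fw) (fun n _ =>
    @Nat.rec (fun _ => Int) (Int.sub (Int.neg fw) fh) (fun _ _ => r) n) n) n) n) n) n) n)
    (Nat.shiftRight n 2)) (Int.subNatNat (Nat.land n 3) 1)

theorem lev_rep {A : Ap} {v : List Int} (hv : EnvOk A v) {g k r G K R : Int}
    (hg : Rep v 128 g G) (hk : Rep v 128 k K) (hr : Rep v 256 r R) (n : Nat) :
    ∃ Y, Rep v 512 (lev g k r n) Y := by
  have hc : Rep v 3 (Int.subNatNat (Nat.land n 3) 1) (Int.subNatNat (Nat.land n 3) 1) := by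
    apply Rep.cst
    have h : Nat.land n 3 ≤ 3 := Nat.and_le_right
    rw [Int.subNatNat_eq_coe]
    constructor <;> push_cast <;> omega
  have hw := hv.w
  have hh := hv.h
  have key : ∀ m : Nat, ∃ Y, Rep v 300 (@Nat.rec (fun _ => Int) g (fun n _ =>
    @Nat.rec (fun _ => Int) (Int.sub g fh) (fun n _ =>
    @Nat.rec (fun _ => Int) k (fun n _ =>
    @Nat.rec (fun _ => Int) (Int.sub k fw) (fun n _ =>
    @Nat.rec (fun _ => Int) 0 (fun n _ =>
    @Nat.rec (fun _ => Int) (Int.neg fh) (fun n _ =>
    @Nat.rec (fun _ => Int) (Int.neg fw) (fun n _ =>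
    @Nat.rec (fun _ => Int) (Int.sub (Int.neg fw) fh) (fun _ _ => r) n) n) n) n) n) n) n) m)
      Y := by
    intro m
    match m with
    | 0 => exact ⟨_, hg.mono (by norm_num)⟩
    | 1 => exact ⟨_, (hg.sub hh).mono (by norm_num)⟩
    | 2 => exact ⟨_, hk.mono (by norm_num)⟩
    | 3 => exact ⟨_, (hk.sub hw).mono (by norm_num)⟩
    | 4 => exact ⟨_, (Rep.cst (c := 0) (C := 0) (by omega)).mono (by norm_num)⟩
    | 5 => exact ⟨_, hh.neg.mono (by norm_num)⟩
    | 6 => exact ⟨_, hw.neg.mono (by norm_num)⟩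
    | 7 => exact ⟨_, (hw.neg.sub hh).mono (by norm_num)⟩
    | m + 8 => exact ⟨_, hr.mono (by norm_num)⟩
  obtain ⟨Y, hY⟩ := key (Nat.shiftRight n 2)
  exact ⟨_, (hY.add hc).mono (by norm_num)⟩

/-- second half of the check of one instance of (E0) -/
noncomputable def leaf2 (G : List Int) (fd fX fY mc g mb k r y : Int) (cb : Bool) (cc : Nat)
    (m1 m2 m3 m4 : M) (k0 k1 k2 k3 : K) : Bool :=
  and (@Bool.rec (fun _ => Bool) (imp G cc (Int.sub fX fY))
    (imp G cc (Int.sub (Int.sub fY fX) 1)) cb)
  (and (and (@Bool.rec (fun _ => Bool) m2.b (not m2.b) m1.b)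
      (and (m1.ok G r (Int.sub g fh) fh) (m2.ok G y (Int.sub g fh) fh)))
  (and (and (@Bool.rec (fun _ => Bool) m4.b (not m4.b) m3.b)
      (and (m3.ok G r (Int.sub k fw) fw) (m4.ok G y (Int.sub k fw) fw)))
  (and (and (k0.ok G fd mc fX (Int.neg fh) fh y r)
      (and (k1.ok G fd (Int.sub mc fw) fX (Int.sub (Int.neg fw) fh) fh y r)
      (and (k2.ok G fd mb fY (Int.neg fw) fw y r)
        (k3.ok G fd (Int.add mb fh) fY (Int.sub (Int.neg fw) fh) fw y r))))
    (not (Int.beq' (Int.sub (Int.add k1.val k2.val) (Int.add k0.val k3.val)) 0)))))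

theorem leaf2_sound {A : Ap} (F : A.Fl) {v : List Int} {G : List Int} (hG : Nn v G)
    (hv : EnvOk A v) {fd fX fY mc g mb k r y FX FY MC GG MB KK Y : Int} (hfd : Rep v 64 fd A.fd)
    (hfX : Rep v 64 fX FX) (hfY : Rep v 64 fY FY) (hmc : Rep v 128 mc MC) (hg : Rep v 100 g GG)
    (hmb : Rep v 256 mb MB) (hk : Rep v 100 k KK) (hy : Rep v 512 y Y) {i j : Int}
    (hVW : A.VW j MC FX GG) (hHW : A.HW i MB FY KK)
    (hij : i ≠ j) {cb : Bool} (hr : Rep v 512 r (MB - MC + (if cb then 1 else 0)))
    {cc : Nat} {m1 m2 m3 m4 : M} {k0 k1 k2 k3 : K}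
    (h : leaf2 G fd fX fY mc g mb k r y cb cc m1 m2 m3 m4 k0 k1 k2 k3 = true) : False := by
  unfold leaf2 at h
  simp only [Bool.and_eq_true] at h
  obtain ⟨hcb, ⟨a3, a1, a2⟩, ⟨a6, a4, a5⟩, ⟨a7, a8, a9, a10⟩, a11⟩ := h
  have hw := hv.w
  have hh := hv.h
  have hw0 : (0 : Int) ≤ A.w := by positivity
  have hh0 : (0 : Int) ≤ A.h := by positivity
  have fX0 : 0 < FX ∧ FX < A.q := by obtain ⟨m, s, h, -⟩ := hVW; exact ⟨h.2.2.1, h.2.2.2.1⟩
  have fY0 : 0 < FY ∧ FY < A.q := by obtain ⟨m, s, h, -⟩ := hHW; exact ⟨h.2.2.1, h.2.2.2.1⟩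
  have Hr : MB - MC + (if cb then 1 else 0) = MB - MC + (if FX < FY then 1 else 0) := by
    cases cb
    · have h1 := imp_sound hG ((hfX.sub hfY).mono (by norm_num)) hcb
      rw [if_neg (by omega : ¬ FX < FY), if_neg (by decide)]
    · have h1 := imp_sound hG (((hfY.sub hfX).sub Rep.one).mono (by norm_num)) hcb
      rw [if_pos (by omega : FX < FY), if_pos rfl]
  have b1 := mem_sound hG hv hr ((hg.sub hh).mono (by norm_num)) hh hh0 a1
  have b2 := mem_sound hG hv hy ((hg.sub hh).mono (by norm_num)) hh hh0 a2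
  have b4 := mem_sound hG hv hr ((hk.sub hw).mono (by norm_num)) hw hw0 a4
  have b5 := mem_sound hG hv hy ((hk.sub hw).mono (by norm_num)) hw hw0 a5
  have e1 : InA A.p Y (GG - A.h) A.h ↔
      ¬ InA A.p (MB - MC + (if cb then 1 else 0)) (GG - A.h) A.h := by
    rw [b1, b2]
    revert a3
    cases m1.b <;> cases m2.b <;> decide
  have e2 : InA A.p Y (KK - A.w) A.w ↔
      ¬ InA A.p (MB - MC + (if cb then 1 else 0)) (KK - A.w) A.w := by
    rw [b4, b5]
    revert a6
    cases m3.b <;> cases m4.b <;> decide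
  have main := Ap.E0 F hVW hHW hij Hr Y e1 e2
  have nh : Rep v 128 (Int.neg fh) (-A.h) := hh.neg.mono (by norm_num)
  have nw : Rep v 128 (Int.neg fw) (-A.w) := hw.neg.mono (by norm_num)
  have nwh : Rep v 128 (Int.sub (Int.neg fw) fh) (-A.w - A.h) :=
    (hw.neg.sub hh).mono (by norm_num)
  have c0 := K.sound hG hv hfd (hmc.mono (by norm_num)) hfX nh hh hy hr fX0.1 fX0.2 hh0 a7
  have c1 := K.sound hG hv hfd ((hmc.sub hw).mono (by norm_num)) hfX nwh hh hy hr fX0.1 fX0.2
    hh0 a8
  have c2 := K.sound hG hv hfd (hmb.mono (by norm_num)) hfY nw hw hy hr fY0.1 fY0.2 hw0 a9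
  have c3 := K.sound hG hv hfd ((hmb.add hh).mono (by norm_num)) hfY nwh hw hy hr fY0.1 fY0.2
    hw0 a10
  unfold Ap.Phi at main
  have fin : (k1.val + k2.val) - (k0.val + k3.val) = 0 := by
    rw [← c0, ← c1, ← c2, ← c3]
    linarith
  have fin' : Int.sub (Int.add k1.val k2.val) (Int.add k0.val k3.val) = 0 := fin
  rw [fin'] at a11
  exact absurd a11 (by decide)

/-- check of one instance of (E0) -/
noncomputable def leaf (G : List Int) (fd : Int) (X Y : Cl) (side tb cb : Bool) (cc yc : Nat)
    (m1 m2 m3 m4 : M) (k0 k1 k2 k3 : K) : Bool :=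
  @Cl.rec (fun _ => Bool) (fun mX fX sX => @Cl.rec (fun _ => Bool) (fun mY fY sY =>
    (fun mc g mb k => (fun r => (fun y =>
      leaf2 G fd fX fY mc g mb k r y cb cc m1 m2 m3 m4 k0 k1 k2 k3) (lev g k r yc))
      (@Bool.rec (fun _ => Int) (Int.sub mb mc) (Int.add (Int.sub mb mc) 1) cb))
    (@Bool.rec (fun _ => Int) mX (Int.add mX fw) side)
    (@Bool.rec (fun _ => Int) sX (Int.sub sX fw) side)
    (@Bool.rec (fun _ => Int) (Int.add mY sY) (Int.sub (Int.add mY sY) fh) tb)
    (@Bool.rec (fun _ => Int) sY (Int.sub sY fh) tb)) Y) X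

/-- the packed class `X` represents class `i` -/
def ClOk (A : Ap) (v : List Int) (X : Cl) (i : Int) : Prop :=
  ∃ m f s, A.Cls i m f s ∧ Rep v 64 X.m m ∧ Rep v 64 X.f f ∧ Rep v 64 X.s s

theorem leaf_sound {A : Ap} (F : A.Fl) {v : List Int} {G : List Int} (hG : Nn v G)
    (hv : EnvOk A v) {fd : Int} (hfd : Rep v 64 fd A.fd) {X Y : Cl} {i j : Int}
    (hX : ClOk A v X j) (hY : ClOk A v Y i)
    (hij : i ≠ j) {side tb cb : Bool} {cc yc : Nat} {m1 m2 m3 m4 : M} {k0 k1 k2 k3 : K}
    (h : leaf G fd X Y side tb cb cc yc m1 m2 m3 m4 k0 k1 k2 k3 = true) : False := by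
  obtain ⟨mj, fj, sj, cj, xm, xf, xs⟩ := hX
  obtain ⟨mi, fi, si, ci, ym, yf, ys⟩ := hY
  have hw := hv.w
  have hh := hv.h
  obtain ⟨MC, GG, hmc, hg, hVW⟩ : ∃ MC GG,
      Rep v 65 (@Bool.rec (fun _ => Int) X.m (Int.add X.m fw) side) MC ∧
      Rep v 65 (@Bool.rec (fun _ => Int) X.s (Int.sub X.s fw) side) GG ∧
      A.VW j MC fj GG := by
    cases side
    · exact ⟨mj, sj, xm.mono (by norm_num), xs.mono (by norm_num), mj, sj, cj,
        Or.inl ⟨rfl, rfl⟩⟩
    · exact ⟨mj + A.w, sj - A.w, (xm.add hw).mono (by norm_num), (xs.sub hw).mono (by norm_num),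
        mj, sj, cj, Or.inr ⟨rfl, rfl⟩⟩
  obtain ⟨MB, KK, hmb, hk, hHW⟩ : ∃ MB KK,
      Rep v 129 (@Bool.rec (fun _ => Int) (Int.add Y.m Y.s) (Int.sub (Int.add Y.m Y.s) fh) tb) MB ∧
      Rep v 65 (@Bool.rec (fun _ => Int) Y.s (Int.sub Y.s fh) tb) KK ∧
      A.HW i MB fi KK := by
    cases tb
    · exact ⟨mi + si, si, (ym.add ys).mono (by norm_num), ys.mono (by norm_num), mi, si, ci,
        Or.inl ⟨rfl, rfl⟩⟩
    · exact ⟨mi + si - A.h, si - A.h, ((ym.add ys).sub hh).mono (by norm_num),
        (ys.sub hh).mono (by norm_num), mi, si, ci, Or.inr ⟨rfl, rfl⟩⟩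
  have hr : Rep v 195 (@Bool.rec (fun _ => Int)
      (Int.sub (@Bool.rec (fun _ => Int) (Int.add Y.m Y.s) (Int.sub (Int.add Y.m Y.s) fh) tb)
        (@Bool.rec (fun _ => Int) X.m (Int.add X.m fw) side))
      (Int.add (Int.sub (@Bool.rec (fun _ => Int) (Int.add Y.m Y.s)
        (Int.sub (Int.add Y.m Y.s) fh) tb)
        (@Bool.rec (fun _ => Int) X.m (Int.add X.m fw) side)) 1) cb)
      (MB - MC + (if cb then 1 else 0)) := by
    cases cb
    · have := (hmb.sub hmc).mono (N := 195) (by norm_num)
      rw [if_neg (by decide), add_zero]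
      exact this
    · have := ((hmb.sub hmc).add Rep.one).mono (N := 195) (by norm_num)
      rw [if_pos rfl]
      exact this
  obtain ⟨Y', hy⟩ := lev_rep hv (hg.mono (by norm_num)) (hk.mono (by norm_num))
    (hr.mono (by norm_num)) yc
  exact leaf2_sound F hG hv hfd xf yf (hmc.mono (by norm_num)) (hg.mono (by norm_num))
    (hmb.mono (by norm_num)) (hk.mono (by norm_num)) hy hVW hHW hij (hr.mono (by norm_num)) h

/-- decode a form: digits in base `32` with offset `16` -/
noncomputable def dec (k : Nat) : Nat → Int :=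
  @Nat.rec (fun _ => Nat → Int) (fun _ => 0)
    (fun _ ih n => @Bool.rec (fun _ => Int)
      (Int.add (Int.subNatNat (Nat.land n 31) 16) (Int.mul 16777216 (ih (Nat.shiftRight n 5)))) 0
      (Nat.beq n 0)) k

theorem dec_rep : ∀ (k n : Nat), ∃ l : LF, pack l = dec k n ∧ Bd 16 l
  | 0, _ => ⟨[], rfl, by intro a ha; simp at ha⟩
  | k + 1, n => by
    change ∃ l : LF, pack l = @Bool.rec (fun _ => Int)
      (Int.subNatNat (Nat.land n 31) 16 + 16777216 * dec k (Nat.shiftRight n 5)) 0
      (Nat.beq n 0) ∧ Bd 16 l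
    cases Nat.beq n 0
    · obtain ⟨l, h1, h2⟩ := dec_rep k (Nat.shiftRight n 5)
      refine ⟨Int.subNatNat (Nat.land n 31) 16 :: l, by rw [pack, h1], ?_⟩
      intro a ha
      rcases List.mem_cons.1 ha with rfl | ha
      · have h : Nat.land n 31 ≤ 31 := Nat.and_le_right
        rw [Int.subNatNat_eq_coe]
        constructor <;> push_cast <;> omega
      · exact h2 a ha
    · exact ⟨[], rfl, by intro a ha; simp at ha⟩

/-- decision trees -/
inductive T where
  | inf (c : Nat)
  | br (f : Nat) (a b : T)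
  | ne (k : Nat) (a b : T)
  | lf (X Y : Nat) (side tb cb : Bool) (cc yc : Nat) (m1 m2 m3 m4 : M) (k0 k1 k2 k3 : K)

/-- entry of a list of forms -/
noncomputable def get1 (n : Nat) : List Int → Int :=
  @Nat.rec (fun _ => List Int → Int) (fun l => @List.rec Int (fun _ => Int) 0 (fun a _ _ => a) l)
    (fun _ ih l => ih (@List.rec Int (fun _ => List Int) [] (fun _ t _ => t) l)) n

/-- entry of a list of classes -/
noncomputable def get2 (n : Nat) : List Cl → Option Cl :=
  @Nat.rec (fun _ => List Cl → Option Cl)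
    (fun l => @List.rec Cl (fun _ => Option Cl) none (fun a _ _ => some a) l)
    (fun _ ih l => ih (@List.rec Cl (fun _ => List Cl) [] (fun _ t _ => t) l)) n

theorem get1_mem : ∀ (n : Nat) (l : List Int), n < l.length → get1 n l ∈ l
  | _, [], h => by simp at h
  | 0, _ :: _, _ => List.mem_cons_self
  | n + 1, _ :: l, h => List.mem_cons_of_mem _ (get1_mem n l (by simpa using h))

theorem get2_eq : ∀ (n : Nat) (l : List Cl), get2 n l = l[n]?
  | 0, [] => rfl
  | n + 1, [] => get2_eq n []
  | 0, _ :: _ => rfl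
  | n + 1, _ :: l => get2_eq n l

/-- the checker -/
noncomputable def chk (fd : Int) (cls : List Cl) (N : List Int) (t : T) : List Int → Bool :=
  @T.rec (fun _ => List Int → Bool)
    (fun c G => imp G c (-1))
    (fun f _ _ iha ihb G => and (iha (dec 16 f :: G)) (ihb (Int.sub (-1) (dec 16 f) :: G)))
    (fun k _ _ iha ihb G => and (Nat.blt k N.length)
      (and (iha (Int.sub (get1 k N) 1 :: G)) (ihb (Int.sub (-1) (get1 k N) :: G))))
    (fun X Y side tb cb cc yc m1 m2 m3 m4 k0 k1 k2 k3 G =>
      and (not (Nat.beq X Y)) (@Option.rec Cl (fun _ => Bool) false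
        (fun x => @Option.rec Cl (fun _ => Bool) false
          (fun y => leaf G fd x y side tb cb cc yc m1 m2 m3 m4 k0 k1 k2 k3) (get2 Y cls))
        (get2 X cls))) t

theorem chk_sound {A : Ap} (F : A.Fl) {v : List Int} (hv : EnvOk A v) {fd : Int}
    (hfd : Rep v 64 fd A.fd) {cls : List Cl} {idx : Nat → Int}
    (hcls : ∀ n X, cls[n]? = some X → ClOk A v X (idx n))
    (hidx : ∀ n n', n < cls.length → n' < cls.length → n ≠ n' → idx n ≠ idx n')
    {N : List Int} (hN : ∀ f ∈ N, ∃ X, X ≠ 0 ∧ Rep v 32 f X) :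
    ∀ (t : T) (G : List Int), Nn v G → chk fd cls N t G = true → False := by
  intro t
  induction t with
  | inf c =>
    intro G hG h
    have := imp_sound hG ((Rep.cst (c := -1) (C := 1) (by omega)).mono (by norm_num)) h
    omega
  | br f a b iha ihb =>
    intro G hG h
    change and (chk fd cls N a (dec 16 f :: G))
      (chk fd cls N b ((-1 - dec 16 f) :: G)) = true at h
    simp only [Bool.and_eq_true] at h
    obtain ⟨l, h1, h2⟩ := dec_rep 16 f
    have hR : Rep v 16 (dec 16 f) (dot l (1 :: v)) := ⟨by norm_num, l, h1, h2, rfl⟩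
    rcases le_or_gt 0 (dot l (1 :: v)) with hf | hf
    · refine iha _ ?_ h.1
      intro g hg
      rcases List.mem_cons.1 hg with rfl | hg
      · exact ⟨_, hf, hR.mono (by norm_num)⟩
      · exact hG g hg
    · refine ihb _ ?_ h.2
      intro g hg
      rcases List.mem_cons.1 hg with rfl | hg
      · exact ⟨-1 - dot l (1 :: v), by omega,
          ((Rep.cst (c := -1) (C := 1) (by omega)).sub hR).mono (by norm_num)⟩
      · exact hG g hg
  | ne k a b iha ihb =>
    intro G hG h
    change and (Nat.blt k N.length) (and (chk fd cls N a ((get1 k N - 1) :: G))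
      (chk fd cls N b ((-1 - get1 k N) :: G))) = true at h
    simp only [Bool.and_eq_true] at h
    have hk : k < N.length := by
      have := h.1
      unfold Nat.blt at this
      exact Nat.le_of_ble_eq_true this
    obtain ⟨X, hX, hR⟩ := hN _ (get1_mem k N hk)
    rcases lt_or_gt_of_ne hX with h1 | h1
    · refine ihb _ ?_ h.2.2
      intro g hg
      rcases List.mem_cons.1 hg with rfl | hg
      · exact ⟨-1 - X, by omega,
          ((Rep.cst (c := -1) (C := 1) (by omega)).sub hR).mono (by norm_num)⟩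
      · exact hG g hg
    · refine iha _ ?_ h.2.1
      intro g hg
      rcases List.mem_cons.1 hg with rfl | hg
      · exact ⟨X - 1, by omega, (hR.sub Rep.one).mono (by norm_num)⟩
      · exact hG g hg
  | lf X Y side tb cb cc yc m1 m2 m3 m4 k0 k1 k2 k3 =>
    intro G hG h
    change and (not (Nat.beq X Y)) (@Option.rec Cl (fun _ => Bool) false
        (fun x => @Option.rec Cl (fun _ => Bool) false
          (fun y => leaf G fd x y side tb cb cc yc m1 m2 m3 m4 k0 k1 k2 k3) (get2 Y cls))
        (get2 X cls)) = true at h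
    simp only [Bool.and_eq_true, Bool.not_eq_true'] at h
    have hne : X ≠ Y := by
      rintro rfl
      have := h.1
      rw [Nat.beq_refl] at this
      exact absurd this (by decide)
    rw [get2_eq, get2_eq] at h
    have h' := h.2
    rcases hX : cls[X]? with _ | x
    · rw [hX] at h'; exact Bool.noConfusion h'
    · rcases hY : cls[Y]? with _ | y
      · rw [hX, hY] at h'; exact Bool.noConfusion h'
      · rw [hX, hY] at h'
        have lX : X < cls.length := by
          rcases lt_or_ge X cls.length with h' | h'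
          · exact h'
          · rw [List.getElem?_eq_none h'] at hX; exact absurd hX (by simp)
        have lY : Y < cls.length := by
          rcases lt_or_ge Y cls.length with h' | h'
          · exact h'
          · rw [List.getElem?_eq_none h'] at hY; exact absurd hY (by simp)
        exact leaf_sound F hG hv hfd (hcls X x hX) (hcls Y y hY)
          (hidx Y X lY lX hne.symm) h'

/-! ### the interface -/

/-- bounded coefficients, as a Boolean -/
def bdB (M : Int) : LF → Bool
  | [] => true
  | a :: l => decide (-M ≤ a) && decide (a ≤ M) && bdB M l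

theorem bdB_sound {M : Int} : ∀ {l : LF}, bdB M l = true → Bd M l
  | [], _ => by intro a ha; simp at ha
  | b :: l, h => by
    simp only [bdB, Bool.and_eq_true, decide_eq_true_eq] at h
    intro a ha
    rcases List.mem_cons.1 ha with rfl | ha
    · exact h.1
    · exact bdB_sound h.2 a ha

def bdL (M : Int) : List LF → Bool
  | [] => true
  | a :: l => bdB M a && bdL M l

theorem bdL_sound {M : Int} : ∀ {l : List LF}, bdL M l = true → ∀ f ∈ l, Bd M f
  | [], _ => by intro a ha; simp at ha
  | b :: l, h => by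
    simp only [bdL, Bool.and_eq_true] at h
    intro a ha
    rcases List.mem_cons.1 ha with rfl | ha
    · exact bdB_sound h.1
    · exact bdL_sound h.2 a ha

/-- a class in list form -/
structure LC where
  m : LF
  f : LF
  s : LF

def bdC : List LC → Bool
  | [] => true
  | a :: l => bdB 64 a.m && bdB 64 a.f && bdB 64 a.s && bdC l

def packC : List LC → List Cl
  | [] => []
  | a :: l => ⟨pack a.m, pack a.f, pack a.s⟩ :: packC l

def packL : List LF → List Int
  | [] => []
  | a :: l => pack a :: packL l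

theorem packL_mem {a : Int} : ∀ {l : List LF}, a ∈ packL l → ∃ f ∈ l, pack f = a
  | [], h => by simp [packL] at h
  | b :: l, h => by
    rw [packL] at h
    rcases List.mem_cons.1 h with rfl | h
    · exact ⟨b, List.mem_cons_self, rfl⟩
    · obtain ⟨f, h1, h2⟩ := packL_mem h
      exact ⟨f, List.mem_cons_of_mem _ h1, h2⟩

theorem packC_get {X : Cl} : ∀ {l : List LC} {n : Nat}, bdC l = true → (packC l)[n]? = some X →
    ∃ c, l[n]? = some c ∧ X = ⟨pack c.m, pack c.f, pack c.s⟩ ∧ Bd 64 c.m ∧ Bd 64 c.f ∧ Bd 64 c.s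
  | [], n, _, h => by simp [packC] at h
  | b :: l, 0, h0, h => by
    simp only [bdC, Bool.and_eq_true] at h0
    simp only [packC, List.getElem?_cons_zero, Option.some.injEq] at h
    exact ⟨b, rfl, h.symm, bdB_sound h0.1.1.1, bdB_sound h0.1.1.2, bdB_sound h0.1.2⟩
  | b :: l, n + 1, h0, h => by
    simp only [bdC, Bool.and_eq_true] at h0
    simp only [packC, List.getElem?_cons_succ] at h
    obtain ⟨c, h1, h2⟩ := packC_get h0.2 h
    exact ⟨c, by simpa using h1, h2⟩

theorem packC_length : ∀ l : List LC, (packC l).length = l.length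
  | [] => rfl
  | _ :: l => by rw [packC, List.length_cons, List.length_cons, packC_length l]

/-- the complete check -/
noncomputable def chkL (fd : LF) (cls : List LC) (N G : List LF) (t : T) : Bool :=
  and (bdB 64 fd) (and (bdC cls) (and (bdL 32 N) (and (bdL 64 G)
    (chk (pack fd) (packC cls) (packL N) t (packL G)))))

/-- the classes of the list, with indices `idx` -/
def ClsOk (A : Ap) (v : List Int) : List LC → List Int → Prop
  | [], _ => True
  | c :: l, i :: is => A.Cls i (dot c.m (1 :: v)) (dot c.f (1 :: v)) (dot c.s (1 :: v)) ∧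
      ClsOk A v l is
  | _ :: _, [] => False

theorem ClsOk.get {A : Ap} {v : List Int} : ∀ {l : List LC} {is : List Int} {n : Nat} {c : LC},
    ClsOk A v l is → l[n]? = some c →
    A.Cls (is.getD n 0) (dot c.m (1 :: v)) (dot c.f (1 :: v)) (dot c.s (1 :: v))
  | [], _, _, _, _, h => by simp at h
  | b :: l, [], _, _, h0, _ => by simp [ClsOk] at h0
  | b :: l, i :: is, 0, c, h0, h => by
    simp only [List.getElem?_cons_zero, Option.some.injEq] at h
    rw [← h]; exact h0.1
  | b :: l, i :: is, n + 1, c, h0, h => by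
    simp only [List.getElem?_cons_succ] at h
    have := ClsOk.get h0.2 h
    simpa using this

theorem ClsOk.len {A : Ap} {v : List Int} : ∀ {l : List LC} {is : List Int},
    ClsOk A v l is → l.length ≤ is.length
  | [], _, _ => by simp
  | b :: l, [], h0 => by simp [ClsOk] at h0
  | b :: l, i :: is, h0 => by
    have := ClsOk.len h0.2
    simp only [List.length_cons]; omega

def AllNn (v : List Int) : List LF → Prop
  | [] => True
  | g :: G => 0 ≤ dot g (1 :: v) ∧ AllNn v G

theorem AllNn.mem {v : List Int} {g : LF} : ∀ {G : List LF}, AllNn v G → g ∈ G →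
    0 ≤ dot g (1 :: v)
  | [], _, h => by simp at h
  | b :: G, h0, h => by
    rcases List.mem_cons.1 h with rfl | h
    · exact h0.1
    · exact AllNn.mem h0.2 h

def AllNe (v : List Int) : List LF → Prop
  | [] => True
  | g :: G => dot g (1 :: v) ≠ 0 ∧ AllNe v G

theorem AllNe.mem {v : List Int} {g : LF} : ∀ {G : List LF}, AllNe v G → g ∈ G →
    dot g (1 :: v) ≠ 0
  | [], _, h => by simp at h
  | b :: G, h0, h => by
    rcases List.mem_cons.1 h with rfl | h
    · exact h0.1
    · exact AllNe.mem h0.2 h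

/-- a checked tree contradicts flatness -/
theorem run {A : Ap} (F : A.Fl) {v : List Int} (hv : EnvOk A v) {fd : LF}
    (hfd : dot fd (1 :: v) = A.fd) {cls : List LC} {is : List Int} (hcls : ClsOk A v cls is)
    (hidx : is.Nodup) {N : List LF} (hN : AllNe v N) {G : List LF} (hG : AllNn v G) {t : T}
    (h : chkL fd cls N G t = true) : False := by
  unfold chkL at h
  simp only [Bool.and_eq_true] at h
  obtain ⟨h1, h2, h3, h4, h5⟩ := h
  refine chk_sound F hv (idx := fun n => is.getD n 0) ⟨by norm_num, fd, rfl, bdB_sound h1, hfd⟩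
    ?_ ?_ ?_ t (packL G) ?_ h5
  · intro n X hX
    obtain ⟨c, e1, e2, e3, e4, e5⟩ := packC_get h2 hX
    subst e2
    exact ⟨_, _, _, hcls.get e1, ⟨by norm_num, c.m, rfl, e3, rfl⟩,
      ⟨by norm_num, c.f, rfl, e4, rfl⟩, ⟨by norm_num, c.s, rfl, e5, rfl⟩⟩
  · intro n n' hn hn' hne he
    rw [packC_length] at hn hn'
    have hl := hcls.len
    have e1 : is.getD n 0 = is[n]'(by omega) := by
      rw [List.getD_eq_getElem?_getD, List.getElem?_eq_getElem (by omega)]; rfl
    have e2 : is.getD n' 0 = is[n']'(by omega) := by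
      rw [List.getD_eq_getElem?_getD, List.getElem?_eq_getElem (by omega)]; rfl
    simp only [e1, e2] at he
    exact hne ((List.Nodup.getElem_inj_iff hidx).1 he)
  · intro f hf
    obtain ⟨l, hl, rfl⟩ := packL_mem hf
    exact ⟨_, hN.mem hl, by norm_num, l, rfl, bdL_sound h3 l hl, rfl⟩
  · intro g hg
    obtain ⟨l, hl, rfl⟩ := packL_mem hg
    exact ⟨_, hG.mem hl, by norm_num, l, rfl, bdL_sound h4 l hl, rfl⟩

end Pool.Agent.H81.AP
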