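import Pool.Agent.H81.AP.CJ0
import Pool.Agent.H81.AP.CJ1
import Pool.Agent.H81.AP.CJ2
import Pool.Agent.H81.AP.CJ3
import Pool.Agent.H81.AP.CH0
import Pool.Agent.H81.AP.CH1
import Pool.Agent.H81.AP.CH2
import Pool.Agent.H81.AP.CH3
import Pool.Agent.H81.AP.CH4
import Pool.Agent.H81.AP.CH5
import Pool.Agent.H81.AP.CH6
import Pool.Agent.H81.AP.CH7
import Pool.Agent.H81.AP.CZ0

/-! Case dispatch (generated). -/

set_option linter.all false

namespace Pool.Agent.H81.AP

open Pool.Agent.H98.Flat (Ap InA)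
open Pool.Agent.H98.Flat.Ap

/-- the carries -/
theorem K2.false {A : Ap} (F : A.Fl) (hr : (A.p : ℤ) < 2 * A.w + A.h) (K : K2 A)
    (ht : K.t2 = 0 ∨ K.t2 = 1) (hc : -K.t2 ≤ K.c2 ∧ K.c2 ≤ 1) (h1 : K.n1 = 0 ∨ K.n1 = -1)
    (h2 : K.n2 = 0 ∨ K.n2 = -1) : False := by
  have e1 := K.e1
  have e2 := K.e2
  have e3 := K.e3
  have a1 := K.d1.2.2.1
  have a2 := K.d1.2.2.2.1
  have a3 := K.d2.2.2.1
  have a4 := K.d2.2.2.2.1
  have a5 := K.d3.2.2.1
  have a6 := K.d3.2.2.2.1
  have a7 := K.d4.2.2.1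
  have a8 := K.d4.2.2.2.1
  have a9 := A.hfd
  have a10 := A.hfd2
  rcases ht with ht | ht
  · have hc' : K.c2 = 0 ∨ K.c2 = 1 := by omega
    rw [ht] at e2
    rcases hc' with hc1 | hc1
    · rw [hc1] at e2
      rcases h1 with h1 | h1 <;> rw [h1] at e1 <;> rcases h2 with h2 | h2 <;> rw [h2] at e3
      · exact caseJ2 F hr K ht hc1 h1 h2
      · exact caseJ1 F hr K ht hc1 h1 h2
      · omega
      · exact caseJ0 F hr K ht hc1 h1 h2
    · rw [hc1] at e2
      rcases h1 with h1 | h1 <;> rw [h1] at e1 <;> rcases h2 with h2 | h2 <;> rw [h2] at e3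
      · exact caseJ5 F hr K ht hc1 h1 h2
      · omega
      · exact caseJ4 F hr K ht hc1 h1 h2
      · exact caseJ3 F hr K ht hc1 h1 h2
  · have hc' : K.c2 = -1 ∨ K.c2 = 0 ∨ K.c2 = 1 := by omega
    rw [ht] at e2
    rcases hc' with hc1 | hc1 | hc1
    · rw [hc1] at e2
      rcases h1 with h1 | h1 <;> rw [h1] at e1 <;> rcases h2 with h2 | h2 <;> rw [h2] at e3
      · exact caseJ7 F hr K ht hc1 h1 h2
      · exact caseJ6 F hr K ht hc1 h1 h2
      · omega
      · omega
    · rw [hc1] at e2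
      rcases h1 with h1 | h1 <;> rw [h1] at e1 <;> rcases h2 with h2 | h2 <;> rw [h2] at e3
      · exact caseJ9 F hr K ht hc1 h1 h2
      · omega
      · omega
      · exact caseJ8 F hr K ht hc1 h1 h2
    · rw [hc1] at e2
      rcases h1 with h1 | h1 <;> rw [h1] at e1 <;> rcases h2 with h2 | h2 <;> rw [h2] at e3
      · omega
      · omega
      · exact caseJ11 F hr K ht hc1 h1 h2
      · exact caseJ10 F hr K ht hc1 h1 h2

/-- the carries -/
theorem K3.false {A : Ap} (F : A.Fl) (hr1 : A.w = A.h) (hr2 : 3 * (A.w : ℤ) ≤ A.p)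
    (hr3 : (A.p : ℤ) < 4 * A.w) (K : K3 A)
    (ht : (K.t2 = 0 ∧ (K.t3 = 0 ∨ K.t3 = 1)) ∨ (K.t2 = 1 ∧ (K.t3 = 1 ∨ K.t3 = 2)))
    (hc : -K.t2 ≤ K.c2 ∧ K.c2 ≤ 1) (hc3 : -K.t3 ≤ K.c3 ∧ K.c3 ≤ 2) (h1 : K.n1 = 0 ∨ K.n1 = -1)
    (h2 : K.n2 = 0 ∨ K.n2 = -1) (h3 : K.n3 = 0 ∨ K.n3 = -1) : False := by
  have e1 := K.e1
  have e2 := K.e2
  have e3 := K.e3
  have a1 := K.d1.2.2.1
  have a2 := K.d1.2.2.2.1
  have a3 := K.d2.2.2.1
  have a4 := K.d2.2.2.2.1
  have a5 := K.d3.2.2.1
  have a6 := K.d3.2.2.2.1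
  have a7 := K.d4.2.2.1
  have a8 := K.d4.2.2.2.1
  have a9 := A.hfd
  have a10 := A.hfd2
  have e4 := K.e4
  have e5 := K.e5
  have b1 := K.d5.2.2.1
  have b2 := K.d5.2.2.2.1
  have b3 := K.d6.2.2.1
  have b4 := K.d6.2.2.2.1
  rcases ht with ⟨ht, ht3⟩ | ⟨ht, ht3⟩
  · rw [ht] at e2
    rcases ht3 with ht3 | ht3
    · rw [ht3] at e4
      have hc' : K.c2 = 0 ∨ K.c2 = 1 := by omega
      rcases hc' with hc1 | hc1
      · rw [hc1] at e2
        rcases h1 with h1 | h1 <;> rw [h1] at e1 <;> rcases h2 with h2 | h2 <;> rw [h2] at e3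
        · have hc'' : K.c3 = 0 ∨ K.c3 = 1 ∨ K.c3 = 2 := by omega
          rcases hc'' with hc2 | hc2 | hc2
          · rw [hc2] at e4
            rcases h3 with h3 | h3 <;> rw [h3] at e5
            · exact caseH6 F hr1 hr2 hr3 K ht hc1 h1 h2 ht3 hc2 h3
            · exact caseH5 F hr1 hr2 hr3 K ht hc1 h1 h2 ht3 hc2 h3
          · rw [hc2] at e4
            rcases h3 with h3 | h3 <;> rw [h3] at e5
            · exact caseH7 F hr1 hr2 hr3 K ht hc1 h1 h2 ht3 hc2 h3
            · omega
          · rw [hc2] at e4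
            clear e5 b3 b4; omega
        · have hc'' : K.c3 = 0 ∨ K.c3 = 1 ∨ K.c3 = 2 := by omega
          rcases hc'' with hc2 | hc2 | hc2
          · rw [hc2] at e4
            rcases h3 with h3 | h3 <;> rw [h3] at e5
            · omega
            · exact caseH3 F hr1 hr2 hr3 K ht hc1 h1 h2 ht3 hc2 h3
          · rw [hc2] at e4
            rcases h3 with h3 | h3 <;> rw [h3] at e5
            · exact caseH4 F hr1 hr2 hr3 K ht hc1 h1 h2 ht3 hc2 h3
            · omega
          · rw [hc2] at e4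
            clear e5 b3 b4; omega
        · clear e4 e5 b1 b2 b3 b4; omega
        · have hc'' : K.c3 = 0 ∨ K.c3 = 1 ∨ K.c3 = 2 := by omega
          rcases hc'' with hc2 | hc2 | hc2
          · rw [hc2] at e4
            rcases h3 with h3 | h3 <;> rw [h3] at e5
            · omega
            · exact caseH0 F hr1 hr2 hr3 K ht hc1 h1 h2 ht3 hc2 h3
          · rw [hc2] at e4
            rcases h3 with h3 | h3 <;> rw [h3] at e5
            · exact caseH2 F hr1 hr2 hr3 K ht hc1 h1 h2 ht3 hc2 h3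
            · exact caseH1 F hr1 hr2 hr3 K ht hc1 h1 h2 ht3 hc2 h3
          · rw [hc2] at e4
            clear e5 b3 b4; omega
      · rw [hc1] at e2
        rcases h1 with h1 | h1 <;> rw [h1] at e1 <;> rcases h2 with h2 | h2 <;> rw [h2] at e3
        · have hc'' : K.c3 = 0 ∨ K.c3 = 1 ∨ K.c3 = 2 := by omega
          rcases hc'' with hc2 | hc2 | hc2
          · rw [hc2] at e4
            clear e5 b3 b4; omega
          · rw [hc2] at e4
            rcases h3 with h3 | h3 <;> rw [h3] at e5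
            · exact caseH14 F hr1 hr2 hr3 K ht hc1 h1 h2 ht3 hc2 h3
            · exact caseH13 F hr1 hr2 hr3 K ht hc1 h1 h2 ht3 hc2 h3
          · rw [hc2] at e4
            rcases h3 with h3 | h3 <;> rw [h3] at e5
            · exact caseH15 F hr1 hr2 hr3 K ht hc1 h1 h2 ht3 hc2 h3
            · omega
        · clear e4 e5 b1 b2 b3 b4; omega
        · have hc'' : K.c3 = 0 ∨ K.c3 = 1 ∨ K.c3 = 2 := by omega
          rcases hc'' with hc2 | hc2 | hc2
          · rw [hc2] at e4
            clear e5 b3 b4; omega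
          · rw [hc2] at e4
            rcases h3 with h3 | h3 <;> rw [h3] at e5
            · omega
            · exact caseH11 F hr1 hr2 hr3 K ht hc1 h1 h2 ht3 hc2 h3
          · rw [hc2] at e4
            rcases h3 with h3 | h3 <;> rw [h3] at e5
            · exact caseH12 F hr1 hr2 hr3 K ht hc1 h1 h2 ht3 hc2 h3
            · omega
        · have hc'' : K.c3 = 0 ∨ K.c3 = 1 ∨ K.c3 = 2 := by omega
          rcases hc'' with hc2 | hc2 | hc2
          · rw [hc2] at e4
            clear e5 b3 b4; omega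
          · rw [hc2] at e4
            rcases h3 with h3 | h3 <;> rw [h3] at e5
            · omega
            · exact caseH8 F hr1 hr2 hr3 K ht hc1 h1 h2 ht3 hc2 h3
          · rw [hc2] at e4
            rcases h3 with h3 | h3 <;> rw [h3] at e5
            · exact caseH10 F hr1 hr2 hr3 K ht hc1 h1 h2 ht3 hc2 h3
            · exact caseH9 F hr1 hr2 hr3 K ht hc1 h1 h2 ht3 hc2 h3
    · rw [ht3] at e4
      have hc' : K.c2 = 0 ∨ K.c2 = 1 := by omega
      rcases hc' with hc1 | hc1
      · rw [hc1] at e2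
        rcases h1 with h1 | h1 <;> rw [h1] at e1 <;> rcases h2 with h2 | h2 <;> rw [h2] at e3
        · have hc'' : K.c3 = -1 ∨ K.c3 = 0 ∨ K.c3 = 1 ∨ K.c3 = 2 := by omega
          rcases hc'' with hc2 | hc2 | hc2 | hc2
          · rw [hc2] at e4
            rcases h3 with h3 | h3 <;> rw [h3] at e5
            · exact caseH22 F hr1 hr2 hr3 K ht hc1 h1 h2 ht3 hc2 h3
            · exact caseH21 F hr1 hr2 hr3 K ht hc1 h1 h2 ht3 hc2 h3
          · rw [hc2] at e4
            rcases h3 with h3 | h3 <;> rw [h3] at e5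
            · exact caseH23 F hr1 hr2 hr3 K ht hc1 h1 h2 ht3 hc2 h3
            · omega
          · rw [hc2] at e4
            clear e5 b3 b4; omega
          · rw [hc2] at e4
            clear e5 b3 b4; omega
        · have hc'' : K.c3 = -1 ∨ K.c3 = 0 ∨ K.c3 = 1 ∨ K.c3 = 2 := by omega
          rcases hc'' with hc2 | hc2 | hc2 | hc2
          · rw [hc2] at e4
            clear e5 b3 b4; omega
          · rw [hc2] at e4
            rcases h3 with h3 | h3 <;> rw [h3] at e5
            · exact caseH20 F hr1 hr2 hr3 K ht hc1 h1 h2 ht3 hc2 h3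
            · exact caseH19 F hr1 hr2 hr3 K ht hc1 h1 h2 ht3 hc2 h3
          · rw [hc2] at e4
            clear e5 b3 b4; omega
          · rw [hc2] at e4
            clear e5 b3 b4; omega
        · clear e4 e5 b1 b2 b3 b4; omega
        · have hc'' : K.c3 = -1 ∨ K.c3 = 0 ∨ K.c3 = 1 ∨ K.c3 = 2 := by omega
          rcases hc'' with hc2 | hc2 | hc2 | hc2
          · rw [hc2] at e4
            clear e5 b3 b4; omega
          · rw [hc2] at e4
            rcases h3 with h3 | h3 <;> rw [h3] at e5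
            · omega
            · exact caseH16 F hr1 hr2 hr3 K ht hc1 h1 h2 ht3 hc2 h3
          · rw [hc2] at e4
            rcases h3 with h3 | h3 <;> rw [h3] at e5
            · exact caseH18 F hr1 hr2 hr3 K ht hc1 h1 h2 ht3 hc2 h3
            · exact caseH17 F hr1 hr2 hr3 K ht hc1 h1 h2 ht3 hc2 h3
          · rw [hc2] at e4
            clear e5 b3 b4; omega
      · rw [hc1] at e2
        rcases h1 with h1 | h1 <;> rw [h1] at e1 <;> rcases h2 with h2 | h2 <;> rw [h2] at e3
        · have hc'' : K.c3 = -1 ∨ K.c3 = 0 ∨ K.c3 = 1 ∨ K.c3 = 2 := by omega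
          rcases hc'' with hc2 | hc2 | hc2 | hc2
          · rw [hc2] at e4
            clear e5 b3 b4; omega
          · rw [hc2] at e4
            rcases h3 with h3 | h3 <;> rw [h3] at e5
            · exact caseH30 F hr1 hr2 hr3 K ht hc1 h1 h2 ht3 hc2 h3
            · exact caseH29 F hr1 hr2 hr3 K ht hc1 h1 h2 ht3 hc2 h3
          · rw [hc2] at e4
            rcases h3 with h3 | h3 <;> rw [h3] at e5
            · exact caseH31 F hr1 hr2 hr3 K ht hc1 h1 h2 ht3 hc2 h3
            · omega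
          · rw [hc2] at e4
            clear e5 b3 b4; omega
        · clear e4 e5 b1 b2 b3 b4; omega
        · have hc'' : K.c3 = -1 ∨ K.c3 = 0 ∨ K.c3 = 1 ∨ K.c3 = 2 := by omega
          rcases hc'' with hc2 | hc2 | hc2 | hc2
          · rw [hc2] at e4
            clear e5 b3 b4; omega
          · rw [hc2] at e4
            clear e5 b3 b4; omega
          · rw [hc2] at e4
            rcases h3 with h3 | h3 <;> rw [h3] at e5
            · exact caseH28 F hr1 hr2 hr3 K ht hc1 h1 h2 ht3 hc2 h3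
            · exact caseH27 F hr1 hr2 hr3 K ht hc1 h1 h2 ht3 hc2 h3
          · rw [hc2] at e4
            clear e5 b3 b4; omega
        · have hc'' : K.c3 = -1 ∨ K.c3 = 0 ∨ K.c3 = 1 ∨ K.c3 = 2 := by omega
          rcases hc'' with hc2 | hc2 | hc2 | hc2
          · rw [hc2] at e4
            clear e5 b3 b4; omega
          · rw [hc2] at e4
            clear e5 b3 b4; omega
          · rw [hc2] at e4
            rcases h3 with h3 | h3 <;> rw [h3] at e5
            · omega
            · exact caseH24 F hr1 hr2 hr3 K ht hc1 h1 h2 ht3 hc2 h3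
          · rw [hc2] at e4
            rcases h3 with h3 | h3 <;> rw [h3] at e5
            · exact caseH26 F hr1 hr2 hr3 K ht hc1 h1 h2 ht3 hc2 h3
            · exact caseH25 F hr1 hr2 hr3 K ht hc1 h1 h2 ht3 hc2 h3
  · rw [ht] at e2
    rcases ht3 with ht3 | ht3
    · rw [ht3] at e4
      have hc' : K.c2 = -1 ∨ K.c2 = 0 ∨ K.c2 = 1 := by omega
      rcases hc' with hc1 | hc1 | hc1
      · rw [hc1] at e2
        rcases h1 with h1 | h1 <;> rw [h1] at e1 <;> rcases h2 with h2 | h2 <;> rw [h2] at e3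
        · have hc'' : K.c3 = -1 ∨ K.c3 = 0 ∨ K.c3 = 1 ∨ K.c3 = 2 := by omega
          rcases hc'' with hc2 | hc2 | hc2 | hc2
          · rw [hc2] at e4
            rcases h3 with h3 | h3 <;> rw [h3] at e5
            · exact caseH35 F hr1 hr2 hr3 K ht hc1 h1 h2 ht3 hc2 h3
            · exact caseH34 F hr1 hr2 hr3 K ht hc1 h1 h2 ht3 hc2 h3
          · rw [hc2] at e4
            rcases h3 with h3 | h3 <;> rw [h3] at e5
            · exact caseH36 F hr1 hr2 hr3 K ht hc1 h1 h2 ht3 hc2 h3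
            · omega
          · rw [hc2] at e4
            clear e5 b3 b4; omega
          · rw [hc2] at e4
            clear e5 b3 b4; omega
        · have hc'' : K.c3 = -1 ∨ K.c3 = 0 ∨ K.c3 = 1 ∨ K.c3 = 2 := by omega
          rcases hc'' with hc2 | hc2 | hc2 | hc2
          · rw [hc2] at e4
            rcases h3 with h3 | h3 <;> rw [h3] at e5
            · omega
            · exact caseH32 F hr1 hr2 hr3 K ht hc1 h1 h2 ht3 hc2 h3
          · rw [hc2] at e4
            rcases h3 with h3 | h3 <;> rw [h3] at e5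
            · exact caseH33 F hr1 hr2 hr3 K ht hc1 h1 h2 ht3 hc2 h3
            · omega
          · rw [hc2] at e4
            clear e5 b3 b4; omega
          · rw [hc2] at e4
            clear e5 b3 b4; omega
        · clear e4 e5 b1 b2 b3 b4; omega
        · clear e4 e5 b1 b2 b3 b4; omega
      · rw [hc1] at e2
        rcases h1 with h1 | h1 <;> rw [h1] at e1 <;> rcases h2 with h2 | h2 <;> rw [h2] at e3
        · have hc'' : K.c3 = -1 ∨ K.c3 = 0 ∨ K.c3 = 1 ∨ K.c3 = 2 := by omega
          rcases hc'' with hc2 | hc2 | hc2 | hc2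
          · rw [hc2] at e4
            clear e5 b3 b4; omega
          · rw [hc2] at e4
            rcases h3 with h3 | h3 <;> rw [h3] at e5
            · exact caseH41 F hr1 hr2 hr3 K ht hc1 h1 h2 ht3 hc2 h3
            · exact caseH40 F hr1 hr2 hr3 K ht hc1 h1 h2 ht3 hc2 h3
          · rw [hc2] at e4
            rcases h3 with h3 | h3 <;> rw [h3] at e5
            · exact caseH42 F hr1 hr2 hr3 K ht hc1 h1 h2 ht3 hc2 h3
            · omega
          · rw [hc2] at e4
            clear e5 b3 b4; omega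
        · clear e4 e5 b1 b2 b3 b4; omega
        · clear e4 e5 b1 b2 b3 b4; omega
        · have hc'' : K.c3 = -1 ∨ K.c3 = 0 ∨ K.c3 = 1 ∨ K.c3 = 2 := by omega
          rcases hc'' with hc2 | hc2 | hc2 | hc2
          · rw [hc2] at e4
            clear e5 b3 b4; omega
          · rw [hc2] at e4
            rcases h3 with h3 | h3 <;> rw [h3] at e5
            · omega
            · exact caseH37 F hr1 hr2 hr3 K ht hc1 h1 h2 ht3 hc2 h3
          · rw [hc2] at e4
            rcases h3 with h3 | h3 <;> rw [h3] at e5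
            · exact caseH39 F hr1 hr2 hr3 K ht hc1 h1 h2 ht3 hc2 h3
            · exact caseH38 F hr1 hr2 hr3 K ht hc1 h1 h2 ht3 hc2 h3
          · rw [hc2] at e4
            clear e5 b3 b4; omega
      · rw [hc1] at e2
        rcases h1 with h1 | h1 <;> rw [h1] at e1 <;> rcases h2 with h2 | h2 <;> rw [h2] at e3
        · clear e4 e5 b1 b2 b3 b4; omega
        · clear e4 e5 b1 b2 b3 b4; omega
        · have hc'' : K.c3 = -1 ∨ K.c3 = 0 ∨ K.c3 = 1 ∨ K.c3 = 2 := by omega
          rcases hc'' with hc2 | hc2 | hc2 | hc2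
          · rw [hc2] at e4
            clear e5 b3 b4; omega
          · rw [hc2] at e4
            clear e5 b3 b4; omega
          · rw [hc2] at e4
            rcases h3 with h3 | h3 <;> rw [h3] at e5
            · omega
            · exact caseH46 F hr1 hr2 hr3 K ht hc1 h1 h2 ht3 hc2 h3
          · rw [hc2] at e4
            rcases h3 with h3 | h3 <;> rw [h3] at e5
            · exact caseH47 F hr1 hr2 hr3 K ht hc1 h1 h2 ht3 hc2 h3
            · omega
        · have hc'' : K.c3 = -1 ∨ K.c3 = 0 ∨ K.c3 = 1 ∨ K.c3 = 2 := by omega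
          rcases hc'' with hc2 | hc2 | hc2 | hc2
          · rw [hc2] at e4
            clear e5 b3 b4; omega
          · rw [hc2] at e4
            clear e5 b3 b4; omega
          · rw [hc2] at e4
            rcases h3 with h3 | h3 <;> rw [h3] at e5
            · omega
            · exact caseH43 F hr1 hr2 hr3 K ht hc1 h1 h2 ht3 hc2 h3
          · rw [hc2] at e4
            rcases h3 with h3 | h3 <;> rw [h3] at e5
            · exact caseH45 F hr1 hr2 hr3 K ht hc1 h1 h2 ht3 hc2 h3
            · exact caseH44 F hr1 hr2 hr3 K ht hc1 h1 h2 ht3 hc2 h3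
    · rw [ht3] at e4
      have hc' : K.c2 = -1 ∨ K.c2 = 0 ∨ K.c2 = 1 := by omega
      rcases hc' with hc1 | hc1 | hc1
      · rw [hc1] at e2
        rcases h1 with h1 | h1 <;> rw [h1] at e1 <;> rcases h2 with h2 | h2 <;> rw [h2] at e3
        · have hc'' : K.c3 = -2 ∨ K.c3 = -1 ∨ K.c3 = 0 ∨ K.c3 = 1 ∨ K.c3 = 2 := by omega
          rcases hc'' with hc2 | hc2 | hc2 | hc2 | hc2
          · rw [hc2] at e4
            rcases h3 with h3 | h3 <;> rw [h3] at e5
            · exact caseH51 F hr1 hr2 hr3 K ht hc1 h1 h2 ht3 hc2 h3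
            · exact caseH50 F hr1 hr2 hr3 K ht hc1 h1 h2 ht3 hc2 h3
          · rw [hc2] at e4
            rcases h3 with h3 | h3 <;> rw [h3] at e5
            · exact caseH52 F hr1 hr2 hr3 K ht hc1 h1 h2 ht3 hc2 h3
            · omega
          · rw [hc2] at e4
            clear e5 b3 b4; omega
          · rw [hc2] at e4
            clear e5 b3 b4; omega
          · rw [hc2] at e4
            clear e5 b3 b4; omega
        · have hc'' : K.c3 = -2 ∨ K.c3 = -1 ∨ K.c3 = 0 ∨ K.c3 = 1 ∨ K.c3 = 2 := by omega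
          rcases hc'' with hc2 | hc2 | hc2 | hc2 | hc2
          · rw [hc2] at e4
            clear e5 b3 b4; omega
          · rw [hc2] at e4
            rcases h3 with h3 | h3 <;> rw [h3] at e5
            · exact caseH49 F hr1 hr2 hr3 K ht hc1 h1 h2 ht3 hc2 h3
            · exact caseH48 F hr1 hr2 hr3 K ht hc1 h1 h2 ht3 hc2 h3
          · rw [hc2] at e4
            clear e5 b3 b4; omega
          · rw [hc2] at e4
            clear e5 b3 b4; omega
          · rw [hc2] at e4
            clear e5 b3 b4; omega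
        · clear e4 e5 b1 b2 b3 b4; omega
        · clear e4 e5 b1 b2 b3 b4; omega
      · rw [hc1] at e2
        rcases h1 with h1 | h1 <;> rw [h1] at e1 <;> rcases h2 with h2 | h2 <;> rw [h2] at e3
        · have hc'' : K.c3 = -2 ∨ K.c3 = -1 ∨ K.c3 = 0 ∨ K.c3 = 1 ∨ K.c3 = 2 := by omega
          rcases hc'' with hc2 | hc2 | hc2 | hc2 | hc2
          · rw [hc2] at e4
            clear e5 b3 b4; omega
          · rw [hc2] at e4
            rcases h3 with h3 | h3 <;> rw [h3] at e5
            · exact caseH57 F hr1 hr2 hr3 K ht hc1 h1 h2 ht3 hc2 h3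
            · exact caseH56 F hr1 hr2 hr3 K ht hc1 h1 h2 ht3 hc2 h3
          · rw [hc2] at e4
            rcases h3 with h3 | h3 <;> rw [h3] at e5
            · exact caseH58 F hr1 hr2 hr3 K ht hc1 h1 h2 ht3 hc2 h3
            · omega
          · rw [hc2] at e4
            clear e5 b3 b4; omega
          · rw [hc2] at e4
            clear e5 b3 b4; omega
        · clear e4 e5 b1 b2 b3 b4; omega
        · clear e4 e5 b1 b2 b3 b4; omega
        · have hc'' : K.c3 = -2 ∨ K.c3 = -1 ∨ K.c3 = 0 ∨ K.c3 = 1 ∨ K.c3 = 2 := by omega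
          rcases hc'' with hc2 | hc2 | hc2 | hc2 | hc2
          · rw [hc2] at e4
            clear e5 b3 b4; omega
          · rw [hc2] at e4
            clear e5 b3 b4; omega
          · rw [hc2] at e4
            rcases h3 with h3 | h3 <;> rw [h3] at e5
            · omega
            · exact caseH53 F hr1 hr2 hr3 K ht hc1 h1 h2 ht3 hc2 h3
          · rw [hc2] at e4
            rcases h3 with h3 | h3 <;> rw [h3] at e5
            · exact caseH55 F hr1 hr2 hr3 K ht hc1 h1 h2 ht3 hc2 h3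
            · exact caseH54 F hr1 hr2 hr3 K ht hc1 h1 h2 ht3 hc2 h3
          · rw [hc2] at e4
            clear e5 b3 b4; omega
      · rw [hc1] at e2
        rcases h1 with h1 | h1 <;> rw [h1] at e1 <;> rcases h2 with h2 | h2 <;> rw [h2] at e3
        · clear e4 e5 b1 b2 b3 b4; omega
        · clear e4 e5 b1 b2 b3 b4; omega
        · have hc'' : K.c3 = -2 ∨ K.c3 = -1 ∨ K.c3 = 0 ∨ K.c3 = 1 ∨ K.c3 = 2 := by omega
          rcases hc'' with hc2 | hc2 | hc2 | hc2 | hc2
          · rw [hc2] at e4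
            clear e5 b3 b4; omega
          · rw [hc2] at e4
            clear e5 b3 b4; omega
          · rw [hc2] at e4
            clear e5 b3 b4; omega
          · rw [hc2] at e4
            rcases h3 with h3 | h3 <;> rw [h3] at e5
            · exact caseH63 F hr1 hr2 hr3 K ht hc1 h1 h2 ht3 hc2 h3
            · exact caseH62 F hr1 hr2 hr3 K ht hc1 h1 h2 ht3 hc2 h3
          · rw [hc2] at e4
            clear e5 b3 b4; omega
        · have hc'' : K.c3 = -2 ∨ K.c3 = -1 ∨ K.c3 = 0 ∨ K.c3 = 1 ∨ K.c3 = 2 := by omega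
          rcases hc'' with hc2 | hc2 | hc2 | hc2 | hc2
          · rw [hc2] at e4
            clear e5 b3 b4; omega
          · rw [hc2] at e4
            clear e5 b3 b4; omega
          · rw [hc2] at e4
            clear e5 b3 b4; omega
          · rw [hc2] at e4
            rcases h3 with h3 | h3 <;> rw [h3] at e5
            · omega
            · exact caseH59 F hr1 hr2 hr3 K ht hc1 h1 h2 ht3 hc2 h3
          · rw [hc2] at e4
            rcases h3 with h3 | h3 <;> rw [h3] at e5
            · exact caseH61 F hr1 hr2 hr3 K ht hc1 h1 h2 ht3 hc2 h3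
            · exact caseH60 F hr1 hr2 hr3 K ht hc1 h1 h2 ht3 hc2 h3

theorem K0.false2 {A : Ap} (F : A.Fl) (hr : (A.p : ℤ) < 2 * A.w + A.h) (K : K0 A)
    (hc : K.c2 = 0 ∨ K.c2 = 1) (h1 : K.n1 = 0 ∨ K.n1 = -1)
    (h2 : K.n2 = 0 ∨ K.n2 = -1) : False := by
  have e1 := K.e1
  have e2 := K.e2
  have e3 := K.e3
  have a1 := K.d1.2.2.1
  have a2 := K.d1.2.2.2.1
  have a3 := K.d2.2.2.1
  have a4 := K.d2.2.2.2.1
  have a5 := K.d3.2.2.1
  have a6 := K.d3.2.2.2.1
  have a7 := K.d4.2.2.1
  have a8 := K.d4.2.2.2.1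
  have a9 := A.hfd
  have a10 := A.hfd2
  rcases hc with hc1 | hc1 <;> rw [hc1] at e2 <;> rcases h1 with h1 | h1 <;> rw [h1] at e1 <;>
    rcases h2 with h2 | h2 <;> rw [h2] at e3
  · exact caseZ4 F hr K hc1 h1 h2
  · exact caseZ3 F hr K hc1 h1 h2
  · omega
  · exact caseZ0 F hr K hc1 h1 h2
  · exact caseZ5 F hr K hc1 h1 h2
  · omega
  · exact caseZ2 F hr K hc1 h1 h2
  · exact caseZ1 F hr K hc1 h1 h2

theorem K0.false3 {A : Ap} (F : A.Fl) (hr1 : A.w = A.h) (hr2 : 3 * (A.w : ℤ) ≤ A.p)
    (hr3 : (A.p : ℤ) < 4 * A.w) (K : K0 A)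
    (hc : K.c2 = 0 ∨ K.c2 = 1) (h1 : K.n1 = 0 ∨ K.n1 = -1)
    (h2 : K.n2 = 0 ∨ K.n2 = -1) : False := by
  have e1 := K.e1
  have e2 := K.e2
  have e3 := K.e3
  have a1 := K.d1.2.2.1
  have a2 := K.d1.2.2.2.1
  have a3 := K.d2.2.2.1
  have a4 := K.d2.2.2.2.1
  have a5 := K.d3.2.2.1
  have a6 := K.d3.2.2.2.1
  have a7 := K.d4.2.2.1
  have a8 := K.d4.2.2.2.1
  have a9 := A.hfd
  have a10 := A.hfd2
  rcases hc with hc1 | hc1 <;> rw [hc1] at e2 <;> rcases h1 with h1 | h1 <;> rw [h1] at e1 <;>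
    rcases h2 with h2 | h2 <;> rw [h2] at e3
  · exact caseY4 F hr1 hr2 hr3 K hc1 h1 h2
  · exact caseY3 F hr1 hr2 hr3 K hc1 h1 h2
  · omega
  · exact caseY0 F hr1 hr2 hr3 K hc1 h1 h2
  · exact caseY5 F hr1 hr2 hr3 K hc1 h1 h2
  · omega
  · exact caseY2 F hr1 hr2 hr3 K hc1 h1 h2
  · exact caseY1 F hr1 hr2 hr3 K hc1 h1 h2

end Pool.Agent.H81.AP
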