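import Pool.Agent.H81.AP.Disp
import Pool.Agent.H23.FF.NotCop

/-! Outside of the regime `2w + h ≤ p` (and `4w < p` if `w = h`) there is no flat progression. -/

namespace Pool.Agent.H81.AP

open Pool.Agent.H98.Flat (Ap InA)
open Pool.Agent.H98.Flat.Ap

variable {A : Ap}

theorem ne_mul {k x l : ℤ} (hk0 : 0 < k) (hk : k < A.p) (hx : IsCoprime x (A.p : ℤ)) :
    k * x ≠ l * A.p := by
  intro h
  have h1 : (A.p : ℤ) ∣ k * x := ⟨l, by rw [h]; ring⟩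
  have h2 := (hx.symm).dvd_of_dvd_mul_right h1
  have := Int.le_of_dvd hk0 h2
  omega

theorem p5 (A : Ap) : (5 : ℤ) ≤ A.p := by
  have := A.h2
  have := A.hw
  have := A.hwh
  omega

/-- the data of the four classes -/
theorem k2_exists {j mt f1 s D T : ℤ} (J : JD A j mt f1 s D T) (s0 : 0 < s) (s1 : s < A.p)
    {t2 : ℤ} (ht : t2 = 0 ∨ t2 = 1) (h0 : 0 < 2 * j - t2 * A.p) (h1 : 2 * j - t2 * A.p < A.p) :
    ∃ K : K2 A, K.j = j ∧ K.mt = mt ∧ K.s = s ∧ K.f1 = f1 ∧ K.t2 = t2 ∧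
      (-K.t2 ≤ K.c2 ∧ K.c2 ≤ 1) ∧ (K.n1 = 0 ∨ K.n1 = -1) ∧ (K.n2 = 0 ∨ K.n2 = -1) := by
  have p5 := p5 A
  have cj := J.cop_j
  have cs := J.cop_s
  have j0 := J.j0
  have j1 := J.j1
  obtain ⟨c1, n1, f, g1, ⟨cb1, cb2⟩, ef, eg, q1, q2, q3, q4, hn1, D1, D2, R1, R2⟩ :=
    mult J (k := 1) (t := 0) (by norm_num) (le_refl _) (by omega) (by omega)
  obtain rfl : c1 = 0 := by omega
  obtain rfl : f = f1 := by rw [ef]; ring
  obtain ⟨c2, n2, f2, g2, ⟨cb3, cb4⟩, ef2, eg2, q5, q6, q7, q8, hn2, D3, D4, R3, R4⟩ :=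
    mult J (k := 2) (t := t2) (by norm_num) (by omega) h0 h1
  have D1' : A.Cls j (mt - A.w) f s := by convert D1 using 1 <;> ring1
  have D2' : A.Cls (A.p - j) (A.md - (mt - A.w) + n1) g1 (-s) := by
    convert D2 using 1 <;> ring1
  have w1 : 2 * s ≠ 1 * A.p := ne_mul (by norm_num) (by omega) cs
  have w2 : 3 * s ≠ 1 * A.p := ne_mul (by norm_num) (by omega) cs
  have w3 : 3 * s ≠ 2 * A.p := ne_mul (by norm_num) (by omega) cs
  have w4 : 4 * s ≠ 1 * A.p := ne_mul (by norm_num) (by omega) cs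
  have w5 : 4 * s ≠ 3 * A.p := ne_mul (by norm_num) (by omega) cs
  rw [one_mul] at w1 w2 w4
  have N : ∀ k l : ℤ, 0 < k → k < A.p → k * j ≠ l * A.p := fun k l h h' => ne_mul h h' cj
  have i1 : j ≠ A.p - j := fun h => N 2 1 (by norm_num) (by omega) (by linear_combination h)
  have i2 : j ≠ 2 * j - t2 * A.p := fun h =>
    N 1 t2 (by norm_num) (by omega) (by linear_combination -h)
  have i3 : j ≠ A.p - (2 * j - t2 * A.p) := fun h =>
    N 3 (1 + t2) (by norm_num) (by omega) (by linear_combination h)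
  have i4 : A.p - j ≠ 2 * j - t2 * A.p := fun h =>
    N 3 (1 + t2) (by norm_num) (by omega) (by linear_combination -h)
  have i5 : A.p - j ≠ A.p - (2 * j - t2 * A.p) := fun h =>
    N 1 t2 (by norm_num) (by omega) (by linear_combination h)
  have i6 : 2 * j - t2 * A.p ≠ A.p - (2 * j - t2 * A.p) := fun h =>
    N 4 (1 + 2 * t2) (by norm_num) (by omega) (by linear_combination h)
  have nd : [j, A.p - j, 2 * j - t2 * A.p, A.p - (2 * j - t2 * A.p)].Nodup := by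
    simp only [List.nodup_cons, List.mem_cons, List.not_mem_nil, or_false, not_false_eq_true,
      List.nodup_nil, and_true, not_or]
    exact ⟨⟨i1, i2, i3⟩, ⟨i4, i5⟩, i6⟩
  have cb4' : c2 ≤ 1 := by omega
  have R1' : 0 ≤ mt := by omega
  have R2' : 0 ≤ A.md - mt + n1 := by omega
  exact ⟨⟨j, mt, s, f, f2, g1, g2, t2, c2, n1, n2, D1', D2', D3, D4, eg, ef2, eg2,
    R1', R2', R3, R4, s0, s1, w1, w2, w3, w4, w5, nd, D1'.f_ne_fd.symm,
    D3.f_ne D1' i2.symm, D2'.f_ne D1' i1.symm, D4.f_ne D1' i3.symm, D3.f_ne_fd, D2'.f_ne_fd,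
    D4.f_ne_fd, D2'.f_ne D3 i4, D4.f_ne D3 i6.symm, D4.f_ne D2' i5.symm⟩, rfl, rfl, rfl, rfl, rfl,
    ⟨cb3, cb4'⟩, hn1, hn2⟩

theorem false2 (F : A.Fl) (hr : (A.p : ℤ) < 2 * A.w + A.h) {j mt f1 s D T : ℤ}
    (J : JD A j mt f1 s D T) (s0 : 0 < s) (s1 : s < A.p) : False := by
  have p5 := p5 A
  have j0 := J.j0
  have j1 := J.j1
  have z1 : 2 * j ≠ 1 * A.p := ne_mul (by norm_num) (by omega) J.cop_j
  rcases lt_or_ge (2 * j) A.p with h | h
  · obtain ⟨K, -, -, -, -, h1, h2, h3, h4⟩ := k2_exists J s0 s1 (t2 := 0) (Or.inl rfl) (by omega)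
      (by omega)
    exact K2.false F hr K (Or.inl h1) h2 h3 h4
  · obtain ⟨K, -, -, -, -, h1, h2, h3, h4⟩ := k2_exists J s0 s1 (t2 := 1) (Or.inr rfl) (by omega)
      (by omega)
    exact K2.false F hr K (Or.inr h1) h2 h3 h4

theorem false3' (F : A.Fl) (hr1 : A.w = A.h) (hr2 : 3 * (A.w : ℤ) ≤ A.p)
    (hr3 : (A.p : ℤ) < 4 * A.w) {j mt f1 s D T : ℤ}
    (J : JD A j mt f1 s D T) (s0 : 0 < s) (s1 : s < A.p) {t2 t3 : ℤ}
    (ht : (t2 = 0 ∧ (t3 = 0 ∨ t3 = 1)) ∨ (t2 = 1 ∧ (t3 = 1 ∨ t3 = 2)))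
    (h0 : 0 < 2 * j - t2 * A.p) (h1 : 2 * j - t2 * A.p < A.p)
    (h0' : 0 < 3 * j - t3 * A.p) (h1' : 3 * j - t3 * A.p < A.p) : False := by
  have p5 := p5 A
  have hw2 : (2 : ℤ) ≤ A.w := by exact_mod_cast A.hw
  have j0 := J.j0
  have j1 := J.j1
  obtain ⟨K, e1, e2, e3, e4, e5, cb, hn1, hn2⟩ := k2_exists J s0 s1 (t2 := t2) (by omega) h0 h1
  have cj := J.cop_j
  have cs := J.cop_s
  subst e1 e2 e3 e4 e5
  have p7 : (7 : ℤ) ≤ A.p := by
    have : (A.p : ℤ) ≠ 6 := by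
      intro h6
      have h7 : (A.w : ℤ) = 2 := by omega
      have h8 := A.cwp
      rw [h6, h7] at h8
      have h9 := h8.isUnit_of_dvd' (dvd_refl 2) (by norm_num)
      have := Int.isUnit_iff.1 h9
      omega
    omega
  obtain ⟨c3, n3, f3, g3, ⟨cb3, cb4⟩, ef3, eg3, q5, q6, q7, q8, hn3, D5, D6, R5, R6⟩ :=
    mult J (k := 3) (t := t3) (by norm_num) (by omega) h0' h1'
  have w1 : 5 * K.s ≠ 1 * A.p := ne_mul (by norm_num) (by omega) cs
  have w2 : 5 * K.s ≠ 2 * A.p := ne_mul (by norm_num) (by omega) cs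
  have w3 : 5 * K.s ≠ 3 * A.p := ne_mul (by norm_num) (by omega) cs
  have w4 : 5 * K.s ≠ 4 * A.p := ne_mul (by norm_num) (by omega) cs
  have w5 : 6 * K.s ≠ 1 * A.p := ne_mul (by norm_num) (by omega) cs
  have w6 : 6 * K.s ≠ 5 * A.p := ne_mul (by norm_num) (by omega) cs
  rw [one_mul] at w1 w5
  have N : ∀ k l : ℤ, 0 < k → k < A.p → k * K.j ≠ l * A.p := fun k l h h' => ne_mul h h' cj
  have nd := K.nd
  have nd' := nd
  simp only [List.nodup_cons, List.mem_cons, List.not_mem_nil, or_false, not_false_eq_true,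
      List.nodup_nil, and_true, not_or] at nd'
  obtain ⟨⟨i1, i2, i3⟩, ⟨i4, i5⟩, i6⟩ := nd'
  have k1 : K.j ≠ 3 * K.j - t3 * A.p := fun h =>
    N 2 t3 (by norm_num) (by omega) (by linear_combination -h)
  have k2 : K.j ≠ A.p - (3 * K.j - t3 * A.p) := fun h =>
    N 4 (1 + t3) (by norm_num) (by omega) (by linear_combination h)
  have k3 : A.p - K.j ≠ 3 * K.j - t3 * A.p := fun h =>
    N 4 (1 + t3) (by norm_num) (by omega) (by linear_combination -h)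
  have k4 : A.p - K.j ≠ A.p - (3 * K.j - t3 * A.p) := fun h =>
    N 2 t3 (by norm_num) (by omega) (by linear_combination h)
  have k5 : 2 * K.j - K.t2 * A.p ≠ 3 * K.j - t3 * A.p := fun h =>
    N 1 (t3 - K.t2) (by norm_num) (by omega) (by linear_combination -h)
  have k6 : 2 * K.j - K.t2 * A.p ≠ A.p - (3 * K.j - t3 * A.p) := fun h =>
    N 5 (1 + K.t2 + t3) (by norm_num) (by omega) (by linear_combination h)
  have k7 : A.p - (2 * K.j - K.t2 * A.p) ≠ 3 * K.j - t3 * A.p := fun h =>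
    N 5 (1 + K.t2 + t3) (by norm_num) (by omega) (by linear_combination -h)
  have k8 : A.p - (2 * K.j - K.t2 * A.p) ≠ A.p - (3 * K.j - t3 * A.p) := fun h =>
    N 1 (t3 - K.t2) (by norm_num) (by omega) (by linear_combination h)
  have k9 : 3 * K.j - t3 * A.p ≠ A.p - (3 * K.j - t3 * A.p) := fun h =>
    N 6 (1 + 2 * t3) (by norm_num) (by omega) (by linear_combination h)
  have nd6 : [K.j, A.p - K.j, 2 * K.j - K.t2 * A.p, A.p - (2 * K.j - K.t2 * A.p),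
      3 * K.j - t3 * A.p, A.p - (3 * K.j - t3 * A.p)].Nodup := by
    simp only [List.nodup_cons, List.mem_cons, List.not_mem_nil, or_false, not_false_eq_true,
      List.nodup_nil, and_true, not_or]
    exact ⟨⟨i1, i2, i3, k1, k2⟩, ⟨i4, i5, k3, k4⟩, ⟨i6, k5, k6⟩, ⟨k7, k8⟩, k9⟩
  have cb4' : c3 ≤ 2 := by omega
  have x1 : f3 ≠ K.f1 := D5.f_ne K.d1 k1.symm
  have x2 : g3 ≠ K.f1 := D6.f_ne K.d1 k2.symm
  have x3 : f3 ≠ A.fd := D5.f_ne_fd
  have x4 : g3 ≠ A.fd := D6.f_ne_fd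
  have x5 : f3 ≠ K.f2 := D5.f_ne K.d3 k5.symm
  have x6 : g3 ≠ K.f2 := D6.f_ne K.d3 k6.symm
  have x7 : f3 ≠ K.g1 := D5.f_ne K.d2 k3.symm
  have x8 : g3 ≠ K.g1 := D6.f_ne K.d2 k4.symm
  have x9 : f3 ≠ K.g2 := D5.f_ne K.d4 k7.symm
  have x10 : g3 ≠ K.g2 := D6.f_ne K.d4 k8.symm
  have x11 : g3 ≠ f3 := D6.f_ne D5 k9.symm
  exact K3.false F hr1 hr2 hr3
    { j := K.j, mt := K.mt, s := K.s, f1 := K.f1, f2 := K.f2, g1 := K.g1, g2 := K.g2, t2 := K.t2,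
      c2 := K.c2, n1 := K.n1, n2 := K.n2, d1 := K.d1, d2 := K.d2, d3 := K.d3, d4 := K.d4,
      e1 := K.e1, e2 := K.e2, e3 := K.e3, r1 := K.r1, r2 := K.r2, r3 := K.r3, r4 := K.r4,
      s0 := K.s0, s1 := K.s1, y1 := K.y1, y2 := K.y2, y3 := K.y3, y4 := K.y4, y5 := K.y5,
      x01 := K.x01, x02 := K.x02, x03 := K.x03, x04 := K.x04, x12 := K.x12, x13 := K.x13,
      x14 := K.x14, x23 := K.x23, x24 := K.x24, x34 := K.x34, f3 := f3, g3 := g3, t3 := t3, c3 := c3, n3 := n3, d5 := D5, d6 := D6, e4 := ef3,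
      e5 := eg3, r5 := R5, r6 := R6, y6 := w1, y7 := w2, y8 := w3, y9 := w4, y10 := w5,
      y11 := w6, nd6 := nd6, x05 := x1, x06 := x2, x15 := x3, x16 := x4, x25 := x5, x26 := x6,
      x35 := x7, x36 := x8, x45 := x9, x46 := x10, x56 := x11 } ht cb ⟨cb3, cb4'⟩ hn1 hn2 hn3

theorem false3 (F : A.Fl) (hr1 : A.w = A.h) (hr2 : 3 * (A.w : ℤ) ≤ A.p)
    (hr3 : (A.p : ℤ) < 4 * A.w) {j mt f1 s D T : ℤ}
    (J : JD A j mt f1 s D T) (s0 : 0 < s) (s1 : s < A.p) : False := by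
  have p5 := p5 A
  have j0 := J.j0
  have j1 := J.j1
  have z1 : 2 * j ≠ 1 * A.p := ne_mul (by norm_num) (by omega) J.cop_j
  have z2 : 3 * j ≠ 1 * A.p := ne_mul (by norm_num) (by omega) J.cop_j
  have z3 : 3 * j ≠ 2 * A.p := ne_mul (by norm_num) (by omega) J.cop_j
  rcases lt_or_ge (2 * j) A.p with h | h
  · rcases lt_or_ge (3 * j) A.p with h' | h'
    · exact false3' F hr1 hr2 hr3 J s0 s1 (t2 := 0) (t3 := 0) (by omega) (by omega) (by omega)
        (by omega) (by omega)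
    · exact false3' F hr1 hr2 hr3 J s0 s1 (t2 := 0) (t3 := 1) (by omega) (by omega) (by omega)
        (by omega) (by omega)
  · rcases lt_or_ge (3 * j) (2 * A.p) with h' | h'
    · exact false3' F hr1 hr2 hr3 J s0 s1 (t2 := 1) (t3 := 1) (by omega) (by omega) (by omega)
        (by omega) (by omega)
    · exact false3' F hr1 hr2 hr3 J s0 s1 (t2 := 1) (t3 := 2) (by omega) (by omega) (by omega)
        (by omega) (by omega)

/-- the case `U_i = i d / p` -/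
theorem k0_exists {D T : ℤ} (hD : (A.q : ℤ) * A.md + A.fd = A.p * D) (D0 : 0 < D)
    (ha : A.a = D + A.q * T) (hT : (A.p : ℤ) ∣ T) :
    ∃ K : K0 A, (K.c2 = 0 ∨ K.c2 = 1) ∧ (K.n1 = 0 ∨ K.n1 = -1) ∧ (K.n2 = 0 ∨ K.n2 = -1) := by
  have p5 := p5 A
  have hp := A.p_pos'
  have hq := A.q_pos'
  have hmd := A.hmd
  have hmd2 := A.hmd2
  have g0 := A.hfd
  have g1 : A.fd < A.q := A.hfd2
  obtain ⟨u, hu⟩ := hT
  have hDq : D < A.q := by
    by_contra h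
    push Not at h
    have : (A.p : ℤ) * A.q ≤ A.p * D := mul_le_mul_of_nonneg_left h hp.le
    have h3 : A.md + 1 ≤ A.p := by omega
    nlinarith
  have s0 := Int.emod_nonneg (A.e * 1) hp.ne'
  have s1 := Int.emod_lt_of_pos (A.e * 1) hp
  have se := Int.emod_add_mul_ediv (A.e * 1) A.p
  have sn : (A.e * 1) % A.p ≠ 0 := by
    intro h
    exact not_dvd_e (A := A) (i := 1) (by norm_num) (by omega) (Int.dvd_of_emod_eq_zero h)
  set s := (A.e * 1) % A.p with hs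
  have s0' : 0 < s := by omega
  have cs : IsCoprime s (A.p : ℤ) := cop_row (i := 1) isCoprime_one_left
    ⟨A.e * 1 / A.p, by linear_combination -se⟩
  have d1 : A.Cls 1 0 D s := ⟨by norm_num, by omega, D0, hDq,
    ⟨u, by rw [ha, hu]; ring⟩, ⟨A.e * 1 / A.p, by linear_combination -se⟩⟩
  obtain ⟨c2, e1, e2, d3⟩ := cls_mk (A := A) (n := 2) (M := 0) (Fr := 2 * D) (S := 2 * s)
    (by norm_num) (by omega) ⟨2 * u, by rw [ha, hu]; ring⟩
    ⟨2 * (A.e * 1 / A.p), by linear_combination -2 * se⟩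
  rw [zero_add] at d3
  have hc2 : c2 = 0 ∨ c2 = 1 := by
    have h1 : -1 < c2 := by
      by_contra h; have : c2 ≤ -1 := by omega
      nlinarith
    have h2 : c2 < 2 := by
      by_contra h; have : 2 ≤ c2 := by omega
      nlinarith
    omega
  have r5 : c2 = 1 → (A.p : ℤ) ≤ 2 * A.md + 1 := by
    rintro rfl
    by_contra h
    push Not at h
    have h3 : 2 * A.md + 2 ≤ A.p := by omega
    have h4 : (A.q : ℤ) * (2 * A.md + 2) ≤ A.q * A.p := mul_le_mul_of_nonneg_left h3 hq.le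
    have h5 : (A.p : ℤ) * (A.q + 1) ≤ A.p * (2 * D) :=
      mul_le_mul_of_nonneg_left (by omega) hp.le
    nlinarith
  -- opposites
  obtain ⟨n1, g1', hn1, eg1, d2, r2⟩ : ∃ n1 g1 : ℤ, (n1 = 0 ∨ n1 = -1) ∧
      g1 = A.fd - D - n1 * A.q ∧ A.Cls (A.p - 1) (A.md + n1) g1 (-s) ∧ 0 ≤ A.md + n1 := by
    have hlt : D < A.q * A.md + A.fd := by rw [hD]; nlinarith
    rcases d1.neg with ⟨h2, h3⟩ | ⟨h2, h3⟩
    · exact ⟨0, A.fd - D, Or.inl rfl, by ring, by convert h3 using 1; ring, by omega⟩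
    · refine ⟨-1, A.fd - D + A.q, Or.inr rfl, ?_, by convert h3 using 1; ring, ?_⟩
      · ring
      · by_contra hh
        have : A.md = 0 := by omega
        rw [this] at hlt
        omega
  obtain ⟨n2, g2', hn2, eg2, d4, r4⟩ : ∃ n2 g2 : ℤ, (n2 = 0 ∨ n2 = -1) ∧
      g2 = A.fd - (2 * D - c2 * A.q) - n2 * A.q ∧ A.Cls (A.p - 2) (A.md - c2 + n2) g2 (-(2 * s)) ∧
        0 ≤ A.md - c2 + n2 := by
    have hlt : 2 * D < A.q * A.md + A.fd := by rw [hD]; nlinarith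
    rcases d3.neg with ⟨h2, h3⟩ | ⟨h2, h3⟩
    · refine ⟨0, A.fd - (2 * D - c2 * A.q), Or.inl rfl, by ring, by convert h3 using 1; ring, ?_⟩
      by_contra hh
      have : A.md + 1 ≤ c2 := by omega
      nlinarith
    · refine ⟨-1, A.fd - (2 * D - c2 * A.q) + A.q, Or.inr rfl, ?_, by convert h3 using 1; ring, ?_⟩
      · ring
      · by_contra hh
        have : A.md ≤ c2 := by omega
        nlinarith
  have i1 : (1 : ℤ) ≠ A.p - 1 := by omega
  have i2 : (1 : ℤ) ≠ A.p - 2 := by omega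
  have i3 : (A.p : ℤ) - 1 ≠ 2 := by omega
  have i4 : (A.p : ℤ) - 1 ≠ A.p - 2 := by omega
  have i5 : (2 : ℤ) ≠ A.p - 2 := by omega
  have nd : [1, (A.p : ℤ) - 1, 2, (A.p : ℤ) - 2].Nodup := by
    simp only [List.nodup_cons, List.mem_cons, List.not_mem_nil, or_false, not_false_eq_true,
      List.nodup_nil, and_true, not_or]
    exact ⟨⟨i1, by norm_num, i2⟩, ⟨i3, i4⟩, i5⟩
  have w1 : 2 * s ≠ 1 * A.p := ne_mul (by norm_num) (by omega) cs
  have w2 : 3 * s ≠ 1 * A.p := ne_mul (by norm_num) (by omega) cs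
  have w3 : 3 * s ≠ 2 * A.p := ne_mul (by norm_num) (by omega) cs
  have w4 : 4 * s ≠ 1 * A.p := ne_mul (by norm_num) (by omega) cs
  have w5 : 4 * s ≠ 3 * A.p := ne_mul (by norm_num) (by omega) cs
  rw [one_mul] at w1 w2 w4
  exact ⟨⟨s, D, 2 * D - c2 * A.q, g1', g2', c2, n1, n2, d1, d2, d3, d4, eg1, rfl, eg2, r2, r4, r5,
    s0', s1, w1, w2, w3, w4, w5, nd, d1.f_ne_fd.symm, d2.f_ne d1 i1.symm,
    d3.f_ne d1 (by norm_num), d4.f_ne d1 i2.symm, d2.f_ne_fd, d3.f_ne_fd, d4.f_ne_fd,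
    d3.f_ne d2 i3.symm, d4.f_ne d2 i4.symm, d4.f_ne d3 i5.symm⟩, hc2, hn1, hn2⟩

/-- **no flat progression** if `p < 2w + h`, or `w = h` and `p < 4w` -/
theorem flat_false (F : A.Fl) (h : A.p < 2 * A.w + A.h ∨ (A.w = A.h ∧ A.p < 4 * A.w)) :
    False := by
  obtain ⟨D, T, hD, ha, D0⟩ := base' A
  have hcase : (A.p : ℤ) < 2 * A.w + A.h ∨
      (A.w = A.h ∧ 3 * (A.w : ℤ) ≤ A.p ∧ (A.p : ℤ) < 4 * A.w) := by omega
  by_cases hT : (A.p : ℤ) ∣ T
  · obtain ⟨K, h1, h2, h3⟩ := k0_exists hD D0 ha hT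
    rcases hcase with hr | ⟨hr1, hr2, hr3⟩
    · exact K0.false2 F hr K h1 h2 h3
    · exact K0.false3 F hr1 hr2 hr3 K h1 h2 h3
  · by_cases hcop : IsCoprime (A.p : ℤ) T
    · obtain ⟨j, mt, f1, s, J, s0, s1⟩ := exists_j hD D0 ha hcop
      rcases hcase with hr | ⟨hr1, hr2, hr3⟩
      · exact false2 F hr J s0 s1
      · exact false3 F hr1 hr2 hr3 J s0 s1
    · -- helper23: `1 < gcd (T, p) < p`
      exact not_cop_false F hD D0 ha hT hcop hcase

end Pool.Agent.H81.AP
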