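import Pool.Agent.H81.AP.JBase

/-! Data of the four classes `±1`, `±2` when `U_i = i d / p`. -/

namespace Pool.Agent.H81.AP

open Pool.Agent.H98.Flat (Ap InA)
open Pool.Agent.H98.Flat.Ap

structure K0 (A : Ap) where
  s : ℤ
  f1 : ℤ
  f2 : ℤ
  g1 : ℤ
  g2 : ℤ
  c2 : ℤ
  n1 : ℤ
  n2 : ℤ
  d1 : A.Cls 1 0 f1 s
  d2 : A.Cls (A.p - 1) (A.md + n1) g1 (-s)
  d3 : A.Cls 2 c2 f2 (2 * s)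
  d4 : A.Cls (A.p - 2) (A.md - c2 + n2) g2 (-(2 * s))
  e1 : g1 = A.fd - f1 - n1 * A.q
  e2 : f2 = 2 * f1 - c2 * A.q
  e3 : g2 = A.fd - f2 - n2 * A.q
  r2 : 0 ≤ A.md + n1
  r4 : 0 ≤ A.md - c2 + n2
  r5 : c2 = 1 → A.p ≤ 2 * A.md + 1
  s0 : 0 < s
  s1 : s < A.p
  y1 : 2 * s ≠ A.p
  y2 : 3 * s ≠ A.p
  y3 : 3 * s ≠ 2 * A.p
  y4 : 4 * s ≠ A.p
  y5 : 4 * s ≠ 3 * A.p
  nd : [1, (A.p : ℤ) - 1, 2, (A.p : ℤ) - 2].Nodup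
  x01 : A.fd ≠ f1
  x02 : g1 ≠ f1
  x03 : f2 ≠ f1
  x04 : g2 ≠ f1
  x12 : g1 ≠ A.fd
  x13 : f2 ≠ A.fd
  x14 : g2 ≠ A.fd
  x23 : f2 ≠ g1
  x24 : g2 ≠ g1
  x34 : g2 ≠ f2

end Pool.Agent.H81.AP
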