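import Pool.Agent.H81.AP.JBase

/-! Data of the four classes `±j*`, `±2j*`. -/

namespace Pool.Agent.H81.AP

open Pool.Agent.H98.Flat (Ap InA)
open Pool.Agent.H98.Flat.Ap

structure K2 (A : Ap) where
  j : ℤ
  mt : ℤ
  s : ℤ
  f1 : ℤ
  f2 : ℤ
  g1 : ℤ
  g2 : ℤ
  t2 : ℤ
  c2 : ℤ
  n1 : ℤ
  n2 : ℤ
  d1 : A.Cls j (mt - A.w) f1 s
  d2 : A.Cls (A.p - j) (A.md - (mt - A.w) + n1) g1 (-s)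
  d3 : A.Cls (2 * j - t2 * A.p) (2 * (mt - A.w) - t2 * A.md + c2) f2 (2 * s)
  d4 : A.Cls (A.p - (2 * j - t2 * A.p)) (A.md - (2 * (mt - A.w) - t2 * A.md + c2) + n2) g2
    (-(2 * s))
  e1 : g1 = A.fd - f1 - n1 * A.q
  e2 : f2 = 2 * f1 - t2 * A.fd - c2 * A.q
  e3 : g2 = A.fd - f2 - n2 * A.q
  r1 : 0 ≤ mt
  r2 : 0 ≤ A.md - mt + n1
  r3 : 0 ≤ 2 * mt - t2 * A.md + c2
  r4 : 0 ≤ A.md - (2 * mt - t2 * A.md + c2) + n2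
  s0 : 0 < s
  s1 : s < A.p
  y1 : 2 * s ≠ A.p
  y2 : 3 * s ≠ A.p
  y3 : 3 * s ≠ 2 * A.p
  y4 : 4 * s ≠ A.p
  y5 : 4 * s ≠ 3 * A.p
  nd : [j, A.p - j, 2 * j - t2 * A.p, A.p - (2 * j - t2 * A.p)].Nodup
  x01 : A.fd ≠ f1
  x02 : f2 ≠ f1
  x03 : g1 ≠ f1
  x04 : g2 ≠ f1
  x12 : f2 ≠ A.fd
  x13 : g1 ≠ A.fd
  x14 : g2 ≠ A.fd
  x23 : g1 ≠ f2
  x24 : g2 ≠ f2
  x34 : g2 ≠ g1

end Pool.Agent.H81.AP
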